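import Pool.Agent.Lib.MP_5f1e54_an.TN.Defs

/-!
# TN-Dual: the two dualities

`nr_eq`: `N R N = N B = C N`, cancel `N`. `rel_sd`: `R C = R N R = B R`; `det R ≠ 0` since `det R det N = D ≠ 0`; `N rho B = κ rho C`
(`Rel.eq_rho`), `R N rho B = B rho B = l rho B`, so `R rho C = (l / κ) rho B > 0` (`l > B00 ≥ 0`). `lnk_sd`: `Lnk C B (zQ R)`; `Lnk.symm`:
`Lnk B C (zQ R)⁻¹`; `Lnk.self B`; `Lnk.trans`: `Lnk B C ((zQ R)⁻¹ * toQ B)`, and `(zQ R)⁻¹ (zQ R zQ N) = zQ N`.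
`chain_tr`: `Chain A B W → Chain Bᵀ Aᵀ Wᵀ`: induction (`Chain.single`, `Chain.trans`; `ESSE A B R S` gives `ESSE Bᵀ Aᵀ Rᵀ Sᵀ`).
`lnk_tr`: `Lnk A B X → Lnk Bᵀ Aᵀ Xᵀ`: `X W = B^k` from `W X = A^k` (`X W X = X A^k = B^k X`, `X` invertible).
`dg M = P Mᵀ P` with `P = !![0, 1; 1, 0]`: `lnk_dg` from `lnk_tr` and `Lnk.swap` (twice). `dg (M M') = dg M' dg M`.
`rel_dg`: `dg N dg C = dg (C N) = dg (N B) = dg B dg N`; the class; `rho (dg C) = (C01, l - C11)`,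
`C10 rho(dg C)_0 = C01 C10`, and with `C01 C10 = (l - C00)(l - C11)`: `(N11 C01 + N01 (l - C11)) (l - C00) = C01 (N11 (l - C00) + N01 C10) =
C01 (tau C N)_1 = C01 κ tau B 1 > 0` (`Rel.eq_tau`).
`minAt_dg`: `Rel t D (dg B) B' E`: `rel_dg`: `Rel t D (dg B') (dg (dg B)) (dg E)`, `dg (dg B) = B`, `dg E * dg E' = 1` (`mul_eq_one_comm`),
`Rel.inv`. `minAt_rel`: `Rel.trans`.
-/

open Matrix

namespace Pool.Agent.DimRep.TN

open Pool.Agent.DimRep.TB2

variable {t : ℕ} {D : ℤ} {B C : Matrix (Fin 2) (Fin 2) ℕ} {N R : Matrix (Fin 2) (Fin 2) ℤ}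

private theorem zQ_det (X : Matrix (Fin 2) (Fin 2) ℤ) : (zQ X).det = ((X.det : ℤ) : ℚ) := by
  unfold zQ
  rw [Matrix.det_fin_two, Matrix.det_fin_two]
  simp only [Matrix.map_apply]
  push_cast
  ring

private theorem toZ_det (hB : Cls t D B) : (toZ B).det = D := by
  rw [Matrix.det_fin_two]
  simp only [toZ, Matrix.map_apply]
  have := hB.2
  linarith

theorem nr_eq (hR : Rel t D B C N) (hB : toZ B = R * N) : toZ C = N * R := by
  have h1 : N * toZ B = toZ C * N := hR.2.2.1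
  have hd : N.det ≠ 0 := hR.2.2.2.1
  have h2 : toZ C * N = N * R * N := by rw [← h1, hB, Matrix.mul_assoc]
  have h3 : toZ C * (N * N.adjugate) = N * R * (N * N.adjugate) := by
    rw [← Matrix.mul_assoc, h2, Matrix.mul_assoc (N * R)]
  rw [Matrix.mul_adjugate, Matrix.mul_smul, Matrix.mul_one, Matrix.mul_smul, Matrix.mul_one] at h3
  ext i j
  have h4 := congrFun (congrFun h3 i) j
  simp only [Matrix.smul_apply, smul_eq_mul] at h4
  exact mul_left_cancel₀ hd h4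

private theorem detR_ne (h : Irr t D) (hR : Rel t D B C N) (hB : toZ B = R * N) : R.det ≠ 0 := by
  intro h0
  have h1 := toZ_det hR.1
  rw [hB, Matrix.det_mul, h0, zero_mul] at h1
  exact h.1.1 h1.symm

theorem rel_sd (h : Irr t D) (hR : Rel t D B C N) (hB : toZ B = R * N) : Rel t D C B R := by
  refine ⟨hR.2.1, hR.1, ?_, detR_ne h hR hB, ?_⟩
  · rw [nr_eq hR hB, hB, Matrix.mul_assoc]
  · obtain ⟨κ, hκ, hκ'⟩ := hR.eq_rho h
    have k0 := hκ' 0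
    have k1 := hκ' 1
    have r0 := eig_rho h hR.1 0
    have e0 : (B 0 0 : ℝ) = (R 0 0 : ℝ) * N 0 0 + R 0 1 * N 1 0 := by
      have h1 := congrFun (congrFun hB 0) 0
      simp only [Matrix.mul_apply, Fin.sum_univ_two, toZ, Matrix.map_apply] at h1
      exact_mod_cast h1
    have e1 : (B 0 1 : ℝ) = (R 0 0 : ℝ) * N 0 1 + R 0 1 * N 1 1 := by
      have h1 := congrFun (congrFun hB 0) 1
      simp only [Matrix.mul_apply, Fin.sum_univ_two, toZ, Matrix.map_apply] at h1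
      exact_mod_cast h1
    have e : κ * ((R 0 0 : ℝ) * rho t D C 0 + (R 0 1 : ℝ) * rho t D C 1) = lam t D * rho t D B 0 := by
      rw [← r0, e0, e1]
      linear_combination (-(R 0 0 : ℝ)) * k0 - (R 0 1 : ℝ) * k1
    have hl : 0 < lam t D := lt_of_le_of_lt (Nat.cast_nonneg _) (hR.1.lam_lt h).1
    have hp : 0 < κ * ((R 0 0 : ℝ) * rho t D C 0 + (R 0 1 : ℝ) * rho t D C 1) := by
      rw [e]
      exact mul_pos hl (rho_pos h hR.1 0)
    exact (mul_pos_iff_of_pos_left hκ).1 hp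

theorem lnk_sd (h : Irr t D) (hR : Rel t D B C N) (hB : toZ B = R * N) (hL : Lnk C B (zQ R)) :
    Lnk B C (zQ N) := by
  have hd : (toQ B).det ≠ 0 := by
    rw [← zQ_toZ, zQ_det, toZ_det hR.1]
    exact_mod_cast h.1.1
  have h1 := Lnk.trans (Lnk.self hd) (Lnk.symm hL)
  have hu : IsUnit (zQ R).det := by
    rw [isUnit_iff_ne_zero, zQ_det]
    exact_mod_cast detR_ne h hR hB
  rw [← zQ_toZ, hB, zQ_mul, ← Matrix.mul_assoc, Matrix.nonsing_inv_mul _ hu, Matrix.one_mul] at h1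
  exact h1

private theorem dg_dg {α : Type} (M : Matrix (Fin 2) (Fin 2) α) : dg (dg M) = M := by
  ext i j
  fin_cases i <;> fin_cases j <;> simp [dg]

theorem dg_mul (M M' : Matrix (Fin 2) (Fin 2) ℤ) : dg (M * M') = dg M' * dg M := by
  ext i j
  fin_cases i <;> fin_cases j <;> simp [dg, Matrix.mul_apply, Fin.sum_univ_two] <;> ring

private theorem dg_toZ (M : Matrix (Fin 2) (Fin 2) ℕ) : toZ (dg M) = dg (toZ M) := by
  ext i j
  fin_cases i <;> fin_cases j <;> simp [dg, toZ]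

private theorem dg_cls (hB : Cls t D B) : Cls t D (dg B) := by
  obtain ⟨h1, h2⟩ := hB
  constructor
  · show B 1 1 + B 0 0 = t
    omega
  · show (B 1 1 : ℤ) * B 0 0 = B 0 1 * B 1 0 + D
    linarith

private theorem dg_det (M : Matrix (Fin 2) (Fin 2) ℤ) : (dg M).det = M.det := by
  rw [Matrix.det_fin_two, Matrix.det_fin_two]
  show M 1 1 * M 0 0 - M 0 1 * M 1 0 = _
  ring

private theorem dg_one : dg (1 : Matrix (Fin 2) (Fin 2) ℤ) = 1 := by
  ext i j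
  fin_cases i <;> fin_cases j <;> simp [dg]

theorem rel_dg (h : Irr t D) (hR : Rel t D B C N) : Rel t D (dg C) (dg B) (dg N) := by
  refine ⟨dg_cls hR.2.1, dg_cls hR.1, ?_, ?_, ?_⟩
  · rw [dg_toZ, dg_toZ, ← dg_mul, ← dg_mul, hR.2.2.1]
  · rw [dg_det]
    exact hR.2.2.2.1
  · obtain ⟨κ, hκ, hκ'⟩ := hR.eq_tau h
    have k1 := hκ' 1
    obtain ⟨a1, a2, a3⟩ := hR.2.1.lam_lt h
    have hC01 : (0 : ℝ) < C 0 1 := by
      have := (hR.2.1.entries h).1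
      exact_mod_cast this
    have ht := tau_pos h hR.1 1
    show 0 < (N 1 1 : ℝ) * (C 0 1 : ℝ) + (N 0 1 : ℝ) * (lam t D - (C 1 1 : ℝ))
    have t0 : tau t D C 0 = (C 1 0 : ℝ) := rfl
    have t1 : tau t D C 1 = lam t D - (C 0 0 : ℝ) := rfl
    rw [t0, t1] at k1
    have e : (lam t D - (C 0 0 : ℝ)) * ((N 1 1 : ℝ) * (C 0 1 : ℝ) + (N 0 1 : ℝ) * (lam t D - (C 1 1 : ℝ)))
        = (C 0 1 : ℝ) * (κ * tau t D B 1) := by
      rw [← k1]
      linear_combination (N 0 1 : ℝ) * a3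
    have hp : 0 < (lam t D - (C 0 0 : ℝ)) *
        ((N 1 1 : ℝ) * (C 0 1 : ℝ) + (N 0 1 : ℝ) * (lam t D - (C 1 1 : ℝ))) := by
      rw [e]
      exact mul_pos hC01 (mul_pos hκ ht)
    exact (mul_pos_iff_of_pos_left (by linarith)).1 hp

private theorem chain_esse_tr {k l : ℕ} {B : Matrix (Fin k) (Fin k) ℕ} {C : Matrix (Fin l) (Fin l) ℕ}
    {R : Matrix (Fin k) (Fin l) ℕ} {S : Matrix (Fin l) (Fin k) ℕ} (h1 : B = R * S) (h2 : C = S * R) :
    ESSE Cᵀ Bᵀ Rᵀ Sᵀ := by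
  constructor
  · rw [h2, Matrix.transpose_mul]
  · rw [h1, Matrix.transpose_mul]

private theorem chain_tr {n k : ℕ} {A : Matrix (Fin n) (Fin n) ℕ} {A' : Matrix (Fin k) (Fin k) ℕ}
    {W : Matrix (Fin n) (Fin k) ℕ} (hc : Chain A A' W) : Chain A'ᵀ Aᵀ Wᵀ := by
  induction hc with
  | refl =>
    rw [Matrix.transpose_one]
    exact Chain.refl
  | step _ hs ih =>
    obtain ⟨h1, h2⟩ := hs
    rw [Matrix.transpose_mul]
    refine Chain.trans (Chain.single (chain_esse_tr h1 h2)) ih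

private theorem toQ_tr (M : Matrix (Fin 2) (Fin 2) ℕ) : toQ Mᵀ = (toQ M)ᵀ := rfl

private theorem lnk_tr {X : Matrix (Fin 2) (Fin 2) ℚ} (hL : Lnk B C X) : Lnk Cᵀ Bᵀ Xᵀ := by
  obtain ⟨h1, h2, W, k, h3, h4⟩ := hL
  have hu : IsUnit X.det := isUnit_iff_ne_zero.2 h1
  have h5 : X * toQ W = toQ C ^ k := by
    calc X * toQ W = X * (toQ W * X) * X⁻¹ := by
          rw [← Matrix.mul_assoc, Matrix.mul_assoc _ X, Matrix.mul_nonsing_inv _ hu, Matrix.mul_one]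
      _ = toQ C ^ k * X * X⁻¹ := by rw [h4, lnk_pow h2 k]
      _ = toQ C ^ k := by rw [Matrix.mul_assoc, Matrix.mul_nonsing_inv _ hu, Matrix.mul_one]
  refine ⟨?_, ?_, Wᵀ, k, chain_tr h3, ?_⟩
  · rw [Matrix.det_transpose]
    exact h1
  · rw [toQ_tr, toQ_tr, ← Matrix.transpose_mul, ← Matrix.transpose_mul, h2]
  · rw [toQ_tr, toQ_tr, ← Matrix.transpose_mul, h5, Matrix.transpose_pow]

theorem lnk_dg (hL : Lnk (dg C) (dg B) (zQ (dg N))) : Lnk B C (zQ N) := by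
  have h1 := lnk_tr hL
  have hB : B = !![B 0 0, B 0 1; B 1 0, B 1 1] := Matrix.eta_fin_two B
  have hC : C = !![C 0 0, C 0 1; C 1 0, C 1 1] := Matrix.eta_fin_two C
  have h2 : Lnk B (dg B)ᵀ !![0, 1; 1, 0] := by
    have h3 := Lnk.swap (B 0 0) (B 0 1) (B 1 0) (B 1 1)
    rw [← hB] at h3
    have e : (dg B)ᵀ = !![B 1 1, B 1 0; B 0 1, B 0 0] := by
      ext i j
      fin_cases i <;> fin_cases j <;> simp [dg]
    rw [e]
    exact h3
  have h4 : Lnk (dg C)ᵀ C !![0, 1; 1, 0] := by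
    have h3 := Lnk.swap (C 1 1) (C 1 0) (C 0 1) (C 0 0)
    rw [← hC] at h3
    have e : (dg C)ᵀ = !![C 1 1, C 1 0; C 0 1, C 0 0] := by
      ext i j
      fin_cases i <;> fin_cases j <;> simp [dg]
    rw [e]
    exact h3
  have h5 := (h2.trans h1).trans h4
  have e : (!![0, 1; 1, 0] * ((zQ (dg N))ᵀ * !![0, 1; 1, 0]) : Matrix (Fin 2) (Fin 2) ℚ) = zQ N := by
    ext i j
    fin_cases i <;> fin_cases j <;> simp [Matrix.mul_apply, Fin.sum_univ_two, zQ, dg]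
  rwa [e] at h5

theorem minAt_dg (h : Irr t D) {k : ℕ} (hm : MinAt t D k B) : MinAt t D k (dg B) := by
  intro B' E E' hE hEE
  have h1 := rel_dg h hE
  rw [dg_dg] at h1
  have hEE' : E' * E = 1 := mul_eq_one_comm.mp hEE
  have h2 : dg E * dg E' = 1 := by rw [← dg_mul, hEE', dg_one]
  have h3 : dg E' * dg E = 1 := by rw [← dg_mul, hEE, dg_one]
  exact hm (dg B') (dg E') (dg E) (Rel.inv h h1 h2) h3

theorem minAt_rel (h : Irr t D) {k : ℕ} {E E' : Matrix (Fin 2) (Fin 2) ℤ} (hm : MinAt t D k B)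
    (hE : Rel t D B C E) (hEE : E * E' = 1) : MinAt t D k C := by
  intro B' F F' hF hFF
  refine hm B' (F * E) (E' * F') (Rel.trans h hE hF) ?_
  rw [Matrix.mul_assoc, ← Matrix.mul_assoc E, hEE, Matrix.one_mul, hFF]

end Pool.Agent.DimRep.TN
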