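import Pool.Agent.Lib.MP_5f1e54_an.TN.GP
import Pool.Agent.Lib.MP_5f1e54_an.TN.Dual

/-!
# TN-LC: links from inequalities between the coordinates

`C = N R` by `nr_eq`. Signs from `Fr`: `N00, N11, R00, R11 ≥ 0` always; `N01 ≥ 0` iff `Y ≤ X`; `N10 ≥ 0` iff `a Y d ≤ b X c`; `R01 ≥ 0` iff
`m X ≤ l Y`; `R10 ≥ 0` iff `m b X c ≤ l a Y d` (multiply by `a + b > 0` resp. `X Y (c + d) > 0`; integers cast to the reals).
`(B R)01 = B00 R01 + B01 R11`: `X Y (c+d) (B R)01 = l² Y - m² X` (use `B00 = l - B01 a`, `B01 (a + b) = l - m`);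
`(B R)10 = B10 R00 + B11 R10`: `X Y (c+d) (B R)10 = l² a Y d - m² b X c`; `(C N)10 = (N B)10 = N10 B00 + N11 B10`:
`(a+b) (C N)10 = l b X c - m a Y d`.
`link1`: `N01, R01 ≥ 0`. `N10 < 0` and `R10 < 0` together are impossible (`m < l`).
(D) `N10, R10 ≥ 0`: `R`, `N` are over the naturals: `Lnk.esse` (end of `TB2/Direct.lean`).
(S) `N10 ≥ 0`, `R10 < 0`: exchange the two basis vectors of both lattices: `M ↦ P M P`, `P = !![0, 1; 1, 0]`, `!![M11, M10; M01, M00]`: `gp` for the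
exchanged matrices with the first alternative `(B R)10 ≥ 0`; back with `Lnk.swap` (twice) and `Lnk.trans`.
(T) `R10 ≥ 0`, `N10 < 0`: `lnk_sd` and then (S) for `(C, B, R, N)`: `gp` with the roles `N := R`, `R := N`, `(C N)10 ≥ 0`, `det R > 0`
(`R.det * N.det = D`... or from `Fr`: `R00 R11 - R01 R10`; simply: all entries of `R` are `≥ 0` here and `det R det N = det B`; `det B = l m > 0`).
`link2`: `N ≥ 0`, `R10 ≥ 0`; `R01 ≥ 0`: (D); `R01 < 0`: `gp` with the first alternative.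
-/

open Matrix

namespace Pool.Agent.DimRep.TN

open Pool.Agent.DimRep.TB2

variable {t : ℕ} {D : ℤ} {B C : Matrix (Fin 2) (Fin 2) ℕ} {N R : Matrix (Fin 2) (Fin 2) ℤ}
  {a b c d X Y : ℝ}

private theorem LC_toZ {M : Matrix (Fin 2) (Fin 2) ℤ} (h : ∀ i j, 0 ≤ M i j) :
    toZ (M.map Int.toNat) = M := by
  ext i j
  simp only [toZ, Matrix.map_apply]
  exact Int.toNat_of_nonneg (h i j)

private theorem LC_toZ_inj {M M' : Matrix (Fin 2) (Fin 2) ℕ} (h : toZ M = toZ M') : M = M' := by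
  ext i j
  have := congrFun (congrFun h i) j
  simp only [toZ, Matrix.map_apply] at this
  exact_mod_cast this

private theorem LC_toZ_mul (M M' : Matrix (Fin 2) (Fin 2) ℕ) : toZ (M * M') = toZ M * toZ M' := by
  ext i j
  simp [toZ, Matrix.mul_apply, Matrix.map_apply]

private theorem LC_esse (hB : toZ B = R * N) (hC : toZ C = N * R) (hdet : 0 < N.det)
    (hN : ∀ i j, 0 ≤ N i j) (hR : ∀ i j, 0 ≤ R i j) : Lnk B C (zQ N) := by
  have e1 : B = R.map Int.toNat * N.map Int.toNat := by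
    apply LC_toZ_inj
    rw [LC_toZ_mul, LC_toZ hR, LC_toZ hN]
    exact hB
  have e2 : C = N.map Int.toNat * R.map Int.toNat := by
    apply LC_toZ_inj
    rw [LC_toZ_mul, LC_toZ hR, LC_toZ hN]
    exact hC
  have hq : toQ (N.map Int.toNat) = zQ N := by
    rw [← zQ_toZ, LC_toZ hN]
  have := Lnk.esse e1 e2 (by
    rw [hq, Matrix.det_fin_two]
    simp only [zQ, Matrix.map_apply]
    rw [Matrix.det_fin_two] at hdet
    intro hcon
    have h5 : ((N 0 0 * N 1 1 - N 0 1 * N 1 0 : ℤ) : ℚ) = 0 := by push_cast; exact hcon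
    have h6 : N 0 0 * N 1 1 - N 0 1 * N 1 0 = 0 := by exact_mod_cast h5
    omega)
  rwa [hq] at this

/-- the case (S) -/
private theorem LC_swap (hB : toZ B = R * N) (hC : toZ C = N * R) (hdet : 0 < N.det)
    (hN : ∀ i j, 0 ≤ N i j) (h00 : 0 ≤ R 0 0) (h01 : 0 ≤ R 0 1) (h10 : R 1 0 < 0) (h11 : 0 ≤ R 1 1)
    (h : 0 ≤ (toZ B * R) 1 0) : Lnk B C (zQ N) := by
  set B' : Matrix (Fin 2) (Fin 2) ℕ := !![B 1 1, B 1 0; B 0 1, B 0 0] with hB'
  set C' : Matrix (Fin 2) (Fin 2) ℕ := !![C 1 1, C 1 0; C 0 1, C 0 0] with hC'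
  set N' : Matrix (Fin 2) (Fin 2) ℤ := !![N 1 1, N 1 0; N 0 1, N 0 0] with hN'
  set R' : Matrix (Fin 2) (Fin 2) ℤ := !![R 1 1, R 1 0; R 0 1, R 0 0] with hR'
  have entB : ∀ i j, (B i j : ℤ) = R i 0 * N 0 j + R i 1 * N 1 j := by
    intro i j
    have := congrFun (congrFun hB i) j
    rw [Matrix.mul_apply, Fin.sum_univ_two] at this
    exact this
  have entC : ∀ i j, (C i j : ℤ) = N i 0 * R 0 j + N i 1 * R 1 j := by
    intro i j
    have := congrFun (congrFun hC i) j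
    rw [Matrix.mul_apply, Fin.sum_univ_two] at this
    exact this
  have k1 : toZ B' = R' * N' := by
    ext i j
    fin_cases i <;> fin_cases j <;>
      simp [hB', hR', hN', toZ, Matrix.mul_apply, Fin.sum_univ_two, entB] <;> ring
  have k2 : toZ C' = N' * R' := by
    ext i j
    fin_cases i <;> fin_cases j <;>
      simp [hC', hR', hN', toZ, Matrix.mul_apply, Fin.sum_univ_two, entC] <;> ring
  have k3 : 0 < N'.det := by
    rw [Matrix.det_fin_two] at hdet ⊢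
    simp only [hN', Matrix.of_apply, Matrix.cons_val', Matrix.cons_val_zero, Matrix.cons_val_one,
      Matrix.cons_val_fin_one]
    linarith
  have k4 : ∀ i j, 0 ≤ N' i j := by
    intro i j
    fin_cases i <;> fin_cases j <;> simp [hN', hN]
  have k5 : 0 ≤ (toZ B' * R') 0 1 := by
    have e : (toZ B' * R') 0 1 = (toZ B * R) 1 0 := by
      simp [hB', hR', toZ, Matrix.mul_apply, Fin.sum_univ_two]
      ring
    rw [e]
    exact h
  have key := gp k1 k2 k3 k4 (by simpa [hR'] using h11) (by simpa [hR'] using h10)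
    (by simpa [hR'] using h01) (by simpa [hR'] using h00) (Or.inl k5)
  have s1 := Lnk.swap (B 0 0) (B 0 1) (B 1 0) (B 1 1)
  have s2 := Lnk.swap (C 1 1) (C 1 0) (C 0 1) (C 0 0)
  have eB : (!![B 0 0, B 0 1; B 1 0, B 1 1] : Matrix (Fin 2) (Fin 2) ℕ) = B :=
    (Matrix.eta_fin_two B).symm
  have eC : (!![C 0 0, C 0 1; C 1 0, C 1 1] : Matrix (Fin 2) (Fin 2) ℕ) = C :=
    (Matrix.eta_fin_two C).symm
  rw [eB] at s1
  rw [eC] at s2
  have s3 := (s1.trans key).trans s2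
  have e3 : (!![0, 1; 1, 0] * (zQ N' * !![0, 1; 1, 0]) : Matrix (Fin 2) (Fin 2) ℚ) = zQ N := by
    ext i j
    fin_cases i <;> fin_cases j <;> simp [hN', zQ, Matrix.mul_apply, Fin.sum_univ_two]
  rw [e3] at s3
  exact s3

private theorem LC_nn {k w : ℝ} {z : ℤ} (hk : 0 < k) (h : k * (z : ℝ) = w) (hw : 0 ≤ w) : 0 ≤ z := by
  have h1 : (0 : ℝ) ≤ (z : ℝ) := by
    by_contra hc
    rw [not_le] at hc
    have := mul_neg_of_pos_of_neg hk hc
    linarith
  exact_mod_cast h1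

private theorem LC_neg {k w : ℝ} {z : ℤ} (hk : 0 < k) (h : k * (z : ℝ) = w) (hz : z < 0) : w < 0 := by
  have h1 : (z : ℝ) < 0 := by exact_mod_cast hz
  rw [← h]
  exact mul_neg_of_pos_of_neg hk h1

private theorem LC_mat (M : Matrix (Fin 2) (Fin 2) ℤ) (h00 : 0 ≤ M 0 0) (h01 : 0 ≤ M 0 1)
    (h10 : 0 ≤ M 1 0) (h11 : 0 ≤ M 1 1) : ∀ i j, 0 ≤ M i j := by
  intro i j
  fin_cases i <;> fin_cases j <;> assumption

private theorem LC_mul_apply (M : Matrix (Fin 2) (Fin 2) ℕ) (M' : Matrix (Fin 2) (Fin 2) ℤ)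
    (i j : Fin 2) : (((toZ M * M') i j : ℤ) : ℝ) = (M i 0 : ℝ) * (M' 0 j : ℝ) + (M i 1 : ℝ) * (M' 1 j : ℝ) := by
  rw [Matrix.mul_apply, Fin.sum_univ_two]
  simp [toZ]

/-- the facts on the signs -/
private theorem LC_facts {l m : ℝ} (F : Fr l m B C N R a b c d X Y) :
    0 < a + b ∧ 0 < X * Y * (c + d) ∧ 0 ≤ N 0 0 ∧ 0 ≤ N 1 1 ∧ 0 ≤ R 0 0 ∧ 0 ≤ R 1 1 := by
  have ha := F.a_pos
  have hb := F.b_pos
  have hc := F.c_pos
  have hd := F.d_pos
  have hX := F.X_pos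
  have hY := F.Y_pos
  have hm := F.m_pos
  have hl : 0 < l := F.m_pos.trans F.m_lt
  have h1 : 0 < a + b := by positivity
  have h2 : 0 < X * Y * (c + d) := by positivity
  exact ⟨h1, h2, LC_nn h1 F.N00 (by positivity), LC_nn h1 F.N11 (by positivity),
    LC_nn h2 F.R00 (by positivity), LC_nn h2 F.R11 (by positivity)⟩

private theorem LC_BR10 {l m : ℝ} (F : Fr l m B C N R a b c d X Y) :
    X * Y * (c + d) * (((toZ B * R) 1 0 : ℤ) : ℝ) = l ^ 2 * (a * (Y * d)) - m ^ 2 * (b * (X * c)) := by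
  rw [LC_mul_apply]
  have e : X * Y * (c + d) * ((B 1 0 : ℝ) * (R 0 0 : ℝ) + (B 1 1 : ℝ) * (R 1 0 : ℝ)) =
      (B 1 0 : ℝ) * (X * Y * (c + d) * R 0 0) + (B 1 1 : ℝ) * (X * Y * (c + d) * R 1 0) := by ring
  rw [e, F.R00, F.R10, F.B10, F.B11]
  linear_combination (l * (a * (Y * d))) * F.B01

private theorem LC_BR01 {l m : ℝ} (F : Fr l m B C N R a b c d X Y) :
    X * Y * (c + d) * (((toZ B * R) 0 1 : ℤ) : ℝ) = l ^ 2 * Y - m ^ 2 * X := by
  rw [LC_mul_apply]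
  have e : X * Y * (c + d) * ((B 0 0 : ℝ) * (R 0 1 : ℝ) + (B 0 1 : ℝ) * (R 1 1 : ℝ)) =
      (B 0 0 : ℝ) * (X * Y * (c + d) * R 0 1) + (B 0 1 : ℝ) * (X * Y * (c + d) * R 1 1) := by ring
  rw [e, F.R01, F.R11, F.B00]
  linear_combination (m * X) * F.B01

private theorem LC_NB10 {l m : ℝ} (F : Fr l m B C N R a b c d X Y) :
    (a + b) * ((N 1 0 : ℝ) * (B 0 0 : ℝ) + (N 1 1 : ℝ) * (B 1 0 : ℝ)) =
      l * (b * (X * c)) - m * (a * (Y * d)) := by
  have e : (a + b) * ((N 1 0 : ℝ) * (B 0 0 : ℝ) + (N 1 1 : ℝ) * (B 1 0 : ℝ)) =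
      (B 0 0 : ℝ) * ((a + b) * N 1 0) + (B 1 0 : ℝ) * ((a + b) * N 1 1) := by ring
  rw [e, F.N10, F.N11, F.B00, F.B10]
  linear_combination (a * (Y * d)) * F.B01

private theorem LC_det {l m : ℝ} (F : Fr l m B C N R a b c d X Y) (hB : toZ B = R * N)
    (hdet : 0 < N.det) : 0 < R.det := by
  have h1 : R.det * N.det = (toZ B).det := by rw [hB, Matrix.det_mul]
  have h2 : (((toZ B).det : ℤ) : ℝ) = l * m := by
    rw [Matrix.det_fin_two]
    have e : ((toZ B 0 0 * toZ B 1 1 - toZ B 0 1 * toZ B 1 0 : ℤ) : ℝ) =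
        (B 0 0 : ℝ) * (B 1 1 : ℝ) - (B 0 1 : ℝ) * (B 1 0 : ℝ) := by
      simp [toZ]
    rw [e, F.B00, F.B11, F.B10]
    linear_combination (-((B 0 1 : ℝ) * a)) * F.B01
  have h3 : 0 < (toZ B).det := by
    have : (0 : ℝ) < (((toZ B).det : ℤ) : ℝ) := by
      rw [h2]
      exact mul_pos (F.m_pos.trans F.m_lt) F.m_pos
    exact_mod_cast this
  rw [← h1] at h3
  exact pos_of_mul_pos_left h3 hdet.le

theorem link1 (h : Irr t D) (hR : Rel t D B C N) (hB : toZ B = R * N) (hdet : 0 < N.det)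
    (F : Fr (lam t D) (mu t D) B C N R a b c d X Y) (h1 : Y ≤ X) (h2 : mu t D * X ≤ lam t D * Y)
    (h3 : mu t D * (a * (Y * d)) ≤ lam t D * (b * (X * c)))
    (h4 : mu t D ^ 2 * (b * (X * c)) ≤ lam t D ^ 2 * (a * (Y * d))) : Lnk B C (zQ N) := by
  have hC : toZ C = N * R := nr_eq hR hB
  obtain ⟨hab, hcd, n00, n11, r00, r11⟩ := LC_facts F
  have n01 : 0 ≤ N 0 1 := LC_nn hab F.N01 (by linarith)
  have r01 : 0 ≤ R 0 1 := LC_nn hcd F.R01 (by linarith)
  rcases le_or_gt 0 (N 1 0) with n10 | n10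
  · rcases le_or_gt 0 (R 1 0) with r10 | r10
    · exact LC_esse hB hC hdet (LC_mat N n00 n01 n10 n11) (LC_mat R r00 r01 r10 r11)
    · exact LC_swap hB hC hdet (LC_mat N n00 n01 n10 n11) r00 r01 r10 r11
        (LC_nn hcd (LC_BR10 F) (by linarith))
  · rcases le_or_gt 0 (R 1 0) with r10 | r10
    · refine lnk_sd h hR hB ?_
      refine LC_swap hC hB (LC_det F hB hdet) (LC_mat R r00 r01 r10 r11) n00 n01 n10 n11 ?_
      have e : toZ C * N = N * toZ B := hR.2.2.1.symm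
      rw [e]
      refine LC_nn hab ?_ (show 0 ≤ lam t D * (b * (X * c)) - mu t D * (a * (Y * d)) by linarith)
      rw [← LC_NB10 F, Matrix.mul_apply, Fin.sum_univ_two]
      simp [toZ]
    · exfalso
      have k1 := LC_neg hab F.N10 n10
      have k2 := LC_neg hcd F.R10 r10
      have k3 : 0 < b * (X * c) := mul_pos F.b_pos (mul_pos F.X_pos F.c_pos)
      have k4 := mul_lt_mul_of_pos_right F.m_lt k3
      have k5 : 0 < lam t D := F.m_pos.trans F.m_lt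
      have k6 : lam t D * (b * (X * c)) < lam t D * (a * (Y * d)) :=
        mul_lt_mul_of_pos_left (by linarith) k5
      linarith

theorem link2 (h : Irr t D) (hR : Rel t D B C N) (hB : toZ B = R * N) (hdet : 0 < N.det)
    (F : Fr (lam t D) (mu t D) B C N R a b c d X Y) (h1 : Y ≤ X) (h2 : mu t D ^ 2 * X ≤ lam t D ^ 2 * Y)
    (h3 : a * (Y * d) ≤ b * (X * c)) (h4 : mu t D * (b * (X * c)) ≤ lam t D * (a * (Y * d))) :
    Lnk B C (zQ N) := by
  have hC : toZ C = N * R := nr_eq hR hB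
  obtain ⟨hab, hcd, n00, n11, r00, r11⟩ := LC_facts F
  have n01 : 0 ≤ N 0 1 := LC_nn hab F.N01 (by linarith)
  have n10 : 0 ≤ N 1 0 := LC_nn hab F.N10 (by linarith)
  have r10 : 0 ≤ R 1 0 := LC_nn hcd F.R10 (by linarith)
  rcases le_or_gt 0 (R 0 1) with r01 | r01
  · exact LC_esse hB hC hdet (LC_mat N n00 n01 n10 n11) (LC_mat R r00 r01 r10 r11)
  · exact gp hB hC hdet (LC_mat N n00 n01 n10 n11) r00 r01 r10 r11
      (Or.inl (LC_nn hcd (LC_BR01 F) (by linarith)))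

end Pool.Agent.DimRep.TN
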