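import Mathlib

/-!
# TN-Real1: inequalities for case I

`r ≥ 6` (from `r² - 7 r + 1 ≥ 0`, `r > 1`: even `r > 34/5`). `k := K - 1 ≥ 1`. `s0 = σ d / c`.
`win`: if `1 / (r k) ≤ s ≤ k (r - 1)` then `(1 + s/r)(1 + r² s) ≤ K (r² s - s / r)`: divide by `s`: `1/s + 1/r + r² + r s ≤ K (r² - 1/r)`; convex in `s`;
at `s = k (r - 1)`: `1/(k(r-1)) + (k+2)/r ≤ k r`; at `s = 1/(r k)`: `r k + 1/k + (k+2)/r ≤ k r²`. (Directly: `(s - 1/(r k))(k (r-1) - s) ≥ 0` times `r`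
gives `r s² ≤ r s (k (r-1) + 1/(r k)) - (r - 1)/...`; use it to bound the quadratic `r s²`.)
`c + d ≤ K c d` and `c < 1` give `1/d ≤ K - 1/c < K - 1`, so `d k > 1`; `s0 = σ d / c > σ d ≥ 1/(r k)`.
If `s0 ≤ k (r - 1)`: `win` for `s0`. Otherwise `1/c ≤ K - 1/d`: `s0 ≤ d/c ≤ K d - 1`, so `K d > k (r - 1) + 1`, `d - 1 > k (r - 2)/K ≥ (r-2)/2 > 0`;
`s' = σ (d - 1)/(1 + c) ≤ d - 1 ≤ K - 1 = k ≤ k (r - 1)` (`d < K`), and `s' ≥ (1/r) k (r-2)/(2 K) ≥ 1/(r k)` as `k² (r - 2) ≥ 2 (k + 1)` (`r ≥ 6`, `k ≥ 1`).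
-/

namespace Pool.Agent.DimRep.TN

private theorem win {r K s : ℝ} (hr : 6 ≤ r) (hK : 2 ≤ K) (hs : 0 < s)
    (h1 : 1 ≤ r * (K - 1) * s) (h2 : s ≤ (K - 1) * (r - 1)) :
    (1 + s / r) * (1 + r ^ 2 * s) ≤ K * (r ^ 2 * s - s / r) := by
  obtain ⟨k, rfl⟩ : ∃ k, K = k + 1 := ⟨K - 1, by ring⟩
  have hk : 1 ≤ k := by linarith
  have hk0 : 0 < k := by linarith
  have hr0 : 0 < r := by linarith
  simp only [add_sub_cancel_right] at h1 h2
  have key : 0 ≤ (r * k * s - 1) * (k * (r - 1) - s) :=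
    mul_nonneg (by linarith) (by linarith)
  have hks : 0 < k * s := mul_pos hk0 hs
  -- k² s (r² - 1) ≥ 2 k s + r s
  have e1 : r + 2 ≤ r ^ 2 - 1 := by nlinarith
  have e2 : (k * s) * (r + 2) ≤ (k * s) * (r ^ 2 - 1) := mul_le_mul_of_nonneg_left e1 hks.le
  have e3 : (k * s) * (r ^ 2 - 1) ≤ k * ((k * s) * (r ^ 2 - 1)) := by
    have : 0 ≤ (k * s) * (r ^ 2 - 1) := mul_nonneg hks.le (by nlinarith)
    nlinarith
  have e4 : r * s ≤ r * (k * s) := by
    have : s ≤ k * s := by nlinarith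
    exact mul_le_mul_of_nonneg_left this hr0.le
  have e5 : 0 ≤ r * k * (r - 2) := mul_nonneg (mul_nonneg hr0.le hk0.le) (by linarith)
  have e6 : 0 ≤ r * ((r * k * s - 1) * (k * (r - 1) - s)) := mul_nonneg hr0.le key
  have hX : 0 ≤ k * (k * (r ^ 3 - 1) * s - r - 2 * s - r ^ 2 * s ^ 2) := by nlinarith
  have hX' : 0 ≤ k * (r ^ 3 - 1) * s - r - 2 * s - r ^ 2 * s ^ 2 := by
    by_contra hneg
    push Not at hneg
    have := mul_neg_of_pos_of_neg hk0 hneg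
    linarith
  have hsr : s / r * r = s := div_mul_cancel₀ s hr0.ne'
  have hfin : 0 ≤ r * ((k + 1) * (r ^ 2 * s - s / r) - (1 + s / r) * (1 + r ^ 2 * s)) := by
    have : r * ((k + 1) * (r ^ 2 * s - s / r) - (1 + s / r) * (1 + r ^ 2 * s)) =
        k * (r ^ 3 - 1) * s - r - 2 * s - r ^ 2 * s ^ 2 := by
      have h3 : r * ((k + 1) * (r ^ 2 * s - s / r) - (1 + s / r) * (1 + r ^ 2 * s)) =
          (k + 1) * (r ^ 3 * s - s / r * r) - (r + s / r * r) * (1 + r ^ 2 * s) := by ring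
      rw [h3, hsr]
      ring
    rw [this]
    exact hX'
  by_contra hneg
  push Not at hneg
  have := mul_neg_of_pos_of_neg hr0 (sub_neg.mpr hneg)
  linarith

theorem real1 {r K σ c d : ℝ} (hr1 : 1 < r) (hr : 0 ≤ r ^ 2 - 7 * r + 1) (hK : 2 ≤ K)
    (hσ : 1 ≤ r * σ) (hσ1 : σ ≤ 1) (hc : 0 < c) (hc1 : c < 1) (hd : 0 < d) (h1 : c + d ≤ K)
    (h2 : c + d ≤ K * (c * d)) :
    (∀ s, s = σ * d / c → 0 < s ∧ (1 + s / r) * (1 + r ^ 2 * s) ≤ K * (r ^ 2 * s - s / r)) ∨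
    (1 < d ∧ ∀ s, s = σ * (d - 1) / (c + 1) → 0 < s ∧ (1 + s / r) * (1 + r ^ 2 * s) ≤ K * (r ^ 2 * s - s / r)) := by
  have hr6 : 6 ≤ r := by
    by_contra h
    push Not at h
    nlinarith [mul_pos (sub_pos.mpr hr1) (sub_pos.mpr h)]
  have hr0 : 0 < r := by linarith
  have hσ0 : 0 < σ := by
    by_contra h
    push Not at h
    nlinarith [mul_nonneg hr0.le (neg_nonneg.mpr h)]
  have hcd : 0 < c * d := mul_pos hc hd
  -- d k > 1
  have hdk : 1 < (K - 1) * d := by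
    have hcc : c * d < d := by nlinarith
    have : c * 1 < c * ((K - 1) * d) := by nlinarith
    exact lt_of_mul_lt_mul_left this hc.le
  have hk1 : 1 ≤ K - 1 := by linarith
  by_cases hs : σ * d / c ≤ (K - 1) * (r - 1)
  · left
    rintro s rfl
    have hs0 : 0 < σ * d / c := div_pos (mul_pos hσ0 hd) hc
    refine ⟨hs0, win hr6 hK hs0 ?_ hs⟩
    have e1 : σ * d ≤ σ * d / c := by
      rw [le_div_iff₀ hc]
      nlinarith [mul_pos hσ0 hd]
    have e2 : 1 ≤ (r * σ) * ((K - 1) * d) := by nlinarith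
    have e3 : r * (K - 1) * (σ * d) ≤ r * (K - 1) * (σ * d / c) :=
      mul_le_mul_of_nonneg_left e1 (mul_nonneg hr0.le (by linarith))
    nlinarith
  · right
    push Not at hs
    have e1 : σ * d / c ≤ K * d - 1 := by
      rw [div_le_iff₀ hc]
      nlinarith [mul_nonneg (sub_nonneg.mpr hσ1) hd.le]
    have e2 : (K - 1) * (r - 2) < K * (d - 1) := by nlinarith
    have e3 : 0 < (K - 1) * (r - 2) := mul_pos (by linarith) (by linarith)
    have hd1 : 0 < d - 1 := by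
      by_contra h
      push Not at h
      nlinarith
    refine ⟨by linarith, ?_⟩
    rintro s rfl
    have hc2 : 0 < c + 1 := by linarith
    have hs0 : 0 < σ * (d - 1) / (c + 1) := div_pos (mul_pos hσ0 hd1) hc2
    refine ⟨hs0, win hr6 hK hs0 ?_ ?_⟩
    · -- lower bound
      have e4 : σ * (d - 1) / 2 ≤ σ * (d - 1) / (c + 1) :=
        div_le_div_of_nonneg_left (mul_pos hσ0 hd1).le hc2 (by linarith)
      have e5 : r * (K - 1) * (σ * (d - 1) / 2) ≤ r * (K - 1) * (σ * (d - 1) / (c + 1)) :=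
        mul_le_mul_of_nonneg_left e4 (mul_nonneg hr0.le (by linarith))
      have e6 : 2 ≤ (K - 1) * (d - 1) := by
        have h4 : (K - 1) * 4 ≤ (K - 1) * (r - 2) :=
          mul_le_mul_of_nonneg_left (by linarith) (by linarith)
        have h5 : (K - 1) * 4 < K * (d - 1) := by linarith
        -- K (K-1)(d-1) > 4 (K-1)^2 ≥ 2 K
        have h6 : K * 2 ≤ K * ((K - 1) * (d - 1)) := by nlinarith
        exact le_of_mul_le_mul_left h6 (by linarith)
      have e7 : (K - 1) * (d - 1) ≤ (r * σ) * ((K - 1) * (d - 1)) := by nlinarith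
      nlinarith
    · -- upper bound
      have e4 : σ * (d - 1) / (c + 1) ≤ d - 1 := by
        rw [div_le_iff₀ hc2]
        nlinarith [mul_nonneg (sub_nonneg.mpr hσ1) hd1.le, mul_nonneg hd1.le hc.le]
      nlinarith

end Pool.Agent.DimRep.TN
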