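import Pool.Agent.Lib.MP_5f1e54_an.TN.Defs

/-!
# TN-Shift: shifts of the second basis vector, and a number in an interval

`shiftB`: `E = !![1, 0; j, 1]`, `E' = !![1, 0; -j, 1]`: `rel_of` (`TB2/Cls.lean`), conditions `E rho B > 0` (`rho B = B01 (1, a)`: `a + j > 0`) and
`tau B E' > 0`: `tau B 0 - j tau B 1`, with `tau B = (B10, l - B00)`, `B10 = b (l - B00)` (`B01 B10 = (l - B00)(l - B11)`): `(b - j)(l - B00) > 0`.
`Eqv t D B C N B' C (N E')` with `F = F' = 1` (`Rel.refl`), see `mov_E` in `TB2/Mov.lean`. `B' = E B E'` (from `E B = B' E`): `B'01 = B01`,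
`B'00 = B00 - j B01`, `B'11 = B11 + j B01`.
`shiftC`: the same with `F = !![1, 0; j, 1]`, `F N`.
`exists_t`: `j = ⌈(a + b) / (1 + hi) - a⌉`: `a + j ∈ [(a+b)/(1+hi), (a+b)/(1+hi) + 1)` and `(a+b)/(1+hi) + 1 ≤ (a+b)/(1+lo)`; with
`T = a + j`: `b - j = (a + b) - T`; `T ≥ (a+b)/(1+hi)` gives `(a+b) - T ≤ hi T`, `T ≤ (a+b)/(1+lo)` gives `(a+b) - T ≥ lo T > 0`.
-/

open Matrix

namespace Pool.Agent.DimRep.TN

open Pool.Agent.DimRep.TB2

variable {t : ℕ} {D : ℤ} {B C : Matrix (Fin 2) (Fin 2) ℕ} {N R : Matrix (Fin 2) (Fin 2) ℤ}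

private theorem shift_core (h : Irr t D) (hB : Cls t D B) (j : ℤ) (h1 : 0 < al t D B + j)
    (h2 : 0 < be t D B - j) :
    ∃ B' : Matrix (Fin 2) (Fin 2) ℕ, Rel t D B B' !![1, 0; j, 1] ∧ B' 0 1 = B 0 1 ∧
      al t D B' = al t D B + j ∧ be t D B' = be t D B - j := by
  have hE : (!![1, 0; j, 1] : Matrix (Fin 2) (Fin 2) ℤ) * !![1, 0; -j, 1] = 1 := by
    ext i k; fin_cases i <;> fin_cases k <;> simp [Matrix.mul_apply]
  obtain ⟨e1, e2⟩ := hB.entries h
  obtain ⟨l1, l2, l3⟩ := hB.lam_lt h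
  have hb : (0 : ℝ) < B 0 1 := by exact_mod_cast e1
  have hal : al t D B * B 0 1 = lam t D - B 0 0 := by
    unfold al
    field_simp
  have hbe : be t D B * B 0 1 = lam t D - B 1 1 := by
    unfold be
    field_simp
  have hc : (B 1 0 : ℝ) = be t D B * (lam t D - B 0 0) := by
    have h5 : (B 0 1 : ℝ) * B 1 0 = B 0 1 * (be t D B * (lam t D - B 0 0)) := by
      rw [← l3, ← hbe]
      ring
    exact mul_left_cancel₀ hb.ne' h5
  obtain ⟨B', hB', hrel⟩ := rel_of h hB hE (by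
      intro i
      have r0 := rho_pos h hB 0
      fin_cases i
      · simpa using r0
      · have h5 : 0 < (al t D B + j) * B 0 1 := mul_pos h1 hb
        have h6 : (al t D B + j) * B 0 1 = j * rho t D B 0 + rho t D B 1 := by
          show _ = (j : ℝ) * (B 0 1 : ℝ) + (lam t D - B 0 0)
          rw [add_mul, hal]
          ring
        rw [h6] at h5
        simpa using h5) (by
      intro k
      have t1 := tau_pos h hB 1
      fin_cases k
      · have h5 : 0 < (be t D B - j) * (lam t D - B 0 0) := mul_pos h2 (by linarith)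
        have h6 : (be t D B - j) * (lam t D - B 0 0) = tau t D B 0 + -(tau t D B 1 * j) := by
          show _ = (B 1 0 : ℝ) + -((lam t D - B 0 0) * j)
          rw [hc]
          ring
        rw [h6] at h5
        simpa using h5
      · simpa using t1)
  have g : ∀ i k, (B' i k : ℤ) = ((!![1, 0; j, 1] : Matrix (Fin 2) (Fin 2) ℤ) * toZ B * !![1, 0; -j, 1]) i k := by
    intro i k
    rw [← hB']
    rfl
  have g01 : (B' 0 1 : ℤ) = B 0 1 := by
    rw [g]
    simp only [Matrix.mul_apply, Fin.sum_univ_two, toZ, Matrix.map_apply]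
    simp
  have g00 : (B' 0 0 : ℤ) = B 0 0 - j * B 0 1 := by
    rw [g]
    simp only [Matrix.mul_apply, Fin.sum_univ_two, toZ, Matrix.map_apply]
    simp
    ring
  have g11 : (B' 1 1 : ℤ) = B 1 1 + j * B 0 1 := by
    rw [g]
    simp only [Matrix.mul_apply, Fin.sum_univ_two, toZ, Matrix.map_apply]
    simp
    ring
  have k01 : (B' 0 1 : ℝ) = B 0 1 := by exact_mod_cast g01
  have k00 : (B' 0 0 : ℝ) = B 0 0 - j * B 0 1 := by exact_mod_cast g00
  have k11 : (B' 1 1 : ℝ) = B 1 1 + j * B 0 1 := by exact_mod_cast g11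
  refine ⟨B', hrel, by exact_mod_cast g01, ?_, ?_⟩
  · unfold al
    rw [k01, k00]
    field_simp
    ring
  · unfold be
    rw [k01, k11]
    field_simp
    ring

theorem shiftB (h : Irr t D) (hR : Rel t D B C N) (j : ℤ) (h1 : 0 < al t D B + j) (h2 : 0 < be t D B - j) :
    ∃ B' : Matrix (Fin 2) (Fin 2) ℕ,
      Eqv t D B C N B' C !![N 0 0 - j * N 0 1, N 0 1; N 1 0 - j * N 1 1, N 1 1] ∧ B' 0 1 = B 0 1 ∧
      al t D B' = al t D B + j ∧ be t D B' = be t D B - j := by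
  obtain ⟨B', hB', g1, g2, g3⟩ := shift_core h hR.1 j h1 h2
  refine ⟨B', ⟨!![1, 0; j, 1], !![1, 0; -j, 1], 1, 1, hB', ?_, Rel.refl h hR.2.1, by simp, ?_⟩, g1, g2, g3⟩
  · ext i k; fin_cases i <;> fin_cases k <;> simp [Matrix.mul_apply]
  · rw [Matrix.one_mul]
    ext i k; fin_cases i <;> fin_cases k <;> simp [Matrix.mul_apply, Fin.sum_univ_two] <;> ring

theorem shiftC (h : Irr t D) (hR : Rel t D B C N) (j : ℤ) (h1 : 0 < al t D C + j) (h2 : 0 < be t D C - j) :
    ∃ C' : Matrix (Fin 2) (Fin 2) ℕ,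
      Eqv t D B C N B C' !![N 0 0, N 0 1; N 1 0 + j * N 0 0, N 1 1 + j * N 0 1] ∧ C' 0 1 = C 0 1 ∧
      al t D C' = al t D C + j ∧ be t D C' = be t D C - j := by
  obtain ⟨C', hC', g1, g2, g3⟩ := shift_core h hR.2.1 j h1 h2
  refine ⟨C', ⟨1, 1, !![1, 0; j, 1], !![1, 0; -j, 1], Rel.refl h hR.1, by simp, hC', ?_, ?_⟩, g1, g2, g3⟩
  · ext i k; fin_cases i <;> fin_cases k <;> simp [Matrix.mul_apply]
  · rw [Matrix.mul_one]
    ext i k; fin_cases i <;> fin_cases k <;> simp [Matrix.mul_apply, Fin.sum_univ_two] <;> ring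

theorem exists_t {a b lo hi : ℝ} (ha : 0 < a) (hb : 0 < b) (hlo : 0 < lo) (hlh : lo < hi)
    (hlen : (1 + lo) * (1 + hi) ≤ (a + b) * (hi - lo)) :
    ∃ j : ℤ, 0 < a + j ∧ 0 < b - j ∧ lo * (a + j) ≤ b - j ∧ b - j ≤ hi * (a + j) := by
  have hhi : 0 < 1 + hi := by linarith
  set q := (a + b) / (1 + hi) with hq
  have hqe : q * (1 + hi) = a + b := by
    rw [hq]
    field_simp
  have hq0 : 0 < q := by
    rw [hq]
    positivity
  have c1 := Int.le_ceil (q - a)
  have c2 := Int.ceil_lt_add_one (q - a)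
  set j := ⌈q - a⌉ with hj
  have hT0 : 0 < a + j := by linarith
  have hk : 1 + lo ≤ q * (hi - lo) := by
    have h1 : (1 + lo) * (1 + hi) ≤ q * (hi - lo) * (1 + hi) := by
      calc (1 + lo) * (1 + hi) ≤ (a + b) * (hi - lo) := hlen
        _ = q * (hi - lo) * (1 + hi) := by rw [← hqe]; ring
    exact le_of_mul_le_mul_right h1 hhi
  have hlow : lo * (a + j) ≤ b - j := by
    have h1 : (1 + lo) * (a + j) ≤ (1 + lo) * (q + 1) :=
      mul_le_mul_of_nonneg_left (by linarith) (by linarith)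
    nlinarith
  have hup : b - j ≤ hi * (a + j) := by
    have h1 : (1 + hi) * q ≤ (1 + hi) * (a + j) :=
      mul_le_mul_of_nonneg_left (by linarith) hhi.le
    nlinarith
  exact ⟨j, hT0, lt_of_lt_of_le (mul_pos hlo hT0) hlow, hlow, hup⟩

end Pool.Agent.DimRep.TN
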