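import Pool.Agent.Lib.MP_5f1e54_an.TN.Coord
import Pool.Agent.Lib.MP_5f1e54_an.TN.Shift
import Pool.Agent.Lib.MP_5f1e54_an.TN.LC
import Pool.Agent.Lib.MP_5f1e54_an.TN.Real1

/-!
# TN-CaseI: a left vector of `L'` with slope in `[1/r, 1]`

`F := fr_of`; `l = lam`, `m = mu`, `r = l / m`, `K = a + b`, `σ = Y / X`. `r² - 7 r + 1 ≥ 0` from `9 D ≤ t²` (`l + m = t`, `l m = D`).
`c + d ≤ K`: `(a+b) B01 = l - m = (c+d) C01`, `B01 ≤ C01`. `c + d ≤ K c d`: `B01 ≤ C10 = C01 c d`. `K ≥ 2`: `B01 ≤ B10 = B01 a b`, so `a b ≥ 1`.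
`σ ≤ 1`: `N01 ≥ 0`. `r σ ≥ 1`: `R01 ≥ 0`.
`aux`: for a triple (any `C`) with `Y ≤ X`, `m X ≤ l Y`, `s = Y d / (X c)`, `(1 + s/r)(1 + r² s) ≤ K (r² s - s/r)`: `exists_t` with `lo = s/r`, `hi = r² s`:
`j`; `shiftB`: `(B', C, N')`, `X`, `Y` do not change (`N'00 + N'01 (a + j) = X`), `R'` by `Eqv.div`, `N'.det = N.det` (compute); `fr_of` for it; `link1`:
`h3`: `lo (a+j) ≤ b - j`, `h4`: `b - j ≤ hi (a + j)`; `Eqv.lnk`.
Main: `real1`; in the second case first `shiftC` with `j = 1` (`X`, `Y` and `B` do not change, `c + 1`, `d - 1`), `N'.det = N.det`, then `aux`.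
-/

open Matrix

namespace Pool.Agent.DimRep.TN

open Pool.Agent.DimRep.TB2

variable {t : ℕ} {D : ℤ} {B C : Matrix (Fin 2) (Fin 2) ℕ} {N R : Matrix (Fin 2) (Fin 2) ℤ}

/-- the shift of the second basis vector of the big lattice -/
private theorem caseI_aux (h : Irr t D) (hmu : 0 < mu t D) (hR : Rel t D B C N)
    (hB : ∃ R : Matrix (Fin 2) (Fin 2) ℤ, toZ B = R * N) (hdet : 0 < N.det) {r a b c d X Y : ℝ}
    (hr : r = lam t D / mu t D) (ha : a = al t D B) (hb : b = be t D B) (hc : c = al t D C)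
    (hd : d = be t D C) (hX : X = N 0 0 + N 0 1 * a) (hY : Y = N 0 0 - N 0 1 * b) (hYX : Y ≤ X)
    (hXY : mu t D * X ≤ lam t D * Y) {s : ℝ} (hsd : s = Y * d / (X * c))
    (hs : (1 + s / r) * (1 + r ^ 2 * s) ≤ (a + b) * (r ^ 2 * s - s / r)) : Lnk B C (zQ N) := by
  obtain ⟨R, hBR⟩ := hB
  have F := fr_of h hmu hR hBR hdet
  rw [← ha, ← hb, ← hc, ← hd, ← hX, ← hY] at F
  have hl : mu t D < lam t D := F.m_lt
  have hl0 : 0 < lam t D := hmu.trans hl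
  have hr1 : 1 < r := by
    rw [hr, one_lt_div hmu]
    exact hl
  have hr0 : 0 < r := by linarith
  have hXc : 0 < X * c := mul_pos F.X_pos F.c_pos
  have hs0 : 0 < s := by
    rw [hsd]
    exact div_pos (mul_pos F.Y_pos F.d_pos) hXc
  have hlh : s / r < r ^ 2 * s := by
    rw [div_lt_iff₀ hr0]
    have h1 : 1 < r ^ 3 := one_lt_pow₀ hr1 (by norm_num)
    calc s = s * 1 := (mul_one s).symm
      _ < s * r ^ 3 := mul_lt_mul_of_pos_left h1 hs0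
      _ = r ^ 2 * s * r := by ring
  obtain ⟨j, h1, h2, h3, h4⟩ := exists_t F.a_pos F.b_pos (div_pos hs0 hr0) hlh hs
  obtain ⟨B', hE, -, ha', hb'⟩ := shiftB h hR j (by rw [← ha]; exact h1) (by rw [← hb]; exact h2)
  have hR' := hE.rel h hR
  obtain ⟨R', hBR'⟩ := hE.div ⟨R, hBR⟩
  have hdet' : 0 < (!![N 0 0 - j * N 0 1, N 0 1; N 1 0 - j * N 1 1, N 1 1] :
      Matrix (Fin 2) (Fin 2) ℤ).det := by
    have e : (!![N 0 0 - j * N 0 1, N 0 1; N 1 0 - j * N 1 1, N 1 1] :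
        Matrix (Fin 2) (Fin 2) ℤ).det = N.det := by
      rw [det_fin_two_of, det_fin_two]
      ring
    rw [e]
    exact hdet
  have F' := fr_of h hmu hR' hBR' hdet'
  have eX : (((!![N 0 0 - j * N 0 1, N 0 1; N 1 0 - j * N 1 1, N 1 1] :
      Matrix (Fin 2) (Fin 2) ℤ) 0 0 : ℤ) : ℝ) + (((!![N 0 0 - j * N 0 1, N 0 1; N 1 0 - j * N 1 1, N 1 1] :
      Matrix (Fin 2) (Fin 2) ℤ) 0 1 : ℤ) : ℝ) * al t D B' = X := by
    rw [ha', ← ha, hX]
    simp only [of_apply, cons_val', cons_val_zero, cons_val_one, cons_val_fin_one]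
    push_cast
    ring
  have eY : (((!![N 0 0 - j * N 0 1, N 0 1; N 1 0 - j * N 1 1, N 1 1] :
      Matrix (Fin 2) (Fin 2) ℤ) 0 0 : ℤ) : ℝ) - (((!![N 0 0 - j * N 0 1, N 0 1; N 1 0 - j * N 1 1, N 1 1] :
      Matrix (Fin 2) (Fin 2) ℤ) 0 1 : ℤ) : ℝ) * be t D B' = Y := by
    rw [hb', ← hb, hY]
    simp only [of_apply, cons_val', cons_val_zero, cons_val_one, cons_val_fin_one]
    push_cast
    ring
  rw [eX, eY, ha', hb', ← ha, ← hb, ← hc, ← hd] at F'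
  have hX0 := F.X_pos
  have hc0 := F.c_pos
  refine hE.lnk h (link1 h hR' hBR' hdet' F' hYX hXY ?_ ?_)
  · have e3 : s / r * (a + j) = mu t D * ((a + j) * (Y * d)) / (lam t D * (X * c)) := by
      rw [hsd, hr]
      field_simp
    rw [e3, div_le_iff₀ (mul_pos hl0 hXc)] at h3
    calc mu t D * ((a + j) * (Y * d)) ≤ (b - j) * (lam t D * (X * c)) := h3
      _ = lam t D * ((b - j) * (X * c)) := by ring
  · have e4 : r ^ 2 * s * (a + j) = lam t D ^ 2 * ((a + j) * (Y * d)) / (mu t D ^ 2 * (X * c)) := by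
      rw [hsd, hr]
      field_simp
    rw [e4, le_div_iff₀ (mul_pos (pow_pos hmu 2) hXc)] at h4
    calc mu t D ^ 2 * ((b - j) * (X * c)) = (b - j) * (mu t D ^ 2 * (X * c)) := by ring
      _ ≤ lam t D ^ 2 * ((a + j) * (Y * d)) := h4

theorem caseI (h : Irr t D) (hmu : 0 < mu t D) (h9 : 9 * D ≤ (t : ℤ) ^ 2) (hR : Rel t D B C N)
    (hB : toZ B = R * N) (hdet : 0 < N.det) (hb1 : B 0 1 ≤ B 1 0) (hb2 : B 0 1 ≤ C 0 1)
    (hb3 : B 0 1 ≤ C 1 0) (hN01 : 0 ≤ N 0 1) (hc : al t D C < 1) (hR01 : 0 ≤ R 0 1) :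
    Lnk B C (zQ N) := by
  have F := fr_of h hmu hR hB hdet
  obtain ⟨a, ha⟩ : ∃ a, a = al t D B := ⟨_, rfl⟩
  obtain ⟨b, hb⟩ : ∃ b, b = be t D B := ⟨_, rfl⟩
  obtain ⟨c, hcc⟩ : ∃ c, c = al t D C := ⟨_, rfl⟩
  obtain ⟨d, hd⟩ : ∃ d, d = be t D C := ⟨_, rfl⟩
  rw [← ha, ← hb, ← hcc, ← hd] at F
  obtain ⟨X, hX⟩ : ∃ X, X = (N 0 0 : ℝ) + N 0 1 * a := ⟨_, rfl⟩
  obtain ⟨Y, hY⟩ : ∃ Y, Y = (N 0 0 : ℝ) - N 0 1 * b := ⟨_, rfl⟩
  rw [← hX, ← hY] at F
  rw [← hcc] at hc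
  obtain ⟨f1, f2, -, f4⟩ := lam_facts h hR.1
  have hl0 : 0 < lam t D := hmu.trans f4
  obtain ⟨r, hr⟩ : ∃ r, r = lam t D / mu t D := ⟨_, rfl⟩
  have hr1 : 1 < r := by
    rw [hr, one_lt_div hmu]
    exact f4
  have hr7 : 0 ≤ r ^ 2 - 7 * r + 1 := by
    have h9' : 9 * (lam t D * mu t D) ≤ (lam t D + mu t D) ^ 2 := by
      rw [f1, f2]
      exact_mod_cast h9
    have e : r ^ 2 - 7 * r + 1 =
        (lam t D ^ 2 - 7 * (lam t D * mu t D) + mu t D ^ 2) / mu t D ^ 2 := by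
      rw [hr]
      field_simp
    rw [e]
    apply div_nonneg _ (sq_nonneg _)
    nlinarith
  have hB01 : (0 : ℝ) < B 0 1 := by exact_mod_cast (hR.1.entries h).1
  have hC01 : (0 : ℝ) < C 0 1 := by exact_mod_cast (hR.2.1.entries h).1
  have ha0 := F.a_pos
  have hb0 := F.b_pos
  have hc0 := F.c_pos
  have hd0 := F.d_pos
  have hX0 := F.X_pos
  have hY0 := F.Y_pos
  have hK0 : 0 < a + b := by linarith
  have hK2 : 2 ≤ a + b := by
    have h1 : (B 0 1 : ℝ) ≤ B 1 0 := by exact_mod_cast hb1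
    rw [F.B10, mul_assoc] at h1
    have h2 : 1 ≤ a * b := by
      by_contra hcon
      push Not at hcon
      nlinarith
    nlinarith [sq_nonneg (a - b)]
  have hcd1 : c + d ≤ a + b := by
    have h1 : (B 0 1 : ℝ) ≤ C 0 1 := by exact_mod_cast hb2
    have h2 : (c + d) * C 0 1 ≤ (a + b) * C 0 1 := by
      rw [F.C01, ← F.B01]
      exact mul_le_mul_of_nonneg_left h1 hK0.le
    exact le_of_mul_le_mul_right h2 hC01
  have hcd2 : c + d ≤ (a + b) * (c * d) := by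
    have h1 : (B 0 1 : ℝ) ≤ C 1 0 := by exact_mod_cast hb3
    rw [F.C10] at h1
    have h2 : (c + d) * C 0 1 ≤ (a + b) * (c * d) * C 0 1 := by
      rw [F.C01, ← F.B01]
      calc (a + b) * (B 0 1 : ℝ) ≤ (a + b) * (C 0 1 * c * d) := mul_le_mul_of_nonneg_left h1 hK0.le
        _ = (a + b) * (c * d) * C 0 1 := by ring
    exact le_of_mul_le_mul_right h2 hC01
  have hYX : Y ≤ X := by
    have h1 : (0 : ℝ) ≤ N 0 1 := by exact_mod_cast hN01
    have h2 := F.N01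
    have h3 : 0 ≤ (a + b) * (N 0 1 : ℝ) := mul_nonneg hK0.le h1
    linarith
  have hXY : mu t D * X ≤ lam t D * Y := by
    have h1 : (0 : ℝ) ≤ R 0 1 := by exact_mod_cast hR01
    have h2 := F.R01
    have h3 : 0 ≤ X * Y * (c + d) * (R 0 1 : ℝ) := mul_nonneg (by positivity) h1
    linarith
  have hσ1 : Y / X ≤ 1 := by
    rw [div_le_one hX0]
    exact hYX
  have hσ : 1 ≤ r * (Y / X) := by
    rw [hr, div_mul_div_comm, le_div_iff₀ (mul_pos hmu hX0), one_mul]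
    exact hXY
  rcases real1 hr1 hr7 hK2 hσ hσ1 hc0 hc hd0 hcd1 hcd2 with h1 | ⟨h1, h2⟩
  · exact caseI_aux h hmu hR ⟨R, hB⟩ hdet hr ha hb hcc hd hX hY hYX hXY (s := Y * d / (X * c)) rfl
      (h1 _ (by field_simp)).2
  · obtain ⟨C', hE, -, hc', hd'⟩ := shiftC h hR 1 (by rw [← hcc]; push_cast; linarith)
      (by rw [← hd]; push_cast; linarith)
    have hR' := hE.rel h hR
    have hdet' : 0 < (!![N 0 0, N 0 1; N 1 0 + 1 * N 0 0, N 1 1 + 1 * N 0 1] :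
        Matrix (Fin 2) (Fin 2) ℤ).det := by
      have e : (!![N 0 0, N 0 1; N 1 0 + 1 * N 0 0, N 1 1 + 1 * N 0 1] :
          Matrix (Fin 2) (Fin 2) ℤ).det = N.det := by
        rw [det_fin_two_of, det_fin_two]
        ring
      rw [e]
      exact hdet
    refine hE.lnk h (caseI_aux h hmu hR' (hE.div ⟨R, hB⟩) hdet' hr ha hb (c := c + 1)
      (d := d - 1) ?_ ?_ (X := X) (Y := Y) ?_ ?_ hYX hXY (s := Y * (d - 1) / (X * (c + 1))) rfl
      (h2 _ (by field_simp)).2)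
    · rw [hc', hcc]
      push_cast
      ring
    · rw [hd', hd]
      push_cast
      ring
    · rw [hX]
      simp
    · rw [hY]
      simp

end Pool.Agent.DimRep.TN
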