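import Mathlib

/-!
# TN-Real2: inequalities for case II (`1 < z ≤ r`)

`φ = (1 + √5)/2`, `φ² = φ + 1`; `r ≥ φ⁴ = 3 φ + 2` (from `hr`, `hr1`), in particular `r > 34/5`. Put `A = d/(z c)`, so `A² ≥ r` (`hF1`), `x = √A`, `x⁴ ≥ r`, `x ≥ φ`.
The number `s = d/(r z c) = A / r`: `(1 + s)(1 + r s) ≤ K (r s - s)` iff `A + r/A ≤ K (r - 1) - (r + 1)` (multiply by `1/s = r/A`).
Suppose it fails: `A + r/A > K (r-1) - (r+1)`. `K² ≥ (c+d) (c+d)/(c d) = d/c + 2 + c/d`, so `K ≥ y + 1/y`, `y = √(d/c) = √z x ≥ x ≥ 1`, so `K ≥ x + 1/x`: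
`x² + r/x² + (r + 1) > (r-1)(x + 1/x)`; times `x²`: `(x²+1) (x (x+1) - r (x-1)) > 0`: `r (x - 1) < x (x + 1)` (*).
Then `x > 4`: otherwise `φ ≤ x ≤ 4 ≤ 2 φ + 1`, so `(x - φ)(x - (2φ+1)) ≤ 0`, i.e. `x² - (3φ+1) x + (3φ+2) ≤ 0` (`φ (2φ+1) = 3φ + 2`), i.e.
`x (x+1) ≤ (3φ+2)(x-1) ≤ r (x-1)`, against (*).
By (*) `r / A = r/x² < (x+1)/(x (x-1)) < 5/12`. `r z c = r d / A < (5/12) d`; `hF2`: `r z < 1 + d + r z c < 1 + (17/12) d`; so `d > (12/17)(r z - 1) > 4`
(`r > 34/5`, `z > 1`). For `s' = (d-1)/(r z (1+c))` the claim is `r z (1+c)/(d-1) + (d-1)/(z (1+c)) ≤ K (r-1) - (r+1)`: the second term is `≤ d - 1`,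
`K ≥ d`, so enough `2 r z ≤ (d-1)(d (r-2) - r)`, and `2 r z < 2 + (17/6) d`, `(d-1)(d (r-2) - r) = (d-1)(r (d-1) - 2 d) ≥ (d-1)((24/5) d - 34/5)`
(increasing in `r`), and `2 + (17/6) d ≤ (d-1)((24/5) d - 34/5)` for `d ≥ 4`.
-/

namespace Pool.Agent.DimRep.TN

/-- `r (x - 1) < x (x + 1)` with `x ^ 4 ≥ r ≥ φ ^ 4` forces `x > 4` -/
private theorem real2_x {r x : ℝ} (hr1 : 1 < r) (hr : 0 ≤ r ^ 2 - 7 * r + 1) (hx0 : 0 < x)
    (hx : r ≤ x ^ 4) (h : r * (x - 1) < x * (x + 1)) : 4 < x := by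
  by_contra h4
  rw [not_lt] at h4
  obtain ⟨p, hp⟩ : ∃ p : ℝ, p = (1 + Real.sqrt 5) / 2 := ⟨_, rfl⟩
  have h5 : Real.sqrt 5 ^ 2 = 5 := Real.sq_sqrt (by norm_num)
  have h5' : 0 ≤ Real.sqrt 5 := Real.sqrt_nonneg 5
  have h50 : 2 ≤ Real.sqrt 5 := by
    by_contra hh
    rw [not_le] at hh
    nlinarith
  have hp2 : p ^ 2 = p + 1 := by
    rw [hp]; nlinarith
  have hp1 : 3 / 2 ≤ p := by rw [hp]; linarith
  have hfac : (r - (3 * p + 2)) * (r - (5 - 3 * p)) = r ^ 2 - 7 * r + 1 := by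
    linear_combination (-9 : ℝ) * hp2
  have hr' : 3 * p + 2 ≤ r := by
    by_contra hh
    rw [not_le] at hh
    have : (r - (3 * p + 2)) * (r - (5 - 3 * p)) < 0 := by
      apply mul_neg_of_neg_of_pos <;> linarith
    linarith
  have hp4 : p ^ 4 = 3 * p + 2 := by
    have : p ^ 4 = (p ^ 2) ^ 2 := by ring
    rw [this, hp2]
    linear_combination hp2
  have hxp : p ≤ x := by
    by_contra hh
    rw [not_le] at hh
    have : x ^ 4 < p ^ 4 := pow_lt_pow_left₀ hh hx0.le (by norm_num)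
    linarith
  have h1 : (x - p) * (x - (2 * p + 1)) ≤ 0 := by
    apply mul_nonpos_of_nonneg_of_nonpos <;> linarith
  have h2 : (3 * p + 2) * (x - 1) ≤ r * (x - 1) := by
    apply mul_le_mul_of_nonneg_right hr'
    linarith
  nlinarith

theorem real2 {r K z c d : ℝ} (hr1 : 1 < r) (hr : 0 ≤ r ^ 2 - 7 * r + 1) (hz : 1 < z)
    (hc : 0 < c) (hc1 : c < 1) (hd : 0 < d) (h1 : c + d ≤ K) (h2 : c + d ≤ K * (c * d))
    (hF1 : r * (z * c) ^ 2 ≤ d ^ 2) (hF2 : r * z * (1 - c) < 1 + d) :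
    (∀ s, s = d / (r * z * c) → (1 + s) * (1 + r * s) ≤ K * (r * s - s)) ∨
    (1 < d ∧ ∀ s, s = (d - 1) / (r * z * (c + 1)) → (1 + s) * (1 + r * s) ≤ K * (r * s - s)) := by
  by_cases hh : ∀ s, s = d / (r * z * c) → (1 + s) * (1 + r * s) ≤ K * (r * s - s)
  · exact Or.inl hh
  right
  rw [not_forall] at hh
  obtain ⟨s, hs⟩ := hh
  rw [Classical.not_imp, not_le] at hs
  obtain ⟨hs, hf⟩ := hs
  have hr0 : 0 < r := by linarith
  have hz0 : 0 < z := by linarith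
  have hzc : 0 < z * c := mul_pos hz0 hc
  have hK : 0 < K := by linarith
  obtain ⟨x, hx⟩ : ∃ x : ℝ, x = Real.sqrt (d / (z * c)) := ⟨_, rfl⟩
  have hA : 0 < d / (z * c) := div_pos hd hzc
  have hx0 : 0 < x := by rw [hx]; exact Real.sqrt_pos.mpr hA
  have hx2 : x ^ 2 = d / (z * c) := by rw [hx]; exact Real.sq_sqrt hA.le
  have hd' : d = x ^ 2 * (z * c) := by rw [hx2]; field_simp
  have hrs : r * s = x ^ 2 := by
    rw [hs, hx2]; field_simp
  have hx4 : r ≤ x ^ 4 := by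
    have h3 : r * (z * c) ^ 2 ≤ x ^ 4 * (z * c) ^ 2 := by
      calc r * (z * c) ^ 2 ≤ d ^ 2 := hF1
        _ = x ^ 4 * (z * c) ^ 2 := by rw [hd']; ring
    exact le_of_mul_le_mul_right h3 (by positivity)
  -- K x ≥ x ^ 2 + 1
  have hKx : x ^ 2 + 1 ≤ K * x := by
    have h3 : (c + d) ^ 2 ≤ K * (K * (c * d)) := by
      calc (c + d) ^ 2 = (c + d) * (c + d) := by ring
        _ ≤ K * (K * (c * d)) := mul_le_mul h1 h2 (by positivity) hK.le
    have h4 : c ^ 2 * (1 + x ^ 2 * z) ^ 2 ≤ c ^ 2 * (z * (K * x) ^ 2) := by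
      calc c ^ 2 * (1 + x ^ 2 * z) ^ 2 = (c + d) ^ 2 := by rw [hd']; ring
        _ ≤ K * (K * (c * d)) := h3
        _ = c ^ 2 * (z * (K * x) ^ 2) := by rw [hd']; ring
    have h5 : (1 + x ^ 2 * z) ^ 2 ≤ z * (K * x) ^ 2 := le_of_mul_le_mul_left h4 (by positivity)
    have h6 : z * (x ^ 2 + 1) ^ 2 ≤ (1 + x ^ 2 * z) ^ 2 := by
      have h7 : 0 ≤ (z - 1) * (z * x ^ 4 - 1) := by
        apply mul_nonneg
        · linarith
        · have : 1 ≤ x ^ 4 := by linarith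
          nlinarith
      nlinarith
    have h8 : (x ^ 2 + 1) ^ 2 ≤ (K * x) ^ 2 := le_of_mul_le_mul_left (h6.trans h5) hz0
    exact le_of_sq_le_sq h8 (by positivity)
  have hfr : K * (r - 1) * x ^ 2 < (r + x ^ 2) * (1 + x ^ 2) := by
    have h3 : r * (K * (r * s - s)) < r * ((1 + s) * (1 + r * s)) := mul_lt_mul_of_pos_left hf hr0
    have h4 : r * (K * (r * s - s)) = K * (r - 1) * x ^ 2 := by
      rw [← hrs]; ring
    have h5 : r * ((1 + s) * (1 + r * s)) = (r + x ^ 2) * (1 + x ^ 2) := by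
      rw [← hrs]; ring
    rw [h4, h5] at h3
    exact h3
  have hstar : r * (x - 1) < x * (x + 1) := by
    have h3 : (r - 1) * x * (x ^ 2 + 1) ≤ K * (r - 1) * x ^ 2 := by
      have : (r - 1) * x * (x ^ 2 + 1) ≤ (r - 1) * x * (K * x) := by
        apply mul_le_mul_of_nonneg_left hKx
        have : 0 < r - 1 := by linarith
        positivity
      calc (r - 1) * x * (x ^ 2 + 1) ≤ (r - 1) * x * (K * x) := this
        _ = K * (r - 1) * x ^ 2 := by ring
    have h4 : (r - 1) * x * (x ^ 2 + 1) < (r + x ^ 2) * (x ^ 2 + 1) := by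
      calc (r - 1) * x * (x ^ 2 + 1) ≤ K * (r - 1) * x ^ 2 := h3
        _ < (r + x ^ 2) * (1 + x ^ 2) := hfr
        _ = (r + x ^ 2) * (x ^ 2 + 1) := by ring
    have h5 : (r - 1) * x < r + x ^ 2 := lt_of_mul_lt_mul_right h4 (by positivity)
    linarith
  have hx4' : 4 < x := real2_x hr1 hr hx0 hx4 hstar
  have h12 : 12 * r < 5 * x ^ 2 := by
    have h3 : 12 * (r * (x - 1)) < 12 * (x * (x + 1)) := by linarith
    have h4 : 12 * (x * (x + 1)) ≤ 5 * x ^ 2 * (x - 1) := by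
      have h5 : 0 ≤ x * ((x - 4) * (5 * x + 3)) := by
        have : 0 < x - 4 := by linarith
        positivity
      linarith
    have h6 : (12 * r) * (x - 1) < (5 * x ^ 2) * (x - 1) := by linarith
    exact lt_of_mul_lt_mul_right h6 (by linarith)
  have hrzc : 12 * (r * z * c) < 5 * d := by
    have h3 : 12 * r * (z * c) < 5 * x ^ 2 * (z * c) := mul_lt_mul_of_pos_right h12 hzc
    have h4 : 5 * x ^ 2 * (z * c) = 5 * d := by rw [hd']; ring
    linarith
  have hrz : 12 * (r * z) < 12 + 17 * d := by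
    have : r * z * (1 - c) = r * z - r * z * c := by ring
    linarith
  have hr68 : 34 / 5 < r := by
    by_contra hcon
    rw [not_lt] at hcon
    have h3 : 0 ≤ (r - 1) * (34 / 5 - r) := mul_nonneg (by linarith) (by linarith)
    linarith
  have hrz' : r < r * z := lt_mul_of_one_lt_right hr0 hz
  have hd4 : 4 < d := by linarith
  refine ⟨by linarith, ?_⟩
  intro s' hs'
  obtain ⟨w, hw⟩ : ∃ w : ℝ, w = z * (c + 1) := ⟨_, rfl⟩
  obtain ⟨e, he⟩ : ∃ e : ℝ, e = d - 1 := ⟨_, rfl⟩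
  have hw1 : 1 < w := by
    rw [hw]
    have h3 : 0 < z * c := hzc
    linarith
  have hw0 : 0 < w := by linarith
  have he3 : 3 < e := by rw [he]; linarith
  have hw2 : 12 * (r * w) < 24 + 34 * (e + 1) := by
    have h3 : r * w ≤ 2 * (r * z) := by
      have h6 : 0 ≤ r * z * (1 - c) := mul_nonneg (mul_pos hr0 hz0).le (by linarith)
      have h7 : r * z * (1 - c) = 2 * (r * z) - r * (z * (c + 1)) := by ring
      rw [hw]
      linarith
    have h4 : e + 1 = d := by rw [he]; ring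
    rw [h4]
    linarith
  have hs2 : s' = e / (r * w) := by
    rw [hs', he, hw]
    congr 1
    ring
  have hrw : 0 < r * w := mul_pos hr0 hw0
  have hs3 : s' * (r * w) = e := by
    rw [hs2]; field_simp
  have hs4 : r * s' * w = e := by linarith [hs3, mul_comm s' (r * w), mul_assoc r s' w]
  have hKd : e + 1 ≤ K := by rw [he]; linarith
  -- the inequality multiplied by r w^2
  have key : (r * w + e) * (w + e) ≤ K * (r - 1) * e * w := by
    have h3 : (e + 1) * ((r - 1) * e * w) ≤ K * ((r - 1) * e * w) := by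
      apply mul_le_mul_of_nonneg_right hKd
      have : 0 < r - 1 := by linarith
      positivity
    have h4 : r * w ≤ (r - 2) * e ^ 2 - 2 * e := by
      have h5 : (24 / 5) * e ^ 2 ≤ (r - 2) * e ^ 2 := by
        apply mul_le_mul_of_nonneg_right _ (by positivity)
        linarith
      have h8 : 0 ≤ e * (e - 3) := mul_nonneg (by linarith) (by linarith)
      have h9 : e * (e - 3) = e ^ 2 - 3 * e := by ring
      linarith
    have h6 : r * w * w ≤ ((r - 2) * e ^ 2 - 2 * e) * w := mul_le_mul_of_nonneg_right h4 hw0.le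
    have h7 : e ^ 2 ≤ e ^ 2 * w := by
      have h8 : 0 ≤ e ^ 2 * (w - 1) := mul_nonneg (by positivity) (by linarith)
      have h9 : e ^ 2 * (w - 1) = e ^ 2 * w - e ^ 2 := by ring
      linarith
    have e1 : (r * w + e) * (w + e) = r * w * w + (r + 1) * e * w + e ^ 2 := by ring
    have e2 : (e + 1) * ((r - 1) * e * w) = ((r - 2) * e ^ 2 - 2 * e) * w + (r + 1) * e * w + e ^ 2 * w := by
      ring
    have e3 : K * ((r - 1) * e * w) = K * (r - 1) * e * w := by ring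
    rw [e1, ← e3]
    rw [e2] at h3
    linarith
  have hfin : r * w ^ 2 * ((1 + s') * (1 + r * s')) ≤ r * w ^ 2 * (K * (r * s' - s')) := by
    calc r * w ^ 2 * ((1 + s') * (1 + r * s')) = (r * w + s' * (r * w)) * (w + r * s' * w) := by ring
      _ = (r * w + e) * (w + e) := by rw [hs3, hs4]
      _ ≤ K * (r - 1) * e * w := key
      _ = K * (r - 1) * (s' * (r * w)) * w := by rw [hs3]
      _ = r * w ^ 2 * (K * (r * s' - s')) := by ring
  exact le_of_mul_le_mul_left hfin (by positivity)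

end Pool.Agent.DimRep.TN
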