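import Pool.Agent.Lib.MP_5f1e54_an.TN.Coord
import Pool.Agent.Lib.MP_5f1e54_an.TN.Shift
import Pool.Agent.Lib.MP_5f1e54_an.TN.LC
import Pool.Agent.Lib.MP_5f1e54_an.TN.Real2

/-!
# TN-CaseII: no left vector of `L'` with slope in `[1/r, 1]`, the next one has slope `≥ 1/r²`

`F := fr_of`; `l = lam`, `m = mu`, `r = l / m`, `K = a + b`, `z = m X / (l Y) > 1` (`R01 < 0`: `l Y < m X`). `r² - 7 r + 1 ≥ 0` from `9 D ≤ t²`.
`c + d ≤ K` (`B01 ≤ C01`), `c + d ≤ K c d` (`B01 ≤ C10 = C01 c d`). `hF1`: `r (z c)² = m (X c)² / (l Y²) ≤ d²` by `hs`. `hF2`: `N01 < N11`: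
`X - Y < X c + Y d`, divide by `Y` (`r z = X / Y`).
`aux`: for a triple (any `C`) with `Y ≤ X`, `m² X ≤ l² Y`, `s = Y d / (X c)`, `(1 + s)(1 + r s) ≤ K (r s - s)`: `exists_t` with `lo = s`, `hi = r s`: `j`;
`shiftB`: `(B', C, N')`, `X`, `Y` do not change, `R'` by `Eqv.div`, `N'.det = N.det`; `fr_of`; `link2`; `Eqv.lnk`.
`m² X ≤ l² Y`: `hBR` and `X Y (c+d) (B R)01 = l² Y - m² X` (`(B R)01 = B00 R01 + B01 R11`, `B00 = l - B01 a`, `B01 (a + b) = l - m`).
Main: `real2` (`s = d/(r z c) = Y d/(X c)`); in the second case first `shiftC` with `j = 1`.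
-/

open Matrix

namespace Pool.Agent.DimRep.TN

open Pool.Agent.DimRep.TB2

variable {t : ℕ} {D : ℤ} {B C : Matrix (Fin 2) (Fin 2) ℕ} {N R : Matrix (Fin 2) (Fin 2) ℤ}

private theorem caseII_aux (h : Irr t D) (hmu : 0 < mu t D) (hR : Rel t D B C N)
    (hB : ∃ R : Matrix (Fin 2) (Fin 2) ℤ, toZ B = R * N) (hdet : 0 < N.det)
    (hYX : (N 0 0 - N 0 1 * be t D B : ℝ) ≤ N 0 0 + N 0 1 * al t D B)
    (hm : mu t D ^ 2 * (N 0 0 + N 0 1 * al t D B) ≤ lam t D ^ 2 * (N 0 0 - N 0 1 * be t D B))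
    {s : ℝ} (hs : s * ((N 0 0 + N 0 1 * al t D B) * al t D C) = (N 0 0 - N 0 1 * be t D B) * be t D C)
    (h1 : (1 + s) * (1 + lam t D / mu t D * s) ≤
      (al t D B + be t D B) * (lam t D / mu t D * s - s)) : Lnk B C (zQ N) := by
  obtain ⟨R, hBR⟩ := hB
  have F := fr_of h hmu hR hBR hdet
  have hXc : 0 < (N 0 0 + N 0 1 * al t D B) * al t D C := mul_pos F.X_pos F.c_pos
  have hYd : 0 < (N 0 0 - N 0 1 * be t D B) * be t D C := mul_pos F.Y_pos F.d_pos
  have hs0 : 0 < s := by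
    by_contra h2
    push Not at h2
    have := mul_nonpos_of_nonpos_of_nonneg h2 hXc.le
    linarith
  have hr1 : 1 < lam t D / mu t D := by
    rw [lt_div_iff₀ hmu, one_mul]
    exact F.m_lt
  obtain ⟨j, hj1, hj2, hj3, hj4⟩ := exists_t F.a_pos F.b_pos hs0
    (by nlinarith [mul_pos (sub_pos.2 hr1) hs0] : s < lam t D / mu t D * s) h1
  obtain ⟨B', hE, -, hal, hbe⟩ := shiftB h hR j hj1 hj2
  obtain ⟨R', hBR'⟩ := hE.div ⟨R, hBR⟩
  have hR' := hE.rel h hR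
  have hdet' : 0 < (!![N 0 0 - j * N 0 1, N 0 1; N 1 0 - j * N 1 1, N 1 1] :
      Matrix (Fin 2) (Fin 2) ℤ).det := by
    rw [Matrix.det_fin_two] at hdet ⊢
    simp only [Matrix.of_apply, Matrix.cons_val', Matrix.cons_val_zero, Matrix.cons_val_one,
      Matrix.cons_val_fin_one]
    linarith
  have F' := fr_of h hmu hR' hBR' hdet'
  have e00 : (!![N 0 0 - j * N 0 1, N 0 1; N 1 0 - j * N 1 1, N 1 1] :
      Matrix (Fin 2) (Fin 2) ℤ) 0 0 = N 0 0 - j * N 0 1 := rfl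
  have e01 : (!![N 0 0 - j * N 0 1, N 0 1; N 1 0 - j * N 1 1, N 1 1] :
      Matrix (Fin 2) (Fin 2) ℤ) 0 1 = N 0 1 := rfl
  rw [e00, e01, hal, hbe] at F'
  have hX : ((N 0 0 - j * N 0 1 : ℤ) : ℝ) + N 0 1 * (al t D B + j) = N 0 0 + N 0 1 * al t D B := by
    push_cast
    ring
  have hY : ((N 0 0 - j * N 0 1 : ℤ) : ℝ) - N 0 1 * (be t D B - j) = N 0 0 - N 0 1 * be t D B := by
    push_cast
    ring
  rw [hX, hY] at F'
  set X : ℝ := N 0 0 + N 0 1 * al t D B with hXdef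
  set Y : ℝ := N 0 0 - N 0 1 * be t D B with hYdef
  refine hE.lnk h (link2 h hR' hBR' hdet' F' hYX hm ?_ ?_)
  · have h2 := mul_le_mul_of_nonneg_right hj3 hXc.le
    have h3 : s * (al t D B + j) * (X * al t D C) = (al t D B + j) * (Y * be t D C) := by
      rw [← hs]; ring
    linarith
  · have h2 := mul_le_mul_of_nonneg_right hj4 hXc.le
    have h3 : lam t D / mu t D * s * (al t D B + j) * (X * al t D C) =
        lam t D / mu t D * ((al t D B + j) * (Y * be t D C)) := by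
      rw [← hs]; ring
    rw [h3] at h2
    have h4 := mul_le_mul_of_nonneg_left h2 hmu.le
    have h5 : mu t D * (lam t D / mu t D * ((al t D B + j) * (Y * be t D C))) =
        lam t D * ((al t D B + j) * (Y * be t D C)) := by
      field_simp
    linarith

theorem caseII (h : Irr t D) (hmu : 0 < mu t D) (h9 : 9 * D ≤ (t : ℤ) ^ 2) (hR : Rel t D B C N)
    (hB : toZ B = R * N) (hdet : 0 < N.det) (hb2 : B 0 1 ≤ C 0 1)
    (hb3 : B 0 1 ≤ C 1 0) (hN01 : 0 ≤ N 0 1) (hN : N 0 1 < N 1 1) (hc : al t D C < 1) (hR01 : R 0 1 < 0)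
    (hs : mu t D * ((N 0 0 + N 0 1 * al t D B) * al t D C) ^ 2 ≤
      lam t D * ((N 0 0 - N 0 1 * be t D B) * be t D C) ^ 2)
    (hBR : 0 ≤ (toZ B * R) 0 1) : Lnk B C (zQ N) := by
  have F := fr_of h hmu hR hB hdet
  obtain ⟨hl1, hl2, -, -⟩ := lam_facts h hR.1
  set X : ℝ := N 0 0 + N 0 1 * al t D B with hXdef
  set Y : ℝ := N 0 0 - N 0 1 * be t D B with hYdef
  set a := al t D B with ha
  set b := be t D B with hb
  set c := al t D C with hcc
  set d := be t D C with hdd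
  set l := lam t D with hl
  set m := mu t D with hm
  have hX := F.X_pos
  have hY := F.Y_pos
  have ha0 := F.a_pos
  have hb0 := F.b_pos
  have hc0 := F.c_pos
  have hd0 := F.d_pos
  have hml := F.m_lt
  have hl0 : 0 < l := hmu.trans hml
  have hab : 0 < a + b := by linarith
  have hcd : 0 < c + d := by linarith
  -- the ratio
  have hr1 : 1 < l / m := by
    rw [lt_div_iff₀ hmu, one_mul]
    exact hml
  have hr : 0 ≤ (l / m) ^ 2 - 7 * (l / m) + 1 := by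
    have h1 : 9 * (D : ℝ) ≤ (t : ℝ) ^ 2 := by exact_mod_cast h9
    rw [← hl2, ← hl1] at h1
    have h0 : 0 ≤ l ^ 2 - 7 * (l * m) + m ^ 2 := by
      have h4 : (l + m) ^ 2 = l ^ 2 + 2 * (l * m) + m ^ 2 := by ring
      linarith
    have h2 : 0 ≤ (l ^ 2 - 7 * (l * m) + m ^ 2) / m ^ 2 := div_nonneg h0 (by positivity)
    have h3 : (l ^ 2 - 7 * (l * m) + m ^ 2) / m ^ 2 = (l / m) ^ 2 - 7 * (l / m) + 1 := by
      field_simp
    linarith
  -- the entry `R01`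
  have hXY : 0 < X * Y * (c + d) := by positivity
  have hz' : l * Y < m * X := by
    have h1 : (R 0 1 : ℝ) < 0 := by exact_mod_cast hR01
    have h2 := F.R01
    have h3 := mul_neg_of_pos_of_neg hXY h1
    linarith
  have hz : 1 < m * X / (l * Y) := by
    rw [lt_div_iff₀ (by positivity), one_mul]
    exact hz'
  -- the entries `B01`, `C01`, `C10`
  have hB0 : (0 : ℝ) < B 0 1 := by
    by_contra h1
    push Not at h1
    have := mul_nonpos_of_nonneg_of_nonpos hab.le h1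
    have := F.B01
    linarith
  have hC0 : (0 : ℝ) < C 0 1 := by
    by_contra h1
    push Not at h1
    have := mul_nonpos_of_nonneg_of_nonpos hcd.le h1
    have := F.C01
    linarith
  have hK1 : c + d ≤ a + b := by
    have h1 : (B 0 1 : ℝ) ≤ C 0 1 := by exact_mod_cast hb2
    have h2 := F.B01
    have h3 := F.C01
    have h4 : (c + d) * (C 0 1 : ℝ) ≤ (a + b) * C 0 1 := by
      rw [h3, ← h2]
      exact mul_le_mul_of_nonneg_left h1 hab.le
    exact le_of_mul_le_mul_right h4 hC0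
  have hK2 : c + d ≤ (a + b) * (c * d) := by
    have h1 : (B 0 1 : ℝ) ≤ C 1 0 := by exact_mod_cast hb3
    have h2 := F.B01
    have h3 := F.C01
    rw [F.C10] at h1
    have h4 : (c + d) * (B 0 1 : ℝ) ≤ (a + b) * (c * d) * B 0 1 := by
      calc (c + d) * (B 0 1 : ℝ) ≤ (c + d) * (C 0 1 * c * d) := mul_le_mul_of_nonneg_left h1 hcd.le
        _ = ((c + d) * C 0 1) * (c * d) := by ring
        _ = ((a + b) * B 0 1) * (c * d) := by rw [h3, h2]
        _ = (a + b) * (c * d) * B 0 1 := by ring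
    exact le_of_mul_le_mul_right h4 hB0
  have hrz : l / m * (m * X / (l * Y)) = X / Y := by
    field_simp
  have hF1 : l / m * (m * X / (l * Y) * c) ^ 2 ≤ d ^ 2 := by
    have h1 : l / m * (m * X / (l * Y) * c) ^ 2 = m * (X * c) ^ 2 / (l * Y ^ 2) := by
      field_simp
    rw [h1, div_le_iff₀ (by positivity)]
    have h2 : l * (Y * d) ^ 2 = d ^ 2 * (l * Y ^ 2) := by ring
    linarith
  have hF2 : l / m * (m * X / (l * Y)) * (1 - c) < 1 + d := by
    rw [hrz, div_mul_eq_mul_div, div_lt_iff₀ hY]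
    have h1 : (N 0 1 : ℝ) < N 1 1 := by exact_mod_cast hN
    have h2 := mul_lt_mul_of_pos_left h1 hab
    rw [F.N01, F.N11] at h2
    linarith
  -- the conditions for `aux`
  have hYX : Y ≤ X := by
    have h1 : (0 : ℝ) ≤ N 0 1 := by exact_mod_cast hN01
    have h2 := mul_nonneg hab.le h1
    rw [F.N01] at h2
    linarith
  have hmX : m ^ 2 * X ≤ l ^ 2 * Y := by
    have h1 : (toZ B * R) 0 1 = toZ B 0 0 * R 0 1 + toZ B 0 1 * R 1 1 := by
      rw [Matrix.mul_apply, Fin.sum_univ_two]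
    have h2 : (0 : ℝ) ≤ (B 0 0 : ℝ) * R 0 1 + (B 0 1 : ℝ) * R 1 1 := by
      rw [h1] at hBR
      have h3 : (0 : ℝ) ≤ ((toZ B 0 0 * R 0 1 + toZ B 0 1 * R 1 1 : ℤ) : ℝ) := by exact_mod_cast hBR
      push_cast at h3
      simpa [toZ] using h3
    have h3 := mul_nonneg hXY.le h2
    have h4 : X * Y * (c + d) * ((B 0 0 : ℝ) * R 0 1 + (B 0 1 : ℝ) * R 1 1) =
        (B 0 0 : ℝ) * (X * Y * (c + d) * R 0 1) + (B 0 1 : ℝ) * (X * Y * (c + d) * R 1 1) := by ring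
    rw [h4, F.R01, F.R11, F.B00] at h3
    have h5 : (l - (B 0 1 : ℝ) * a) * (l * Y - m * X) + (B 0 1 : ℝ) * (l * (a * Y) + m * (b * X)) =
        l ^ 2 * Y - l * m * X + ((a + b) * (B 0 1 : ℝ)) * (m * X) := by ring
    rw [h5, F.B01] at h3
    have h6 : l ^ 2 * Y - l * m * X + (l - m) * (m * X) = l ^ 2 * Y - m ^ 2 * X := by ring
    linarith
  rcases real2 hr1 hr hz hc0 hc hd0 hK1 hK2 hF1 hF2 with h1 | ⟨hd1, h1⟩
  · refine caseII_aux h hmu hR ⟨R, hB⟩ hdet hYX hmX (s := d / (l / m * (m * X / (l * Y)) * c)) ?_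
      (h1 _ rfl)
    rw [hrz, ← ha, ← hb, ← hXdef, ← hYdef, ← hcc, ← hdd]
    field_simp
  · have hd1' : 0 < d - ((1 : ℤ) : ℝ) := by push_cast; linarith
    have hc1' : 0 < c + ((1 : ℤ) : ℝ) := by push_cast; linarith
    obtain ⟨C', hE, -, hal, hbe⟩ := shiftC h hR 1 hc1' hd1'
    have hR' := hE.rel h hR
    have hdet' : 0 < (!![N 0 0, N 0 1; N 1 0 + 1 * N 0 0, N 1 1 + 1 * N 0 1] :
        Matrix (Fin 2) (Fin 2) ℤ).det := by
      rw [Matrix.det_fin_two] at hdet ⊢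
      simp only [Matrix.of_apply, Matrix.cons_val', Matrix.cons_val_zero, Matrix.cons_val_one,
        Matrix.cons_val_fin_one]
      linarith
    refine hE.lnk h (caseII_aux h hmu hR' (hE.div ⟨R, hB⟩) hdet' hYX hmX
      (s := (d - 1) / (l / m * (m * X / (l * Y)) * (c + 1))) ?_ (h1 _ rfl))
    rw [hal, hbe, hrz]
    have hc2 : 0 < c + 1 := by linarith
    have e00 : (!![N 0 0, N 0 1; N 1 0 + 1 * N 0 0, N 1 1 + 1 * N 0 1] :
        Matrix (Fin 2) (Fin 2) ℤ) 0 0 = N 0 0 := rfl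
    have e01 : (!![N 0 0, N 0 1; N 1 0 + 1 * N 0 0, N 1 1 + 1 * N 0 1] :
        Matrix (Fin 2) (Fin 2) ℤ) 0 1 = N 0 1 := rfl
    rw [e00, e01, ← ha, ← hb, ← hXdef, ← hYdef, ← hcc, ← hdd]
    push_cast
    field_simp

end Pool.Agent.DimRep.TN
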