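import Pool.Agent.Lib.MP_5f1e54_an.TN.Defs

/-!
# TN-GP: a gradual path of elementary equivalences

Everything is integral. `S = - R01 ≥ 1`, `Δ = S C11 - R00 C01 = -(B R)01` (as `B R = R N R = R C`), also `Δ = S B00 - R11 B01`.
Rows `x0, x1` of `N`, `Ae0 = (B00, B01) = R00 x0 - S x1`, `Ae1 = (B10, B11) = R10 x0 + R11 x1`.
STATE `(μ, s)` (naturals), index set `Fin 3`:
`P = ![Ae0 + μ x0 + s x1; x0; x1]` (3 x 2), `F = ![1, -μ, -s; 0, R10, R11]` (2 x 3); `F P = B`. `Obj B F P` is proved along the path.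
START: `Obj.start'`: `Obj B 1 (toZ B)`; `Obj.fwd` with `R := !![1, 0, 0; 0, R10, R11]`, `P' := P(0,0)`, gives `Obj B (F(0,0)) (P(0,0))`.
STEP `(μ, s) → (μ + 1, s)` resp. `(μ, s + 1)`: `Obj.bwd` with `R := !![1, 1, 0; 0, 1, 0; 0, 0, 1]` resp. `!![1, 0, 1; 0, 1, 0; 0, 0, 1]`
(`F(old) = F(new) R`, `P(new) = R P(old)`), the condition is `P(old) F(new) ≥ 0`.
END `(M, S)`: `Ae0 + M x0 + S x1 = (R00 + M) x0`; `Obj.fwd` with `R := !![R00 + M, 0; 1, 0; 0, 1]` (3 x 2), `P' := N`: `F(M,S) R = R`,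
condition `N F(M,S) ≥ 0`; gives `Obj B R N`; then `Lnk` as in `obj_lnk` of `TB2/Base.lean` (private there: copy it).
PATH: `μ = 0..M` with `s = 0`, then `s = 0..S` with `μ = M`, where `M = 0` if `Δ ≤ 0`, and `M = ⌈Δ / C01⌉` otherwise.
CONDITIONS. Write `h = (h0, h1)` for the first row of `P`.
(i) `s = 0`, `μ < M`: `R10 h1 - (μ+1) h0 ≥ 0` with `h = (B00 + μ N00, B01 + μ N01)`. `q(μ) = R10 (B01 + μ N01) - (μ+1)(B00 + μ N00)` is concave in
the real variable `μ`, `q(0) = R10 B01 - B00 ≥ 0`, and `q(Δ/C01) ≥ 0`: `B01 C01 + Δ N01 = S² p` and `B00 C01 + Δ N00 = S p R11` (`p = det N`;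
`B00 N01 - B01 N00 = S p`), so `C01² q(Δ/C01) = S p (S C01 R10 - R11 (C01 + Δ)) ≥ 0`. For an integer `0 ≤ μ ≤ M - 1` we have
`0 ≤ μ C01 ≤ Δ` (`(M - 1) C01 < Δ`), so `Δ q(μ) ≥ (Δ - μ C01) q(0) + μ C01 q(Δ / C01)` up to the positive factor: in integers:
`Δ C01 q(μ) = C01 (Δ - μ C01) q(0) + μ C01² q(Δ/C01) + C01 N00 μ (Δ - μ C01) Δ / C01`, all terms `≥ 0` (clear denominators as you like).
(ii) `R10 N01 - (μ+1) N00 ≥ 0` and `R10 N11 - (μ+1) N10 ≥ 0` for `μ + 1 ≤ M`: `M C01 ≤ Δ + C01` and `(Δ + C01) R11 ≤ S C01 R10`, so `M R11 ≤ S R10`;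
`R11 N01 - S N00 = C01 ≥ 0`, `R11 N11 - S N10 = C11 ≥ 0`; so `R11 (R10 N01 - M N00) ≥ R10 (R11 N01 - S N00) ≥ 0`, and `R11 > 0` (from `C01 > 0`).
(iii) `μ = M`, `s < S`: `w(s) = R11 (B01 + M N01 + s N11) - (s+1)(B00 + M N00 + s N10) ≥ 0`: concave in `s`; `w(S-1) = (R00 + M) C01 - C11 ≥ 0` and
`w(0) = R11 (B01 + M N01) - (B00 + M N00) ≥ 0`: both from the identity `(R00 + M) C01 - S C11 = R11 (B01 + M N01) - S (B00 + M N00) = M C01 - Δ ≥ 0`
and `S ≥ 1`, `C11 ≥ 0`, `B00 + M N00 ≥ 0`. For `S = 1` only `s = 0`; in general `(S-1) w(s) = (S-1-s) w(0) + s w(S-1) + (S-1) N10 s (S-1-s)`.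
(iv) `R11 N01 - (s+1) N00 ≥ C01 ≥ 0`, `R11 N11 - (s+1) N10 ≥ C11 ≥ 0` for `s + 1 ≤ S`.
(v) the column of `-μ` (`μ = M`) on the row `h(M, s)`: `R10 (B01 + M N01 + s N11) - M (B00 + M N00 + s N10) ≥ 0`: for `M = 0` clear; for `M ≥ 1` it is
`q(M-1) + (R10 N01 - M N00) + s (R10 N11 - M N10)`. The same for `s = 0`, any `μ ≤ M`.
-/

open Matrix

namespace Pool.Agent.DimRep.TN

open Pool.Agent.DimRep.TB2

/-- the functionals at the state `(μ, s)` -/
private def stF (r0 r1 μ s : ℤ) : Matrix (Fin 2) (Fin 3) ℤ := !![1, -μ, -s; 0, r0, r1]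

/-- the vectors at the state `(μ, s)` -/
private def stP (b0 b1 : ℤ) (N : Matrix (Fin 2) (Fin 2) ℤ) (μ s : ℤ) : Matrix (Fin 3) (Fin 2) ℤ :=
  !![b0 + μ * N 0 0 + s * N 1 0, b1 + μ * N 0 1 + s * N 1 1; N 0 0, N 0 1; N 1 0, N 1 1]

private theorem gp_toZ_inj {B C : Matrix (Fin 2) (Fin 2) ℕ} (h : toZ B = toZ C) : B = C := by
  ext i j
  have := congrFun (congrFun h i) j
  simpa [toZ] using this

/-- from an object with two vectors to a link -/
private theorem gp_obj_lnk {B C : Matrix (Fin 2) (Fin 2) ℕ} {F E : Matrix (Fin 2) (Fin 2) ℤ}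
    (h : Obj B F E) (hC : toZ C = E * F) (hE : E.det ≠ 0) : Lnk B C (zQ E) := by
  obtain ⟨h1, W, k, ⟨B', W', h2, h3, h4⟩, h5⟩ := h
  have hB' : B' = C := by
    apply gp_toZ_inj
    rw [hC, h2]
    rfl
  subst hB'
  have h6 := h4 2 (Equiv.refl (Fin 2))
  have h7 : Chain B B' W' := h6
  refine ⟨?_, ?_, W', k, h7, ?_⟩
  · have : (zQ E).det = ((E.det : ℤ) : ℚ) := by
      unfold zQ
      rw [Matrix.det_fin_two, Matrix.det_fin_two]
      simp only [Matrix.map_apply]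
      push_cast
      ring
    rw [this]
    exact_mod_cast hE
  · rw [← zQ_toZ, ← zQ_toZ, ← zQ_mul, ← zQ_mul, ← h1, hC, Matrix.mul_assoc]
  · rw [← zQ_toZ, ← zQ_toZ, ← zQ_mul, ← zQ_pow, ← h5, h3]
    rfl

section

variable {B : Matrix (Fin 2) (Fin 2) ℕ} {N R : Matrix (Fin 2) (Fin 2) ℤ}

/-- the start -/
private theorem gp_start (hB : toZ B = R * N) (hN : ∀ i j, 0 ≤ N i j) (h10 : 0 ≤ R 1 0) (h11 : 0 ≤ R 1 1) :
    Obj B (stF (R 1 0) (R 1 1) 0 0) (stP (B 0 0) (B 0 1) N 0 0) := by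
  have e : ∀ i j, (B i j : ℤ) = R i 0 * N 0 j + R i 1 * N 1 j := by
    intro i j
    have := congrFun (congrFun hB i) j
    rw [Matrix.mul_apply, Fin.sum_univ_two] at this
    simpa [toZ] using this
  have h := Obj.fwd (stF (R 1 0) (R 1 1) 0 0) (stP (B 0 0) (B 0 1) N 0 0) (Obj.start' (A := B)) (by
      ext i j
      fin_cases i <;> fin_cases j <;>
        simp [stF, stP, toZ, Matrix.mul_apply, Fin.sum_univ_three, e 1 0, e 1 1])
      (by
        intro i j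
        fin_cases i <;> fin_cases j <;> simp [stF, h10, h11])
      (by
        rw [Matrix.mul_one]
        intro i j
        fin_cases i <;> fin_cases j <;> simp [stP, hN])
  rwa [Matrix.one_mul] at h

/-- a step in the direction of `x0` -/
private theorem gp_step0 {μ s : ℤ} (ho : Obj B (stF (R 1 0) (R 1 1) μ s) (stP (B 0 0) (B 0 1) N μ s))
    (a0 : 0 ≤ B 0 0 + μ * N 0 0 + s * N 1 0)
    (a1 : (μ + 1) * (B 0 0 + μ * N 0 0 + s * N 1 0) ≤ R 1 0 * (B 0 1 + μ * N 0 1 + s * N 1 1))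
    (a2 : s * (B 0 0 + μ * N 0 0 + s * N 1 0) ≤ R 1 1 * (B 0 1 + μ * N 0 1 + s * N 1 1))
    (hN : ∀ i j, 0 ≤ N i j)
    (b1 : (μ + 1) * N 0 0 ≤ R 1 0 * N 0 1) (b2 : s * N 0 0 ≤ R 1 1 * N 0 1)
    (c1 : (μ + 1) * N 1 0 ≤ R 1 0 * N 1 1) (c2 : s * N 1 0 ≤ R 1 1 * N 1 1) :
    Obj B (stF (R 1 0) (R 1 1) (μ + 1) s) (stP (B 0 0) (B 0 1) N (μ + 1) s) := by
  have h := Obj.bwd (!![1, 1, 0; 0, 1, 0; 0, 0, 1] : Matrix (Fin 3) (Fin 3) ℤ)
    (stF (R 1 0) (R 1 1) (μ + 1) s) ho (by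
        ext i j
        fin_cases i <;> fin_cases j <;> simp [stF, Matrix.mul_apply, Fin.sum_univ_three])
      (by
        intro i j
        fin_cases i <;> fin_cases j <;> simp)
      (by
        intro k l
        fin_cases k <;> fin_cases l <;>
          simp [stF, stP, Matrix.mul_apply, Fin.sum_univ_two]
        · linarith
        · linarith
        · linarith
        · exact hN 0 0
        · linarith
        · linarith
        · exact hN 1 0
        · linarith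
        · linarith)
  have e2 : (!![1, 1, 0; 0, 1, 0; 0, 0, 1] : Matrix (Fin 3) (Fin 3) ℤ) * stP (B 0 0) (B 0 1) N μ s
      = stP (B 0 0) (B 0 1) N (μ + 1) s := by
    ext k l
    fin_cases k <;> fin_cases l <;>
      simp [stP, Matrix.mul_apply, Fin.sum_univ_three] <;> ring
  rwa [e2] at h

/-- a step in the direction of `x1` -/
private theorem gp_step1 {μ s : ℤ} (ho : Obj B (stF (R 1 0) (R 1 1) μ s) (stP (B 0 0) (B 0 1) N μ s))
    (a0 : 0 ≤ B 0 0 + μ * N 0 0 + s * N 1 0)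
    (a1 : μ * (B 0 0 + μ * N 0 0 + s * N 1 0) ≤ R 1 0 * (B 0 1 + μ * N 0 1 + s * N 1 1))
    (a2 : (s + 1) * (B 0 0 + μ * N 0 0 + s * N 1 0) ≤ R 1 1 * (B 0 1 + μ * N 0 1 + s * N 1 1))
    (hN : ∀ i j, 0 ≤ N i j)
    (b1 : μ * N 0 0 ≤ R 1 0 * N 0 1) (b2 : (s + 1) * N 0 0 ≤ R 1 1 * N 0 1)
    (c1 : μ * N 1 0 ≤ R 1 0 * N 1 1) (c2 : (s + 1) * N 1 0 ≤ R 1 1 * N 1 1) :
    Obj B (stF (R 1 0) (R 1 1) μ (s + 1)) (stP (B 0 0) (B 0 1) N μ (s + 1)) := by
  have h := Obj.bwd (!![1, 0, 1; 0, 1, 0; 0, 0, 1] : Matrix (Fin 3) (Fin 3) ℤ)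
    (stF (R 1 0) (R 1 1) μ (s + 1)) ho (by
        ext i j
        fin_cases i <;> fin_cases j <;> simp [stF, Matrix.mul_apply, Fin.sum_univ_three])
      (by
        intro i j
        fin_cases i <;> fin_cases j <;> simp)
      (by
        intro k l
        fin_cases k <;> fin_cases l <;>
          simp [stF, stP, Matrix.mul_apply, Fin.sum_univ_two]
        · linarith
        · linarith
        · linarith
        · exact hN 0 0
        · linarith
        · linarith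
        · exact hN 1 0
        · linarith
        · linarith)
  have e2 : (!![1, 0, 1; 0, 1, 0; 0, 0, 1] : Matrix (Fin 3) (Fin 3) ℤ) * stP (B 0 0) (B 0 1) N μ s
      = stP (B 0 0) (B 0 1) N μ (s + 1) := by
    ext k l
    fin_cases k <;> fin_cases l <;>
      simp [stP, Matrix.mul_apply, Fin.sum_univ_three] <;> ring
  rwa [e2] at h

/-- the end -/
private theorem gp_end {C : Matrix (Fin 2) (Fin 2) ℕ} {M S : ℤ} (hB : toZ B = R * N) (hC : toZ C = N * R)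
    (hdet : 0 < N.det) (hN : ∀ i j, 0 ≤ N i j) (hS : R 0 1 = - S) (hM : 0 ≤ R 0 0 + M)
    (ho : Obj B (stF (R 1 0) (R 1 1) M S) (stP (B 0 0) (B 0 1) N M S))
    (b1 : M * N 0 0 ≤ R 1 0 * N 0 1) (b2 : S * N 0 0 ≤ R 1 1 * N 0 1)
    (c1 : M * N 1 0 ≤ R 1 0 * N 1 1) (c2 : S * N 1 0 ≤ R 1 1 * N 1 1) : Lnk B C (zQ N) := by
  have e : ∀ i j, (B i j : ℤ) = R i 0 * N 0 j + R i 1 * N 1 j := by
    intro i j
    have := congrFun (congrFun hB i) j
    rw [Matrix.mul_apply, Fin.sum_univ_two] at this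
    simpa [toZ] using this
  have h := Obj.fwd (!![R 0 0 + M, 0; 1, 0; 0, 1] : Matrix (Fin 3) (Fin 2) ℤ) N ho (by
      ext i j
      fin_cases i <;> fin_cases j <;>
        simp [stP, Matrix.mul_apply, Fin.sum_univ_two, e 0 0, e 0 1, hS] <;> ring)
      (by
        intro i j
        fin_cases i <;> fin_cases j <;> simp [hM])
      (by
        intro k l
        fin_cases k <;> fin_cases l <;>
          simp [stF, Matrix.mul_apply, Fin.sum_univ_two]
        · exact hN 0 0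
        · linarith
        · linarith
        · exact hN 1 0
        · linarith
        · linarith)
  have e2 : stF (R 1 0) (R 1 1) M S * (!![R 0 0 + M, 0; 1, 0; 0, 1] : Matrix (Fin 3) (Fin 2) ℤ) = R := by
    ext k l
    fin_cases k <;> fin_cases l <;>
      simp [stF, Matrix.mul_apply, Fin.sum_univ_three, hS]
  rw [e2] at h
  exact gp_obj_lnk h hC hdet.ne'

end

/-- the core: conditions for a given `M` -/
private theorem gp_core {B C : Matrix (Fin 2) (Fin 2) ℕ} {N R : Matrix (Fin 2) (Fin 2) ℤ}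
    (hB : toZ B = R * N) (hC : toZ C = N * R) (hdet : 0 < N.det) (hN : ∀ i j, 0 ≤ N i j)
    (h00 : 0 ≤ R 0 0) (h01 : R 0 1 < 0) (h10 : 0 ≤ R 1 0) (h11 : 0 ≤ R 1 1) (M : ℕ)
    (H1 : ∀ μ : ℕ, μ < M → ((μ : ℤ) + 1) * (B 0 0 + μ * N 0 0) ≤ R 1 0 * (B 0 1 + μ * N 0 1))
    (H2 : (M : ℤ) * N 0 0 ≤ R 1 0 * N 0 1) (H2' : (M : ℤ) * N 1 0 ≤ R 1 0 * N 1 1)
    (H3 : - R 0 1 * C 1 1 ≤ (R 0 0 + M) * C 0 1) : Lnk B C (zQ N) := by
  have e : ∀ i j, (B i j : ℤ) = R i 0 * N 0 j + R i 1 * N 1 j := by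
    intro i j
    have := congrFun (congrFun hB i) j
    rw [Matrix.mul_apply, Fin.sum_univ_two] at this
    simpa [toZ] using this
  have e' : ∀ i j, (C i j : ℤ) = N i 0 * R 0 j + N i 1 * R 1 j := by
    intro i j
    have := congrFun (congrFun hC i) j
    rw [Matrix.mul_apply, Fin.sum_univ_two] at this
    simpa [toZ] using this
  have n00 := hN 0 0
  have n01 := hN 0 1
  have n10 := hN 1 0
  have n11 := hN 1 1
  have B00 : (0 : ℤ) ≤ B 0 0 := Int.natCast_nonneg _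
  have B01 : (0 : ℤ) ≤ B 0 1 := Int.natCast_nonneg _
  have C01 : (0 : ℤ) ≤ C 0 1 := Int.natCast_nonneg _
  have C11 : (0 : ℤ) ≤ C 1 1 := Int.natCast_nonneg _
  obtain ⟨S, hS⟩ : ∃ S : ℕ, R 0 1 = - (S : ℤ) := ⟨(- R 0 1).toNat, by omega⟩
  have k0 : (S : ℤ) * N 0 0 ≤ R 1 1 * N 0 1 := by
    have := e' 0 1
    rw [hS] at this
    linarith
  have k1 : (S : ℤ) * N 1 0 ≤ R 1 1 * N 1 1 := by
    have := e' 1 1
    rw [hS] at this
    linarith
  have I1 : (S : ℤ) * (B 0 0 + M * N 0 0) ≤ R 1 1 * (B 0 1 + M * N 0 1) := by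
    have h3 := H3
    rw [e' 1 1, e' 0 1, hS] at h3
    rw [e 0 0, e 0 1, hS]
    linarith
  -- the first part of the path
  have st1 : ∀ μ : ℕ, μ ≤ M → Obj B (stF (R 1 0) (R 1 1) μ 0) (stP (B 0 0) (B 0 1) N μ 0) := by
    intro μ
    induction μ with
    | zero =>
      intro _
      exact_mod_cast gp_start hB hN h10 h11
    | succ μ ih =>
      intro hμ
      have hμ' : (μ : ℤ) + 1 ≤ M := by exact_mod_cast hμ
      have hμ0 : (0 : ℤ) ≤ μ := Int.natCast_nonneg _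
      have q1 : (0 : ℤ) ≤ B 0 0 + μ * N 0 0 := by positivity
      have q2 : (0 : ℤ) ≤ R 1 1 * (B 0 1 + μ * N 0 1) := by positivity
      have q3 : (0 : ℤ) ≤ R 1 1 * N 0 1 := by positivity
      have q4 : (0 : ℤ) ≤ R 1 1 * N 1 1 := by positivity
      have q5 := mul_le_mul_of_nonneg_right hμ' n00
      have q6 := mul_le_mul_of_nonneg_right hμ' n10
      have q7 := H1 μ (by omega)
      have h := gp_step0 (ih (by omega)) (by linarith) (by linarith) (by linarith) hN (by linarith)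
        (by linarith) (by linarith) (by linarith)
      exact_mod_cast h
  -- the second part of the path
  have hv : (M : ℤ) * (B 0 0 + M * N 0 0) ≤ R 1 0 * (B 0 1 + M * N 0 1) := by
    rcases Nat.eq_zero_or_pos M with hM | hM
    · subst hM
      have : (0 : ℤ) ≤ R 1 0 * B 0 1 := by positivity
      simpa using this
    · have q7 := H1 (M - 1) (by omega)
      have q8 : ((M - 1 : ℕ) : ℤ) = M - 1 := by
        push_cast [hM]
        ring
      rw [q8] at q7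
      linarith
  have hM0 : (0 : ℤ) ≤ M := Int.natCast_nonneg _
  have st2 : ∀ s : ℕ, s ≤ S → Obj B (stF (R 1 0) (R 1 1) M s) (stP (B 0 0) (B 0 1) N M s) := by
    intro s
    induction s with
    | zero =>
      intro _
      exact_mod_cast st1 M le_rfl
    | succ s ih =>
      intro hs
      have hs' : (s : ℤ) + 1 ≤ S := by exact_mod_cast hs
      have hs0 : (0 : ℤ) ≤ s := Int.natCast_nonneg _
      have P0 : (0 : ℤ) ≤ B 0 0 + M * N 0 0 := by positivity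
      have q1 : (0 : ℤ) ≤ s * N 1 0 := by positivity
      have q2 := mul_le_mul_of_nonneg_left H2' hs0
      have q3 := mul_le_mul_of_nonneg_right hs' n00
      have q4 := mul_le_mul_of_nonneg_right hs' n10
      have q5 := mul_le_mul_of_nonneg_right hs' P0
      have q6 : (s : ℤ) * ((s + 1) * N 1 0) ≤ s * (R 1 1 * N 1 1) :=
        mul_le_mul_of_nonneg_left (by linarith) hs0
      have h := gp_step1 (ih (by omega)) (by linarith) (by linarith) (by linarith) hN H2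
        (by linarith) H2' (by linarith)
      exact_mod_cast h
  exact gp_end hB hC hdet hN hS (by linarith) (st2 S le_rfl) H2 k0 H2' k1

theorem gp {B C : Matrix (Fin 2) (Fin 2) ℕ} {N R : Matrix (Fin 2) (Fin 2) ℤ}
    (hB : toZ B = R * N) (hC : toZ C = N * R) (hdet : 0 < N.det) (hN : ∀ i j, 0 ≤ N i j)
    (h00 : 0 ≤ R 0 0) (h01 : R 0 1 < 0) (h10 : 0 ≤ R 1 0) (h11 : 0 ≤ R 1 1)
    (h : 0 ≤ (toZ B * R) 0 1 ∨ (0 < C 0 1 ∧ (B 0 0 : ℤ) ≤ R 1 0 * B 0 1 ∧
      R 1 1 * (C 0 1 - (toZ B * R) 0 1) ≤ - R 0 1 * C 0 1 * R 1 0)) :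
    Lnk B C (zQ N) := by
  have e : ∀ i j, (B i j : ℤ) = R i 0 * N 0 j + R i 1 * N 1 j := by
    intro i j
    have := congrFun (congrFun hB i) j
    rw [Matrix.mul_apply, Fin.sum_univ_two] at this
    simpa [toZ] using this
  have e' : ∀ i j, (C i j : ℤ) = N i 0 * R 0 j + N i 1 * R 1 j := by
    intro i j
    have := congrFun (congrFun hC i) j
    rw [Matrix.mul_apply, Fin.sum_univ_two] at this
    simpa [toZ] using this
  have hBR : (toZ B * R) 0 1 = R 0 0 * C 0 1 + R 0 1 * C 1 1 := by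
    have : toZ B * R = R * toZ C := by rw [hB, hC, Matrix.mul_assoc]
    rw [this, Matrix.mul_apply, Fin.sum_univ_two]
    simp [toZ]
  have n00 := hN 0 0
  have n01 := hN 0 1
  have n10 := hN 1 0
  have n11 := hN 1 1
  rcases le_or_gt 0 ((toZ B * R) 0 1) with h0 | h0
  · have z1 : (0 : ℤ) ≤ R 1 0 * N 0 1 := by positivity
    have z2 : (0 : ℤ) ≤ R 1 0 * N 1 1 := by positivity
    refine gp_core hB hC hdet hN h00 h01 h10 h11 0 (fun μ hμ => absurd hμ (Nat.not_lt_zero _))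
      (by simpa using z1) (by simpa using z2) ?_
    push_cast
    rw [hBR] at h0
    linarith
  · rcases h with h | ⟨hc, ha, hb⟩
    · exact absurd h (not_le.2 h0)
    obtain ⟨Δ, hΔ⟩ : ∃ Δ : ℕ, (toZ B * R) 0 1 = - (Δ : ℤ) := ⟨(- (toZ B * R) 0 1).toNat, by omega⟩
    have hΔ0 : (0 : ℤ) < Δ := by omega
    obtain ⟨M, hM1, hM2⟩ : ∃ M : ℕ, Δ ≤ C 0 1 * M ∧ C 0 1 * M < Δ + C 0 1 := by
      refine ⟨(Δ + C 0 1 - 1) / C 0 1, ?_, ?_⟩
      · have := Nat.lt_mul_div_succ (Δ + C 0 1 - 1) hc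
        rw [Nat.mul_add, Nat.mul_one] at this
        omega
      · have := Nat.mul_div_le (Δ + C 0 1 - 1) (C 0 1)
        omega
    have hM1' : (Δ : ℤ) ≤ C 0 1 * M := by exact_mod_cast hM1
    have hM2' : (C 0 1 : ℤ) * M < Δ + C 0 1 := by exact_mod_cast hM2
    have hc' : (0 : ℤ) < C 0 1 := by exact_mod_cast hc
    obtain ⟨S, hS⟩ : ∃ S : ℤ, R 0 1 = - S := ⟨- R 0 1, by ring⟩
    have hS0 : 0 < S := by omega
    have E01 : (C 0 1 : ℤ) = R 1 1 * N 0 1 - S * N 0 0 := by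
      rw [e' 0 1, hS]
      ring
    have E11 : (C 1 1 : ℤ) = R 1 1 * N 1 1 - S * N 1 0 := by
      rw [e' 1 1, hS]
      ring
    have C11 : (0 : ℤ) ≤ C 1 1 := Int.natCast_nonneg _
    have hdet' : N 0 0 * N 1 1 - N 0 1 * N 1 0 = N.det := (Matrix.det_fin_two N).symm
    have ED : (Δ : ℤ) = S * B 0 0 - R 1 1 * B 0 1 := by
      rw [hBR, hS, e' 0 1, e' 1 1, hS] at hΔ
      rw [e 0 0, e 0 1, hS]
      linarith
    have r11 : 0 < R 1 1 := by
      by_contra hcon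
      have : R 1 1 = 0 := le_antisymm (not_lt.1 hcon) h11
      rw [this] at E01
      have : 0 ≤ S * N 0 0 := by positivity
      linarith
    rw [hΔ, hS, neg_neg, sub_neg_eq_add] at hb
    -- `M R11 ≤ S R10`
    have hMR : (M : ℤ) * R 1 1 ≤ S * R 1 0 := by
      have h1 : R 1 1 * (C 0 1 * M) ≤ R 1 1 * (C 0 1 + Δ) :=
        mul_le_mul_of_nonneg_left (by linarith) h11
      have h2 : (C 0 1 : ℤ) * (M * R 1 1) ≤ C 0 1 * (S * R 1 0) := by linarith
      exact le_of_mul_le_mul_left h2 hc'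
    refine gp_core hB hC hdet hN h00 h01 h10 h11 M ?_ ?_ ?_ ?_
    · intro μ hμ
      have hμ0 : (0 : ℤ) ≤ μ := Int.natCast_nonneg _
      have hμ' : (μ : ℤ) + 1 ≤ M := by exact_mod_cast hμ
      have hμc : 0 ≤ (Δ : ℤ) - μ * C 0 1 := by
        have := mul_le_mul_of_nonneg_right hμ' hc'.le
        linarith
      -- `C01² q(Δ / C01)`
      have q1 : (B 0 1 : ℤ) * C 0 1 + Δ * N 0 1 = S * (S * N.det) := by
        rw [ED, E01, ← hdet', e 0 0, e 0 1, hS]
        ring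
      have q2 : (B 0 0 : ℤ) * C 0 1 + Δ * N 0 0 = R 1 1 * (S * N.det) := by
        rw [ED, E01, ← hdet', e 0 0, e 0 1, hS]
        ring
      have q3 : 0 ≤ R 1 0 * C 0 1 * (B 0 1 * C 0 1 + Δ * N 0 1)
          - (Δ + C 0 1) * (B 0 0 * C 0 1 + Δ * N 0 0) := by
        rw [q1, q2]
        have : 0 ≤ (S * N.det) * (S * C 0 1 * R 1 0 - R 1 1 * (C 0 1 + Δ)) :=
          mul_nonneg (by positivity) (by linarith)
        linarith
      have q4 : 0 ≤ (C 0 1 : ℤ) * (Δ - μ * C 0 1) * (R 1 0 * B 0 1 - B 0 0) := by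
        apply mul_nonneg (mul_nonneg hc'.le hμc)
        linarith
      have q5 := mul_nonneg hμ0 q3
      have q6 : 0 ≤ N 0 0 * μ * Δ * (Δ - μ * C 0 1) := by positivity
      have q7 : 0 ≤ ((Δ : ℤ) * C 0 1) *
          (R 1 0 * (B 0 1 + μ * N 0 1) - (μ + 1) * (B 0 0 + μ * N 0 0)) := by
        have : ((Δ : ℤ) * C 0 1) *
          (R 1 0 * (B 0 1 + μ * N 0 1) - (μ + 1) * (B 0 0 + μ * N 0 0))
          = (C 0 1 : ℤ) * (Δ - μ * C 0 1) * (R 1 0 * B 0 1 - B 0 0)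
          + μ * (R 1 0 * C 0 1 * (B 0 1 * C 0 1 + Δ * N 0 1)
          - (Δ + C 0 1) * (B 0 0 * C 0 1 + Δ * N 0 0))
          + N 0 0 * μ * Δ * (Δ - μ * C 0 1) := by ring
        rw [this]
        linarith
      have q8 := (mul_nonneg_iff_of_pos_left (mul_pos hΔ0 hc')).1 q7
      linarith
    · have h1 : R 1 1 * (M * N 0 0) ≤ R 1 1 * (R 1 0 * N 0 1) := by
        have g1 := mul_le_mul_of_nonneg_right hMR n00
        have g2 : 0 ≤ R 1 0 * (R 1 1 * N 0 1 - S * N 0 0) := mul_nonneg h10 (by linarith)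
        linarith
      exact le_of_mul_le_mul_left h1 r11
    · have h1 : R 1 1 * (M * N 1 0) ≤ R 1 1 * (R 1 0 * N 1 1) := by
        have g1 := mul_le_mul_of_nonneg_right hMR n10
        have g2 : 0 ≤ R 1 0 * (R 1 1 * N 1 1 - S * N 1 0) := mul_nonneg h10 (by linarith)
        linarith
      exact le_of_mul_le_mul_left h1 r11
    · rw [hBR] at hΔ
      linarith

end Pool.Agent.DimRep.TN
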