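import Mathlib

/-!
# TN-Real3: inequalities for case III (`z > r`)

`r > 34/5`, `q = √r > 13/5`. `hF1`: `q z c ≤ d`; `hF2`: `1 + d > r z - r z c ≥ r z - q d`, so `d (1 + q) > r z - 1`, `d > (r z - 1)/(q + 1)`.
For `z ≥ r`: `d/z > (r - 1/z)/(q+1) ≥ (r² - 1)/(r (q+1)) = (r+1)(q-1)/r` (`r = q²`), and `g := c + d > d > (r+1)(q-1)`; also `g ≥ z - 1`.
`j`: the least natural number with `c + j ≥ g/(1+r)`. If `j = 0`: impossible, as `g/(1+r) > q - 1 > 1 > c`; so `c + j < g/(1+r) + 1 ≤ 2 g/(2 + r)`, since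
`2g/(2+r) - g/(1+r) = g r/((1+r)(2+r)) ≥ (q-1) r/(r+2) ≥ 1` (`q > 13/5`). `c' = c + j`, `d' = d - j = g - c' ≥ g r/(2+r) > 0`; `u = d'/(r c')`:
`c' ≤ 2g/(2+r)` gives `u ≥ 1/2`, `c' ≥ g/(1+r)` gives `u ≤ 1`.
(L) `(1 + u/z)(1 + (u + 4/5)/z) ≤ (1 + 1/r)(1 + 9/(5 r)) ≤ (4/5)(r+1)(q-1)/r ≤ K (4/5)/z`: `(4/5)(q - 1) ≥ 1 + 9/(5 r)` for `q ≥ φ²`: at `q = 13/5` it is just
missed, so use `q ≥ φ² > 2618/1000` (`r ≥ φ⁴ > 6854/1000`): `(4/5) 1.618 = 1.2944 ≥ 1 + 1.8/6.854 = 1.2627`.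
(P) for `u ≤ w ≤ u + 4/5`: `(1 + w) (c' + d') ≤ (r-1)(d' - w c')`: divide by `c'` (`d' = r u c'`): `(1 + w)(1 + r u) ≤ (r-1)(r u - w)`; it is enough at
`w = u + 4/5` (left increasing, right decreasing): `(9/5 + u)(1 + r u) ≤ (r-1)((r-1) u - 4/5)`; the difference is concave in `u`; `u = 1/2`:
`r²/2 - (59/20) r - 1 ≥ 0`; `u = 1`: `r² - (28/5) r - 1 ≥ 0`.
(Q) `(z - 1)(w/z + 1/r)(c' + d') ≤ ...`: `(1 - 1/r)(d' - w c') g' ...`: divided by `c'`: `(z-1)(w/z + 1/r) ≤ (1 - 1/r)(r u - w) c'` with `c' = g/(1 + r u)`: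
`(z - 1)(w/z + 1/r)(1 + r u) ≤ (w + z/r)(1 + r u)`, `w ≤ u + 4/5`, `r u - w ≥ (r-1) u - 4/5`, `g ≥ d ≥ (r z - 1)/(q+1) ≥ (9/5) z`:
enough `(u + 4/5 + z/r)(1 + r u) ≤ (9/5) z (1 - 1/r)((r-1) u - 4/5)`; linear in `z`, true at `z = r` and the coefficient of `z` is positive.
-/

namespace Pool.Agent.DimRep.TN

private theorem real3_q {r : ℝ} (hr1 : 1 < r) (hr : 0 ≤ r ^ 2 - 7 * r + 1) :
    ∃ q : ℝ, q ^ 2 = r ∧ 2618 / 1000 < q ∧ 3 * q - 1 ≤ r := by
  have hq2 : (Real.sqrt r) ^ 2 = r := Real.sq_sqrt (by linarith)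
  have hq0 : 0 ≤ Real.sqrt r := Real.sqrt_nonneg r
  generalize Real.sqrt r = q at hq2 hq0
  have hq1 : 1 < q := by nlinarith
  have h1 : 0 ≤ (q ^ 2 - 3 * q + 1) * (q ^ 2 + 3 * q + 1) := by
    have : (q ^ 2 - 3 * q + 1) * (q ^ 2 + 3 * q + 1) = (q ^ 2) ^ 2 - 7 * q ^ 2 + 1 := by ring
    rw [this, hq2]
    exact hr
  have h2 : 0 ≤ q ^ 2 - 3 * q + 1 := by
    by_contra h3
    have h4 : 0 < q ^ 2 + 3 * q + 1 := by positivity
    nlinarith
  refine ⟨q, hq2, ?_, by linarith⟩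
  by_contra h3
  rw [not_lt] at h3
  nlinarith [mul_nonneg (sub_nonneg.2 hq1.le) (sub_nonneg.2 h3)]

private theorem real3_D {r u : ℝ} (hr : 6854 / 1000 < r) (hu1 : 1 / 2 ≤ u) (hu2 : u ≤ 1) :
    (9 / 5 + u) * (1 + r * u) ≤ (r - 1) * ((r - 1) * u - 4 / 5) := by
  have h1 : 0 ≤ r ^ 2 - 28 / 5 * r - 1 := by nlinarith
  have h2 : 0 ≤ r ^ 2 / 2 - 59 / 20 * r - 1 := by nlinarith
  have h3 : 0 ≤ (2 * u - 1) * (r ^ 2 - 28 / 5 * r - 1) := mul_nonneg (by linarith) h1
  have h4 : 0 ≤ (2 - 2 * u) * (r ^ 2 / 2 - 59 / 20 * r - 1) := mul_nonneg (by linarith) h2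
  have h5 : 0 ≤ r * ((u - 1 / 2) * (1 - u)) :=
    mul_nonneg (by linarith) (mul_nonneg (by linarith) (by linarith))
  have h6 : (r - 1) * ((r - 1) * u - 4 / 5) - (9 / 5 + u) * (1 + r * u) =
      (2 * u - 1) * (r ^ 2 - 28 / 5 * r - 1) + (2 - 2 * u) * (r ^ 2 / 2 - 59 / 20 * r - 1) +
        r * ((u - 1 / 2) * (1 - u)) := by ring
  linarith

private theorem real3_F {q r z : ℝ} (hq2 : q ^ 2 = r) (hq : 2618 / 1000 < q) (h3q : 3 * q - 1 ≤ r)
    (hz : r ≤ z) : (1 + q) * ((z + 1) * (z + 9 / 5)) ≤ 4 / 5 * z * (r * z - 1) := by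
  have hr0 : 6854 / 1000 < r := by linarith
  have hA : 0 < 4 / 5 * r - q - 1 := by linarith
  have hB : 0 ≤ (4 / 5 * r - q - 1) * r - (4 / 5 + 14 / 5 * (q + 1)) - 1 := by
    nlinarith [mul_pos hA (sub_pos.2 hr0)]
  have h1 : (4 / 5 * r - q - 1) * r ≤ (4 / 5 * r - q - 1) * z := mul_le_mul_of_nonneg_left hz hA.le
  have h2 : 1 ≤ (4 / 5 * r - q - 1) * z - (4 / 5 + 14 / 5 * (q + 1)) := by linarith
  have h3 : z ≤ z * ((4 / 5 * r - q - 1) * z - (4 / 5 + 14 / 5 * (q + 1))) :=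
    le_mul_of_one_le_right (by linarith) h2
  have h4 : 9 / 5 * (q + 1) ≤ z := by linarith
  have h5 : 4 / 5 * z * (r * z - 1) - (1 + q) * ((z + 1) * (z + 9 / 5)) =
      z * ((4 / 5 * r - q - 1) * z - (4 / 5 + 14 / 5 * (q + 1))) - 9 / 5 * (q + 1) := by ring
  linarith

theorem real3 {r K z c d : ℝ} (hr1 : 1 < r) (hr : 0 ≤ r ^ 2 - 7 * r + 1) (hz : r ≤ z)
    (hc : 0 < c) (hc1 : c < 1) (hd : 0 < d) (h1 : c + d ≤ K)
    (hF1 : r * (z * c) ^ 2 ≤ d ^ 2) (hF2 : r * z * (1 - c) < 1 + d) :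
    z - 1 ≤ c + d ∧ ∃ j : ℕ, ∀ c' d' u : ℝ, c' = c + j → d' = d - j → u = d' / (r * c') →
      0 < d' ∧ 0 < u ∧ (1 + u / z) * (1 + (u + 4 / 5) / z) ≤ K * ((u + 4 / 5) / z - u / z) ∧
      ∀ w : ℝ, u ≤ w → w ≤ u + 4 / 5 →
        (1 + w) * (c' + d') ≤ (r - 1) * (d' - w * c') ∧
        (z - 1) * (w / z + 1 / r) ≤ (1 - 1 / r) * (d' - w * c') := by
  obtain ⟨q, hq2, hq, h3q⟩ := real3_q hr1 hr
  have hr6 : 6854 / 1000 < r := by linarith
  have hr0 : 0 < r := by linarith
  have hz0 : 0 < z := by linarith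
  have hq0 : 0 < q := by linarith
  have hF1' : q * z * c ≤ d := by
    have h2 : (q * z * c) ^ 2 ≤ d ^ 2 := by
      have h3 : (q * z * c) ^ 2 = r * (z * c) ^ 2 := by rw [← hq2]; ring
      rw [h3]
      exact hF1
    exact (pow_le_pow_iff_left₀ (by positivity) hd.le two_ne_zero).1 h2
  have hF3 : r * z * c ≤ q * d := by
    have h2 : r * z * c = q * (q * z * c) := by rw [← hq2]; ring
    rw [h2]
    exact mul_le_mul_of_nonneg_left hF1' hq0.le
  have hF4 : r * z - 1 < d * (1 + q) := by linarith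
  have hq1 : r - 1 = (q - 1) * (q + 1) := by rw [← hq2]; ring
  constructor
  · by_contra hcon
    rw [not_le] at hcon
    have h2 : d * (1 + q) ≤ (z - 1) * (1 + q) :=
      mul_le_mul_of_nonneg_right (by linarith) (by linarith)
    have h3 : 0 ≤ z * (r - q - 1) := mul_nonneg hz0.le (by linarith)
    nlinarith
  · obtain ⟨g, hg⟩ : ∃ g, g = c + d := ⟨_, rfl⟩
    have hg1 : (q - 1) * (r + 1) < g := by
      have h2 : r * r ≤ r * z := mul_le_mul_of_nonneg_left hz hr0.le
      have h3 : (q - 1) * (r + 1) * (1 + q) = r * r - 1 := by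
        have : (q - 1) * (r + 1) * (1 + q) = (r + 1) * ((q - 1) * (q + 1)) := by ring
        rw [this, ← hq1]
        ring
      have h4 : (q - 1) * (r + 1) * (1 + q) < d * (1 + q) := by linarith
      have h5 := lt_of_mul_lt_mul_right h4 (by linarith)
      linarith
    have hg0 : 0 < g := by linarith
    have hr1' : 0 < 1 + r := by linarith
    obtain ⟨a, ha⟩ : ∃ a, a = g / (1 + r) := ⟨_, rfl⟩
    have hga : g = a * (1 + r) := by rw [ha]; field_simp
    have ha1 : q - 1 < a := by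
      rw [hga] at hg1
      have h2 : (q - 1) * (1 + r) < a * (1 + r) := by linarith
      exact lt_of_mul_lt_mul_right h2 hr1'.le
    refine ⟨⌈a - c⌉₊, ?_⟩
    have hj1 : a - c ≤ (⌈a - c⌉₊ : ℝ) := Nat.le_ceil _
    have hj2 : (⌈a - c⌉₊ : ℝ) < a - c + 1 := Nat.ceil_lt_add_one (by linarith)
    generalize (⌈a - c⌉₊ : ℕ) = j at hj1 hj2
    intro c' d' u hc' hd' hu
    have hcd : c' + d' = g := by rw [hc', hd', hg]; ring
    have hc'1 : a ≤ c' := by rw [hc']; linarith
    have hc'2 : c' < a + 1 := by rw [hc']; linarith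
    have hc'0 : 0 < c' := by linarith
    have hgc : g ≤ (1 + r) * c' := by
      rw [hga, mul_comm]
      exact mul_le_mul_of_nonneg_left hc'1 hr1'.le
    have hqr : r + 2 ≤ (q - 1) * r := by nlinarith
    have har : r + 2 ≤ a * r := hqr.trans (mul_le_mul_of_nonneg_right ha1.le hr0.le)
    have hgc2 : (2 + r) * c' ≤ 2 * g := by
      have h2 : (2 + r) * c' ≤ (2 + r) * (a + 1) := mul_le_mul_of_nonneg_left hc'2.le (by linarith)
      have h3 : 2 * g - (2 + r) * (a + 1) = a * r - (r + 2) := by rw [hga]; ring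
      linarith
    have hd'e : d' = g - c' := by linarith
    have hd'0 : 0 < d' := by nlinarith
    have hru : d' = r * u * c' := by rw [hu]; field_simp
    have hu1 : 1 / 2 ≤ u := by
      rw [hu, le_div_iff₀ (mul_pos hr0 hc'0)]
      linarith
    have hu2 : u ≤ 1 := by
      rw [hu, div_le_one (mul_pos hr0 hc'0)]
      linarith
    have hD := real3_D hr6 hu1 hu2
    have hK : g ≤ K := by rw [hg]; exact h1
    refine ⟨hd'0, by linarith, ?_, ?_⟩
    · have hF := real3_F hq2 hq h3q hz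
      have h2 : (z + u) * (z + u + 4 / 5) ≤ (z + 1) * (z + 9 / 5) :=
        mul_le_mul (by linarith) (by linarith) (by linarith) (by linarith)
      have h3 : (z + 1) * (z + 9 / 5) ≤ 4 / 5 * z * d := by
        have h4 : 4 / 5 * z * (r * z - 1) ≤ 4 / 5 * z * (d * (1 + q)) :=
          mul_le_mul_of_nonneg_left hF4.le (by positivity)
        have h5 : (z + 1) * (z + 9 / 5) * (1 + q) ≤ 4 / 5 * z * d * (1 + q) := by linarith
        exact le_of_mul_le_mul_right h5 (by linarith)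
      have h4 : 4 / 5 * z * d ≤ 4 / 5 * z * K :=
        mul_le_mul_of_nonneg_left (by linarith) (by positivity)
      have e1 : (1 + u / z) * (1 + (u + 4 / 5) / z) = (z + u) * (z + u + 4 / 5) / z ^ 2 := by
        field_simp
        ring
      have e2 : K * ((u + 4 / 5) / z - u / z) = 4 / 5 * z * K / z ^ 2 := by
        field_simp
        ring
      rw [e1, e2]
      exact div_le_div_of_nonneg_right (by linarith) (by positivity)
    · intro w hw1 hw2
      have hcd' : c' + d' = (1 + r * u) * c' := by rw [hru]; ring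
      have hdw : d' - w * c' = (r * u - w) * c' := by rw [hru]; ring
      have hrw : (r - 1) * u - 4 / 5 ≤ r * u - w := by linarith
      have h1ru : 0 < 1 + r * u := by positivity
      have hpos : 0 < (r - 1) * u - 4 / 5 := by nlinarith
      rw [hdw]
      constructor
      · rw [hcd', ← mul_assoc, ← mul_assoc]
        refine mul_le_mul_of_nonneg_right ?_ hc'0.le
        have h2 : (1 + w) * (1 + r * u) ≤ (9 / 5 + u) * (1 + r * u) :=
          mul_le_mul_of_nonneg_right (by linarith) h1ru.le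
        have h3 : (r - 1) * ((r - 1) * u - 4 / 5) ≤ (r - 1) * (r * u - w) :=
          mul_le_mul_of_nonneg_left hrw (by linarith)
        linarith
      · -- the second inequality
        have hgz : 9 / 5 * z ≤ g := by
          have h2 : 9 / 5 * z * (1 + q) ≤ r * z - 1 := by
            have h3 : 0 < r - 9 / 5 * (1 + q) - 1 / 3 := by linarith
            nlinarith [mul_pos h3 hz0]
          have h3 : 9 / 5 * z * (1 + q) ≤ d * (1 + q) := by linarith
          have h4 := le_of_mul_le_mul_right h3 (by linarith)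
          linarith
        have hw0 : 0 ≤ w := by linarith
        have h2 : (z - 1) * (w / z + 1 / r) ≤ w + z / r := by
          have h3 : (z - 1) * (w / z + 1 / r) = w - w / z + (z / r - 1 / r) := by
            field_simp
          have h4 : 0 ≤ w / z := by positivity
          have h5 : 0 ≤ 1 / r := by positivity
          linarith
        have h3 : w + z / r ≤ u + 4 / 5 + z / r := by linarith
        have h4 : (u + 4 / 5 + z / r) * (1 + r * u) ≤ (1 - 1 / r) * ((r - 1) * u - 4 / 5) * g := by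
          have hr1'' : 0 ≤ 1 - 1 / r := by
            rw [sub_nonneg, div_le_one hr0]
            exact hr1.le
          have h5 : (1 - 1 / r) * ((r - 1) * u - 4 / 5) * (9 / 5 * z) ≤
              (1 - 1 / r) * ((r - 1) * u - 4 / 5) * g :=
            mul_le_mul_of_nonneg_left hgz (mul_nonneg hr1'' hpos.le)
          refine le_trans ?_ h5
          have e1 : (u + 4 / 5 + z / r) * (1 + r * u) =
              (r * (u + 4 / 5) + z) * (1 + r * u) / r := by
            field_simp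
          have e2 : (1 - 1 / r) * ((r - 1) * u - 4 / 5) * (9 / 5 * z) =
              9 / 5 * z * ((r - 1) * ((r - 1) * u - 4 / 5)) / r := by
            field_simp
          rw [e1, e2]
          refine div_le_div_of_nonneg_right ?_ hr0.le
          have h6 : r * (u + 4 / 5) ≤ z * (u + 4 / 5) :=
            mul_le_mul_of_nonneg_right hz (by linarith)
          have h7 : (r * (u + 4 / 5) + z) * (1 + r * u) ≤ z * (9 / 5 + u) * (1 + r * u) :=
            mul_le_mul_of_nonneg_right (by linarith) h1ru.le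
          have h8 : z * ((9 / 5 + u) * (1 + r * u)) ≤ z * ((r - 1) * ((r - 1) * u - 4 / 5)) :=
            mul_le_mul_of_nonneg_left hD hz0.le
          have h9 : 0 ≤ z * ((r - 1) * ((r - 1) * u - 4 / 5)) :=
            mul_nonneg hz0.le (mul_nonneg (by linarith) hpos.le)
          linarith
        have h5 : g = (1 + r * u) * c' := by rw [← hcd, hcd']
        have h6 : (z - 1) * (w / z + 1 / r) * (1 + r * u) ≤
            (1 - 1 / r) * ((r * u - w) * c') * (1 + r * u) := by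
          have h7 : (z - 1) * (w / z + 1 / r) * (1 + r * u) ≤ (u + 4 / 5 + z / r) * (1 + r * u) :=
            mul_le_mul_of_nonneg_right (h2.trans h3) h1ru.le
          have hr1'' : 0 ≤ 1 - 1 / r := by
            rw [sub_nonneg, div_le_one hr0]
            exact hr1.le
          have h8 : (1 - 1 / r) * ((r - 1) * u - 4 / 5) * g ≤ (1 - 1 / r) * (r * u - w) * g :=
            mul_le_mul_of_nonneg_right (mul_le_mul_of_nonneg_left hrw hr1'') hg0.le
          have h9 : (1 - 1 / r) * (r * u - w) * g =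
              (1 - 1 / r) * ((r * u - w) * c') * (1 + r * u) := by rw [h5]; ring
          linarith
        exact le_of_mul_le_mul_right h6 h1ru

end Pool.Agent.DimRep.TN
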