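import Pool.Agent.Lib.MP_5f1e54_an.TN.Coord
import Pool.Agent.Lib.MP_5f1e54_an.TN.Shift
import Pool.Agent.Lib.MP_5f1e54_an.TN.GP
import Pool.Agent.Lib.MP_5f1e54_an.TN.Dual
import Pool.Agent.Lib.MP_5f1e54_an.TN.Real3

/-!
# TN-CaseIII: the next left vector of `L'` has slope `< 1/r²`

As in case II: `F := fr_of`; `l = lam`, `m = mu`, `r = l / m`, `K = a + b`, `z = m X / (l Y)`; `z > r` from `hBR` (`X Y (c+d) (B R)01 = l² Y - m² X < 0`);
`c + d ≤ K`, `hF1`, `hF2`. `real3` gives `j`; `shiftC` by `j` (`c' = c + j`, `d' = d - j`, `X`, `Y`, `B` unchanged); `exists_t` with `lo = u/z`,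
`hi = (u + 4/5)/z` gives `i`; `shiftB` by `i`. Write `a, b, c, d, R, N, ...` for the new triple (`fr_of`, `Eqv.div`, `N.det` unchanged), `g = c + d`, `w = z b / a`, so
`u ≤ w ≤ u + 4/5`, `u = d / (r c)`, and
(P) `(1 + w) g ≤ (r-1)(d - w c)`, (Q) `(z-1)(w/z + 1/r) ≤ (1 - 1/r)(d - w c)`.
`gp` with the second alternative, `C = N R` (`nr_eq`):
`N00, N11 ≥ 0`; `N01 ≥ 0` as `Y ≤ X`; `N10 ≥ 0` iff `a Y d ≤ b X c` iff `d/(r z c) ≤ b/a` iff `u ≤ w`. `R00, R11 ≥ 0`; `R01 < 0` as `l Y < m X`; `R10 ≥ 0` iff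
`m b X c ≤ l a Y d` iff `w c ≤ d`: from (P) (left side positive).
`S := -R01 ≥ 1` is an integer and `S X Y g = m X - l Y = l Y (z - 1)`, so `X Y g ≤ l Y (z - 1)`.
(1) `B00 ≤ R10 B01`: `B01 = (l-m)/(a+b)`, `B00 = (l b + m a)/(a+b)`, `R10 = l Y (a d - z b c)/(X Y g)`: enough (`X Y g ≤ l Y (z-1)`)
`(z-1)(l b + m a) ≤ (l - m)(a d - z b c)`: this is (Q) times `l a`.
(2) `R11 (C01 - (B R)01) ≤ S C01 R10`: `C01 = (l-m)/g`, `R11 = l Y (a + z b)/(X Y g)`, `-(B R)01 = (m² X - l² Y)/(X Y g) = l Y m (z - r)/(X Y g) = S m (z-r)/(z-1)`: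
after multiplication by `X Y g / (l Y)` and `g / m`: `(a + z b)((r-1) + S g (z-r)/(z-1)) ≤ S (r-1)(a d - z b c)`; as `S ≥ 1` it is enough for `S = 1`, and
`(r-1) + g (z-r)/(z-1) ≤ g` (`z - 1 ≤ g`: `g - g (z-r)/(z-1) = g (r-1)/(z-1) ≥ r - 1`), so enough `(a + z b) g ≤ (r-1)(a d - z b c)`: (P) times `a`.
`C01 > 0`: `Cls.entries`. Finally `Eqv.trans`, `Eqv.lnk`.
-/

open Matrix

namespace Pool.Agent.DimRep.TN

open Pool.Agent.DimRep.TB2

variable {t : ℕ} {D : ℤ} {B C : Matrix (Fin 2) (Fin 2) ℕ} {N R : Matrix (Fin 2) (Fin 2) ℤ}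

private theorem CaseIII_nn {G x : ℝ} {n : ℤ} (hG : 0 < G) (h : G * (n : ℝ) = x) (hx : 0 ≤ x) : 0 ≤ n := by
  have h1 : 0 ≤ G * (n : ℝ) := by rw [h]; exact hx
  have h2 : (0 : ℝ) ≤ n := by
    by_contra hc
    have := mul_neg_of_pos_of_neg hG (not_le.1 hc)
    linarith
  exact_mod_cast h2

/-- the inequalities of `gp` in coordinates -/
private theorem CaseIII_fin {l m a b c d X Y : ℝ} (F : Fr l m B C N R a b c d X Y)
    (hB : toZ B = R * N) (hC : toZ C = N * R) (hdet : 0 < N.det)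
    (hXY : Y ≤ X) (hW : l * Y < m * X) (hu : a * (Y * d) ≤ b * (X * c))
    (hg : m * X - l * Y ≤ (c + d) * (l * Y))
    (hP : m * (l * (a * Y) + m * (b * X)) * (c + d) ≤
      (l - m) * (l * (a * (Y * d)) - m * (b * (X * c))))
    (hQ : (m * X - l * Y) * (l * b + m * a) ≤ (l - m) * (l * (a * (Y * d)) - m * (b * (X * c))))
    (hC01 : 0 < C 0 1) : Lnk B C (zQ N) := by
  obtain ⟨ha, hb, hc, hd, hX, hY, fN00, fN01, fN10, fN11, -⟩ := F.toFr0
  have hm := F.m_pos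
  have hml := F.m_lt
  have hl : 0 < l := by linarith
  have hlm : 0 < l - m := by linarith
  have hab : 0 < a + b := by linarith
  have hcd : 0 < c + d := by linarith
  obtain ⟨G, hG⟩ : ∃ G, G = X * Y * (c + d) := ⟨_, rfl⟩
  have hG0 : 0 < G := by rw [hG]; positivity
  have fR00 := F.R00
  have fR01 := F.R01
  have fR10 := F.R10
  have fR11 := F.R11
  rw [← hG] at fR00 fR01 fR10 fR11
  obtain ⟨Q, hQd⟩ : ∃ Q, Q = l * (a * (Y * d)) - m * (b * (X * c)) := ⟨_, rfl⟩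
  obtain ⟨W, hWd⟩ : ∃ W, W = m * X - l * Y := ⟨_, rfl⟩
  obtain ⟨T, hTd⟩ : ∃ T, T = l * (a * Y) + m * (b * X) := ⟨_, rfl⟩
  rw [← hQd, ← hTd] at hP
  rw [← hQd, ← hWd] at hQ
  rw [← hWd] at hg
  rw [← hQd] at fR10
  rw [← hTd] at fR11
  have hT0 : 0 < T := by rw [hTd]; positivity
  have hW0 : 0 < W := by rw [hWd]; linarith
  have hQ0 : 0 < Q := by
    have h1 : 0 < m * T * (c + d) := by positivity
    have h2 : 0 < (l - m) * Q := lt_of_lt_of_le h1 hP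
    exact (mul_pos_iff_of_pos_left hlm).1 h2
  have hR01 : R 0 1 < 0 := by
    have h1 : G * (R 0 1 : ℝ) < 0 := by
      rw [fR01]
      linarith
    have h2 : (R 0 1 : ℝ) < 0 := by
      by_contra hcon
      have := mul_nonneg hG0.le (not_lt.1 hcon)
      linarith
    exact_mod_cast h2
  have hS1 : (R 0 1 : ℝ) ≤ -1 := by
    have : R 0 1 ≤ -1 := by omega
    exact_mod_cast this
  have hGW : G ≤ W := by
    have h1 : G * (R 0 1 : ℝ) ≤ G * (-1) := mul_le_mul_of_nonneg_left hS1 hG0.le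
    rw [fR01] at h1
    rw [hWd]
    linarith
  have hR10 : 0 ≤ R 1 0 := CaseIII_nn hG0 fR10 hQ0.le
  -- the entry of `B R`
  have hBRe : (toZ B * R) 0 1 = (B 0 0 : ℤ) * R 0 1 + (B 0 1 : ℤ) * R 1 1 := by
    rw [Matrix.mul_apply, Fin.sum_univ_two]
    rfl
  have hBR : G * (((toZ B * R) 0 1 : ℤ) : ℝ) = l ^ 2 * Y - m ^ 2 * X := by
    rw [hBRe]
    push_cast
    have e1 := F.B00
    have e2 := F.B01
    calc G * ((B 0 0 : ℝ) * (R 0 1 : ℝ) + (B 0 1 : ℝ) * (R 1 1 : ℝ)) =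
        (B 0 0 : ℝ) * (G * (R 0 1 : ℝ)) + (B 0 1 : ℝ) * (G * (R 1 1 : ℝ)) := by ring
      _ = (l - B 0 1 * a) * (l * Y - m * X) + (B 0 1 : ℝ) * (l * (a * Y) + m * (b * X)) := by
        rw [fR01, fR11, e1, hTd]
      _ = l ^ 2 * Y - l * m * X + m * X * ((a + b) * B 0 1) := by ring
      _ = _ := by
        rw [e2]
        ring
  refine gp hB hC hdet ?_ ?_ hR01 hR10 ?_ (Or.inr ⟨hC01, ?_, ?_⟩)
  · intro i j
    fin_cases i <;> fin_cases j
    · exact CaseIII_nn hab fN00 (by positivity)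
    · exact CaseIII_nn hab fN01 (by linarith)
    · exact CaseIII_nn hab fN10 (by linarith)
    · exact CaseIII_nn hab fN11 (by positivity)
  · exact CaseIII_nn hG0 fR00 (by positivity)
  · exact CaseIII_nn hG0 fR11 hT0.le
  · -- (1)
    have e1 := F.B00
    have e2 := F.B01
    have h1 : (l * b + m * a) ≤ (l - m) * (R 1 0 : ℝ) := by
      have h2 : G * (l * b + m * a) ≤ G * ((l - m) * (R 1 0 : ℝ)) := by
        have h3 : G * (l * b + m * a) ≤ W * (l * b + m * a) :=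
          mul_le_mul_of_nonneg_right hGW (by positivity)
        have h4 : G * ((l - m) * (R 1 0 : ℝ)) = (l - m) * Q := by
          rw [← fR10]
          ring
        rw [h4]
        exact h3.trans hQ
      exact le_of_mul_le_mul_left h2 hG0
    have h5 : (a + b) * (B 0 0 : ℝ) ≤ (a + b) * ((R 1 0 : ℝ) * (B 0 1 : ℝ)) := by
      have h6 : (a + b) * (B 0 0 : ℝ) = l * b + m * a := by
        rw [e1]
        calc (a + b) * (l - B 0 1 * a) = (a + b) * l - a * ((a + b) * B 0 1) := by ring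
          _ = _ := by
            rw [e2]
            ring
      have h7 : (a + b) * ((R 1 0 : ℝ) * (B 0 1 : ℝ)) = (l - m) * (R 1 0 : ℝ) := by
        rw [← e2]
        ring
      rw [h6, h7]
      exact h1
    have h8 := le_of_mul_le_mul_left h5 hab
    exact_mod_cast h8
  · -- (2)
    obtain ⟨V, hV⟩ : ∃ V, V = m ^ 2 * X - l ^ 2 * Y := ⟨_, rfl⟩
    have e3 := F.C01
    have h1 : G * (l - m) + V * (c + d) ≤ (c + d) * m * W := by
      have h2 : G * (l - m) ≤ (c + d) * (l * Y) * (l - m) :=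
        mul_le_mul_of_nonneg_right (hGW.trans hg) hlm.le
      have h3 : (c + d) * (l * Y) * (l - m) + V * (c + d) = (c + d) * m * W := by
        rw [hV, hWd]
        ring
      linarith
    have h4 : T * (G * (l - m) + V * (c + d)) ≤ W * ((l - m) * Q) := by
      have h5 : T * (G * (l - m) + V * (c + d)) ≤ T * ((c + d) * m * W) :=
        mul_le_mul_of_nonneg_left h1 hT0.le
      have h6 : T * ((c + d) * m * W) ≤ W * ((l - m) * Q) := by
        have := mul_le_mul_of_nonneg_left hP hW0.le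
        calc T * ((c + d) * m * W) = W * (m * T * (c + d)) := by ring
          _ ≤ _ := this
      exact h5.trans h6
    have h7 : G ^ 2 * (c + d) * ((R 1 1 : ℝ) * ((C 0 1 : ℝ) - (((toZ B * R) 0 1 : ℤ) : ℝ))) ≤
        G ^ 2 * (c + d) * (-(R 0 1 : ℝ) * (C 0 1 : ℝ) * (R 1 0 : ℝ)) := by
      have h8 : G ^ 2 * (c + d) * ((R 1 1 : ℝ) * ((C 0 1 : ℝ) - (((toZ B * R) 0 1 : ℤ) : ℝ))) =
          T * (G * (l - m) + V * (c + d)) := by
        calc G ^ 2 * (c + d) * ((R 1 1 : ℝ) * ((C 0 1 : ℝ) - (((toZ B * R) 0 1 : ℤ) : ℝ))) =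
            (G * (R 1 1 : ℝ)) * (G * ((c + d) * (C 0 1 : ℝ)) -
              (c + d) * (G * (((toZ B * R) 0 1 : ℤ) : ℝ))) := by ring
          _ = _ := by
            rw [hBR, fR11, e3, hV]
            ring
      have h9 : G ^ 2 * (c + d) * (-(R 0 1 : ℝ) * (C 0 1 : ℝ) * (R 1 0 : ℝ)) = W * ((l - m) * Q) := by
        calc G ^ 2 * (c + d) * (-(R 0 1 : ℝ) * (C 0 1 : ℝ) * (R 1 0 : ℝ)) =
            -(G * (R 0 1 : ℝ)) * ((c + d) * (C 0 1 : ℝ)) * (G * (R 1 0 : ℝ)) := by ring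
          _ = _ := by
            rw [fR01, fR10, e3, hWd]
            ring
      rw [h8, h9]
      exact h4
    have h10 := le_of_mul_le_mul_left h7 (by positivity)
    exact_mod_cast h10

private theorem CaseIII_conv {l m a b c d X Y r z w : ℝ} (hl : 0 < l) (hm : 0 < m) (ha : 0 < a)
    (hX : 0 < X) (hY : 0 < Y) (hr : r = l / m) (hz : z = m * X / (l * Y)) (hw : w = z * b / a) :
    ((1 + w) * (c + d) ≤ (r - 1) * (d - w * c) →
      m * (l * (a * Y) + m * (b * X)) * (c + d) ≤ (l - m) * (l * (a * (Y * d)) - m * (b * (X * c)))) ∧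
    ((z - 1) * (w / z + 1 / r) ≤ (1 - 1 / r) * (d - w * c) →
      (m * X - l * Y) * (l * b + m * a) ≤ (l - m) * (l * (a * (Y * d)) - m * (b * (X * c)))) := by
  have hz0 : 0 < z := by rw [hz]; positivity
  have hwe : w = m * X * b / (l * Y * a) := by
    rw [hw, hz]
    field_simp
  have hwz : w / z = b / a := by
    rw [hw]
    field_simp
  have h1r : 1 / r = m / l := by
    rw [hr, one_div_div]
  constructor
  · intro h
    have h1 := mul_le_mul_of_nonneg_right h (show 0 ≤ l * Y * a * m by positivity)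
    have e1 : (1 + w) * (c + d) * (l * Y * a * m) = m * (l * (a * Y) + m * (b * X)) * (c + d) := by
      rw [hwe]
      field_simp
    have e2 : (r - 1) * (d - w * c) * (l * Y * a * m) =
        (l - m) * (l * (a * (Y * d)) - m * (b * (X * c))) := by
      rw [hwe, hr]
      field_simp
    rw [e1, e2] at h1
    exact h1
  · intro h
    have h1 := mul_le_mul_of_nonneg_right h (show 0 ≤ l ^ 2 * Y * a by positivity)
    rw [hwz, h1r] at h1
    have e1 : (z - 1) * (b / a + m / l) * (l ^ 2 * Y * a) = (m * X - l * Y) * (l * b + m * a) := by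
      rw [hz]
      field_simp
    have e2 : (1 - m / l) * (d - w * c) * (l ^ 2 * Y * a) =
        (l - m) * (l * (a * (Y * d)) - m * (b * (X * c))) := by
      rw [hwe]
      field_simp
    rw [e1, e2] at h1
    exact h1

theorem caseIII (h : Irr t D) (hmu : 0 < mu t D) (h9 : 9 * D ≤ (t : ℤ) ^ 2) (hR : Rel t D B C N)
    (hB : toZ B = R * N) (hdet : 0 < N.det) (hb2 : B 0 1 ≤ C 0 1)
    (hN01 : 0 ≤ N 0 1) (hN : N 0 1 < N 1 1) (hc : al t D C < 1) (hR01 : R 0 1 < 0)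
    (hs : mu t D * ((N 0 0 + N 0 1 * al t D B) * al t D C) ^ 2 ≤
      lam t D * ((N 0 0 - N 0 1 * be t D B) * be t D C) ^ 2)
    (hBR : (toZ B * R) 0 1 < 0) : Lnk B C (zQ N) := by
  have F := fr_of h hmu hR hB hdet
  obtain ⟨f1, f2, -, f4⟩ := lam_facts h hR.1
  obtain ⟨X, hX⟩ : ∃ X, X = (N 0 0 : ℝ) + N 0 1 * al t D B := ⟨_, rfl⟩
  obtain ⟨Y, hY⟩ : ∃ Y, Y = (N 0 0 : ℝ) - N 0 1 * be t D B := ⟨_, rfl⟩
  rw [← hX, ← hY] at F hs
  obtain ⟨l, hl⟩ : ∃ l, l = lam t D := ⟨_, rfl⟩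
  obtain ⟨m, hm⟩ : ∃ m, m = mu t D := ⟨_, rfl⟩
  rw [← hl, ← hm] at F hs f1 f2 f4
  rw [← hm] at hmu
  obtain ⟨ha, hb, hc0, hd, hX0, hY0, fN00, fN01, fN10, fN11, fdet⟩ := F.toFr0
  have hl0 : 0 < l := by linarith
  have hab : 0 < al t D B + be t D B := by linarith
  have hcd : 0 < al t D C + be t D C := by linarith
  obtain ⟨G, hG⟩ : ∃ G, G = X * Y * (al t D C + be t D C) := ⟨_, rfl⟩
  have hG0 : 0 < G := by rw [hG]; positivity
  -- Y ≤ X
  have hXY : Y ≤ X := by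
    have h1 : (0 : ℝ) ≤ N 0 1 := by exact_mod_cast hN01
    have := mul_nonneg hab.le h1
    linarith
  -- the entry of `B R`
  have hBR' : l ^ 2 * Y < m ^ 2 * X := by
    have hBRe : (toZ B * R) 0 1 = (B 0 0 : ℤ) * R 0 1 + (B 0 1 : ℤ) * R 1 1 := by
      rw [Matrix.mul_apply, Fin.sum_univ_two]
      rfl
    have h1 : G * (((toZ B * R) 0 1 : ℤ) : ℝ) = l ^ 2 * Y - m ^ 2 * X := by
      rw [hBRe]
      push_cast
      have e1 := F.B00
      have e2 := F.B01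
      have e3 := F.R01
      have e4 := F.R11
      rw [← hG] at e3 e4
      calc G * ((B 0 0 : ℝ) * (R 0 1 : ℝ) + (B 0 1 : ℝ) * (R 1 1 : ℝ)) =
          (B 0 0 : ℝ) * (G * (R 0 1 : ℝ)) + (B 0 1 : ℝ) * (G * (R 1 1 : ℝ)) := by ring
        _ = (l - B 0 1 * al t D B) * (l * Y - m * X) +
            (B 0 1 : ℝ) * (l * (al t D B * Y) + m * (be t D B * X)) := by
          rw [e3, e4, e1]
        _ = l ^ 2 * Y - l * m * X + m * X * ((al t D B + be t D B) * B 0 1) := by ring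
        _ = _ := by
          rw [e2]
          ring
    have h2 : (((toZ B * R) 0 1 : ℤ) : ℝ) < 0 := by exact_mod_cast hBR
    have h3 := mul_neg_of_pos_of_neg hG0 h2
    linarith
  obtain ⟨r, hr⟩ : ∃ r, r = l / m := ⟨_, rfl⟩
  obtain ⟨z, hz⟩ : ∃ z, z = m * X / (l * Y) := ⟨_, rfl⟩
  have hr1 : 1 < r := by rw [hr, one_lt_div hmu]; exact f4
  have hr0 : 0 < r := by linarith
  have hz0 : 0 < z := by rw [hz]; positivity
  have hrz : r < z := by
    rw [hr, hz, div_lt_div_iff₀ hmu (by positivity)]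
    nlinarith
  have hr2 : 0 ≤ r ^ 2 - 7 * r + 1 := by
    have h1 : 9 * (D : ℝ) ≤ (t : ℝ) ^ 2 := by exact_mod_cast h9
    rw [← f1, ← f2] at h1
    have e : r ^ 2 - 7 * r + 1 = ((l + m) ^ 2 - 9 * (l * m)) / m ^ 2 := by
      rw [hr]
      field_simp
      ring
    rw [e]
    exact div_nonneg (by linarith) (by positivity)
  have hK : al t D C + be t D C ≤ al t D B + be t D B := by
    have e1 := F.B01
    have e2 := F.C01
    have e3 : (B 0 1 : ℝ) ≤ C 0 1 := by exact_mod_cast hb2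
    have e4 : (1 : ℝ) ≤ B 0 1 := by exact_mod_cast (hR.1.entries h).1
    by_contra hcon
    rw [not_le] at hcon
    have h1 : (al t D B + be t D B) * (B 0 1 : ℝ) < (al t D C + be t D C) * (B 0 1 : ℝ) :=
      mul_lt_mul_of_pos_right hcon (by linarith)
    have h2 : (al t D C + be t D C) * (B 0 1 : ℝ) ≤ (al t D C + be t D C) * (C 0 1 : ℝ) :=
      mul_le_mul_of_nonneg_left e3 hcd.le
    linarith
  have hF1 : r * (z * al t D C) ^ 2 ≤ be t D C ^ 2 := by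
    have e : r * (z * al t D C) ^ 2 = m * (X * al t D C) ^ 2 / (l * Y ^ 2) := by
      rw [hr, hz]
      field_simp
    rw [e, div_le_iff₀ (by positivity)]
    calc m * (X * al t D C) ^ 2 ≤ l * (Y * be t D C) ^ 2 := hs
      _ = _ := by ring
  have hF2 : r * z * (1 - al t D C) < 1 + be t D C := by
    have e : r * z = X / Y := by
      rw [hr, hz]
      field_simp
    have h1 : (N 0 1 : ℝ) < N 1 1 := by exact_mod_cast hN
    have h2 := mul_lt_mul_of_pos_left h1 hab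
    rw [fN01, fN11] at h2
    rw [e, div_mul_eq_mul_div, div_lt_iff₀ hY0]
    nlinarith
  obtain ⟨hzg, j, hj⟩ := real3 hr1 hr2 hrz.le hc0 hc hd hK hF1 hF2
  obtain ⟨hd'0, hu0, hL, hPQ⟩ := hj (al t D C + j) (be t D C - j) _ rfl rfl rfl
  obtain ⟨u, hu⟩ : ∃ u, u = (be t D C - j) / (r * (al t D C + j)) := ⟨_, rfl⟩
  rw [← hu] at hu0 hL hPQ
  have hj0 : (0 : ℝ) ≤ j := Nat.cast_nonneg j
  have hc'0 : 0 < al t D C + j := by linarith
  obtain ⟨C', e1, hC'1, hC'a, hC'b⟩ := shiftC h hR (j : ℤ)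
    (by
      push_cast
      exact hc'0)
    (by
      push_cast
      exact hd'0)
  have hR1 := Eqv.rel h hR e1
  obtain ⟨i, hi1, hi2, hi3, hi4⟩ := exists_t ha hb (lo := u / z) (hi := (u + 4 / 5) / z) (by positivity)
    (by
      apply div_lt_div_of_pos_right _ hz0
      linarith)
    (by exact hL)
  obtain ⟨B', e2, hB'1, hB'a, hB'b⟩ := shiftB h hR1 i hi1 hi2
  have e3 := Eqv.trans h e1 e2
  refine Eqv.lnk h e3 ?_
  have hR2 := Eqv.rel h hR e3
  obtain ⟨R', hB2⟩ := Eqv.div e3 ⟨R, hB⟩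
  -- the new matrix
  obtain ⟨N2, hN2⟩ : ∃ N2 : Matrix (Fin 2) (Fin 2) ℤ, N2 =
    !![(!![N 0 0, N 0 1; N 1 0 + (j : ℤ) * N 0 0, N 1 1 + (j : ℤ) * N 0 1] : Matrix (Fin 2) (Fin 2) ℤ) 0 0 -
        i * (!![N 0 0, N 0 1; N 1 0 + (j : ℤ) * N 0 0, N 1 1 + (j : ℤ) * N 0 1] : Matrix (Fin 2) (Fin 2) ℤ) 0 1,
      (!![N 0 0, N 0 1; N 1 0 + (j : ℤ) * N 0 0, N 1 1 + (j : ℤ) * N 0 1] : Matrix (Fin 2) (Fin 2) ℤ) 0 1;
      (!![N 0 0, N 0 1; N 1 0 + (j : ℤ) * N 0 0, N 1 1 + (j : ℤ) * N 0 1] : Matrix (Fin 2) (Fin 2) ℤ) 1 0 -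
        i * (!![N 0 0, N 0 1; N 1 0 + (j : ℤ) * N 0 0, N 1 1 + (j : ℤ) * N 0 1] : Matrix (Fin 2) (Fin 2) ℤ) 1 1,
      (!![N 0 0, N 0 1; N 1 0 + (j : ℤ) * N 0 0, N 1 1 + (j : ℤ) * N 0 1] : Matrix (Fin 2) (Fin 2) ℤ) 1 1] :=
    ⟨_, rfl⟩
  rw [← hN2] at hR2 hB2 ⊢
  have n00 : N2 0 0 = N 0 0 - i * N 0 1 := by rw [hN2]; rfl
  have n01 : N2 0 1 = N 0 1 := by rw [hN2]; rfl
  have n10 : N2 1 0 = N 1 0 + (j : ℤ) * N 0 0 - i * (N 1 1 + (j : ℤ) * N 0 1) := by rw [hN2]; rfl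
  have n11 : N2 1 1 = N 1 1 + (j : ℤ) * N 0 1 := by rw [hN2]; rfl
  have hdet2 : 0 < N2.det := by
    have : N2.det = N.det := by
      rw [Matrix.det_fin_two, Matrix.det_fin_two, n00, n01, n10, n11]
      ring
    rw [this]
    exact hdet
  have F2 := fr_of h (by rw [← hm]; exact hmu) hR2 hB2 hdet2
  have hX2 : (N2 0 0 : ℝ) + N2 0 1 * al t D B' = X := by
    rw [n00, n01, hB'a, hX]
    push_cast
    ring
  have hY2 : (N2 0 0 : ℝ) - N2 0 1 * be t D B' = Y := by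
    rw [n00, n01, hB'b, hY]
    push_cast
    ring
  rw [hX2, hY2, ← hl, ← hm] at F2
  -- new coordinates
  obtain ⟨a', ha'⟩ : ∃ a', a' = al t D B' := ⟨_, rfl⟩
  obtain ⟨b', hb'⟩ : ∃ b', b' = be t D B' := ⟨_, rfl⟩
  obtain ⟨c', hc'⟩ : ∃ c', c' = al t D C' := ⟨_, rfl⟩
  obtain ⟨d', hd'⟩ : ∃ d', d' = be t D C' := ⟨_, rfl⟩
  rw [← ha', ← hb', ← hc', ← hd'] at F2
  rw [← ha'] at hB'a
  rw [← hb'] at hB'b
  rw [← hc', Int.cast_natCast] at hC'a
  rw [← hd', Int.cast_natCast] at hC'b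
  rw [← hC'a, ← hC'b] at hPQ hu
  rw [← hB'a, ← hB'b] at hi3 hi4
  rw [← hB'a] at hi1
  rw [← hC'a] at hc'0
  have hlY : 0 < l * Y := by positivity
  obtain ⟨w, hw⟩ : ∃ w, w = z * b' / a' := ⟨_, rfl⟩
  have huw : u ≤ w := by
    rw [hw, le_div_iff₀ hi1]
    have := mul_le_mul_of_nonneg_left hi3 hz0.le
    calc u * a' = z * (u / z * a') := by field_simp
      _ ≤ _ := this
  have hwu : w ≤ u + 4 / 5 := by
    rw [hw, div_le_iff₀ hi1]
    have := mul_le_mul_of_nonneg_left hi4 hz0.le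
    calc z * b' ≤ z * ((u + 4 / 5) / z * a') := this
      _ = _ := by field_simp
  obtain ⟨hP, hQ⟩ := hPQ w huw hwu
  obtain ⟨cv1, cv2⟩ := CaseIII_conv (l := l) (m := m) (a := a') (b := b') (c := c') (d := d') (X := X) (Y := Y)
    hl0 hmu hi1 hX0 hY0 hr hz hw
  refine CaseIII_fin F2 hB2 (nr_eq hR2 hB2) hdet2 hXY ?_ ?_ ?_ (cv1 hP) (cv2 hQ) ?_
  · -- l Y < m X
    have h1 : 1 < z := by linarith
    rw [hz, one_lt_div hlY] at h1
    exact h1
  · -- u ≤ w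
    rw [hu, hw, hr, hz, div_le_div_iff₀ (by positivity) hi1] at huw
    have h1 : l / m * c' = l * c' / m := by ring
    have h2 := mul_le_mul_of_nonneg_left huw (show 0 ≤ Y * m by positivity)
    have e1 : Y * m * (d' * a') = m * (a' * (Y * d')) := by ring
    have e2 : Y * m * (m * X / (l * Y) * b' * (l / m * c')) = m * (b' * (X * c')) := by
      field_simp
    rw [e1, e2] at h2
    exact le_of_mul_le_mul_left h2 hmu
  · -- z - 1 ≤ g
    have h1 : c' + d' = al t D C + be t D C := by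
      rw [hC'a, hC'b]
      ring
    rw [h1]
    have h2 := mul_le_mul_of_nonneg_right hzg hlY.le
    have e1 : (z - 1) * (l * Y) = m * X - l * Y := by
      rw [hz]
      field_simp
    rw [e1] at h2
    exact h2
  · rw [hC'1]
    exact (hR.2.1.entries h).1

end Pool.Agent.DimRep.TN
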