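import Pool.Agent.Lib.MP_5f1e54_an.TN.Cross
import Pool.Agent.Lib.MP_5f1e54_an.TN.CaseI
import Pool.Agent.Lib.MP_5f1e54_an.TN.CaseII
import Pool.Agent.Lib.MP_5f1e54_an.TN.CaseIII

/-!
# TN-CaseA: the smallest off-diagonal entry is `B01`

`cross`: `(B, C', N')`, `R'` by `Eqv.div`; `MinAt t D (B 0 1) C'` by `minAt_rel` with the `F` of `Eqv`; so `B01 ≤ B10`, `B01 ≤ C'01`, `B01 ≤ C'10`
(`MinAt` with `Rel.refl`). Rename. If `0 ≤ R01`: `caseI`. Let `R01 < 0`. If `hs`: `caseII` or `caseIII`.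
Otherwise `l (Y d)² < m (X c)²`. `mv_FU'` (`rho C 1 < rho C 0` from `al C < 1`): `(B, C1, N1)`, `N1 = !![N00 - N10, N01 - N11; N10, N11]`, `det N1 = det N`,
`R1` by `Eqv.div`; `R1 * N1 = toZ B = R * N` and `N1 = !![1, -1; 0, 1] * N` give `R1 = R * !![1, 1; 0, 1]`: `R1_00 = R00`, `R1_01 = R00 + R01`,
`R1_10 = R10`, `R1_11 = R10 + R11`. `Fr` for `(B, C1, N1, R1)`: coordinates `X1 = X - X c`, `Y1 = Y + Y d`, `X1 c1 = X c`, `Y1 d1 = Y d`,
`X1 Y1 (c1 + d1) = X Y (c + d) = det N (a + b) =: G`.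
New triple `(dg B, dg C1, dg R1)`, with `dg N1` in the place of `R`: `Rel` by `rel_sd`, `rel_dg`; `toZ (dg B) = dg (toZ B) = dg N1 * dg R1` (`dg_mul`);
`det (dg R1) = det R1 > 0` (`det R1 det N1 = det B = D = l m > 0`).
Hypotheses of `caseII`/`caseIII` for it: `(dg B)01 = B01 ≤ C1_01 = (dg C1)01`, `≤ C1_10 = (dg C1)10` (`MinAt`). `(dg R1)01 = R1_01 ≥ 0`:
`G R1_01 = l Y1 - m X1 > 0` because `X1 < Y1` (`N01 < N11`). `(dg R1)01 = R1_01 < R1_00 = (dg R1)11` as `R01 < 0`. `al (dg C1) = be C1 = d1 = d/(1+d) < 1`.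
`(dg N1)01 = N1_01 = N01 - N11 < 0`. `hs`: `al (dg B) = b`, `be (dg B) = a`; `Fr0` for the new triple: `X' c' = (dg R1)10 + (dg R1)11 b = R1_10 + R1_00 b`,
`Y' d' = R1_00 a - R1_10`; `G R1_00 = l Y d + m X c`, `G R1_10 = l a Y d - m b X c`: so `G X' c' = l (a+b) Y d`, `G Y' d' = m (a+b) X c`, and `hs` for the
new triple is `m (l Y d)² ≤ l (m X c)²`, i.e. `l (Y d)² ≤ m (X c)²`.
Result: `Lnk (dg B) (dg C1) (zQ (dg R1))`; `lnk_dg`: `Lnk C1 B (zQ R1)`; `lnk_sd`: `Lnk B C1 (zQ N1)`; `Eqv.lnk`.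
-/

open Matrix

namespace Pool.Agent.DimRep.TN

open Pool.Agent.DimRep.TB2

variable {t : ℕ} {D : ℤ} {B C : Matrix (Fin 2) (Fin 2) ℕ} {N R : Matrix (Fin 2) (Fin 2) ℤ}

private theorem al_dg (t : ℕ) (D : ℤ) (B : Matrix (Fin 2) (Fin 2) ℕ) : al t D (dg B) = be t D B := rfl

private theorem be_dg (t : ℕ) (D : ℤ) (B : Matrix (Fin 2) (Fin 2) ℕ) : be t D (dg B) = al t D B := rfl

private theorem toZ_dg (B : Matrix (Fin 2) (Fin 2) ℕ) : toZ (dg B) = dg (toZ B) := by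
  ext i j
  fin_cases i <;> fin_cases j <;> rfl

private theorem det_dg (M : Matrix (Fin 2) (Fin 2) ℤ) : (dg M).det = M.det := by
  rw [Matrix.det_fin_two, Matrix.det_fin_two]
  show M 1 1 * M 0 0 - M 0 1 * M 1 0 = _
  ring

private theorem caseA_two (h : Irr t D) (hmu : 0 < mu t D) (h9 : 9 * D ≤ (t : ℤ) ^ 2)
    (hR : Rel t D B C N) (hB : toZ B = R * N) (hdet : 0 < N.det) (hb2 : B 0 1 ≤ C 0 1)
    (hb3 : B 0 1 ≤ C 1 0) (hN01 : 0 ≤ N 0 1) (hN : N 0 1 < N 1 1) (hc : al t D C < 1) (hR01 : R 0 1 < 0)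
    (hs : mu t D * ((N 0 0 + N 0 1 * al t D B) * al t D C) ^ 2 ≤
      lam t D * ((N 0 0 - N 0 1 * be t D B) * be t D C) ^ 2) : Lnk B C (zQ N) := by
  rcases le_or_gt 0 ((toZ B * R) 0 1) with hBR | hBR
  · exact caseII h hmu h9 hR hB hdet hb2 hb3 hN01 hN hc hR01 hs hBR
  · exact caseIII h hmu h9 hR hB hdet hb2 hN01 hN hc hR01 hs hBR

private theorem caseA_aux (h : Irr t D) (hmu : 0 < mu t D) (h9 : 9 * D ≤ (t : ℤ) ^ 2)
    (hR : Rel t D B C N) (hB : toZ B = R * N) (hdet : 0 < N.det) (hm1 : MinAt t D (B 0 1) B)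
    (hm2 : MinAt t D (B 0 1) C) (hN01 : 0 ≤ N 0 1) (hN : N 0 1 < N 1 1) (hc : al t D C < 1) :
    Lnk B C (zQ N) := by
  obtain ⟨-, hb1⟩ := hm1 B 1 1 (Rel.refl h hR.1) (by simp)
  obtain ⟨hb2, hb3⟩ := hm2 C 1 1 (Rel.refl h hR.2.1) (by simp)
  rcases le_or_gt 0 (R 0 1) with hR01 | hR01
  · exact caseI h hmu h9 hR hB hdet hb1 hb2 hb3 hN01 hc hR01
  by_cases hs : mu t D * ((N 0 0 + N 0 1 * al t D B) * al t D C) ^ 2 ≤
      lam t D * ((N 0 0 - N 0 1 * be t D B) * be t D C) ^ 2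
  · exact caseA_two h hmu h9 hR hB hdet hb2 hb3 hN01 hN hc hR01 hs
  push Not at hs
  -- the dual triple
  have hC01 : (0 : ℝ) < C 0 1 := by
    have := (hR.2.1.entries h).1
    exact_mod_cast this
  have hρ : rho t D C 1 < rho t D C 0 := by
    show lam t D - C 0 0 < (C 0 1 : ℝ)
    have h1 : (lam t D - C 0 0) / C 0 1 < 1 := hc
    rwa [div_lt_one hC01] at h1
  obtain ⟨C1, hE1⟩ := mv_FU' h hR hρ
  set N1 : Matrix (Fin 2) (Fin 2) ℤ := !![N 0 0 - N 1 0, N 0 1 - N 1 1; N 1 0, N 1 1] with hN1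
  set R1 : Matrix (Fin 2) (Fin 2) ℤ := !![R 0 0, R 0 0 + R 0 1; R 1 0, R 1 0 + R 1 1] with hR1d
  have hRel1 : Rel t D B C1 N1 := Eqv.rel h hR hE1
  have hdet1 : N1.det = N.det := by
    rw [Matrix.det_fin_two, Matrix.det_fin_two]
    show (N 0 0 - N 1 0) * N 1 1 - (N 0 1 - N 1 1) * N 1 0 = _
    ring
  have hdet1' : 0 < N1.det := by rw [hdet1]; exact hdet
  have hB1 : toZ B = R1 * N1 := by
    rw [hB]
    ext i j
    fin_cases i <;> fin_cases j <;> simp [hR1d, hN1, Matrix.mul_apply, Fin.sum_univ_two] <;> ring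
  have hm2' : MinAt t D (B 0 1) C1 := by
    obtain ⟨E, E', F, F', hE, hEE, hF, hFF, -⟩ := hE1
    exact minAt_rel h hm2 hF hFF
  obtain ⟨hb2', hb3'⟩ := hm2' C1 1 1 (Rel.refl h hRel1.2.1) (by simp)
  have F := fr_of h hmu hR hB hdet
  have F1 := fr_of h hmu hRel1 hB1 hdet1'
  have hF0 := F.toFr0
  have hF10 := F1.toFr0
  -- abbreviations
  set a := al t D B with ha
  set b := be t D B with hb
  set c := al t D C with hcd
  set d := be t D C with hdd
  set c1 := al t D C1 with hc1d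
  set d1 := be t D C1 with hd1d
  set l := lam t D with hl
  set m := mu t D with hm
  set X := (N 0 0 : ℝ) + N 0 1 * a with hX
  set Y := (N 0 0 : ℝ) - N 0 1 * b with hY
  set X1 := (N1 0 0 : ℝ) + N1 0 1 * a with hX1
  set Y1 := (N1 0 0 : ℝ) - N1 0 1 * b with hY1
  have e00 : (N1 0 0 : ℝ) = N 0 0 - N 1 0 := by
    simp [hN1]
  have e01 : (N1 0 1 : ℝ) = N 0 1 - N 1 1 := by
    simp [hN1]
  have e10 : (N1 1 0 : ℝ) = N 1 0 := by
    simp [hN1]
  have e11 : (N1 1 1 : ℝ) = N 1 1 := by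
    simp [hN1]
  have hab : 0 < a + b := add_pos hF0.a_pos hF0.b_pos
  have hXc : (N 1 0 : ℝ) + N 1 1 * a = X * c := by
    have g1 := hF0.N10
    have g2 := hF0.N11
    have : (a + b) * ((N 1 0 : ℝ) + N 1 1 * a) = (a + b) * (X * c) := by
      linear_combination g1 + a * g2
    exact mul_left_cancel₀ hab.ne' this
  have hYd : (N 1 0 : ℝ) - N 1 1 * b = -(Y * d) := by
    have g1 := hF0.N10
    have g2 := hF0.N11
    have : (a + b) * ((N 1 0 : ℝ) - N 1 1 * b) = (a + b) * (-(Y * d)) := by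
      linear_combination g1 - b * g2
    exact mul_left_cancel₀ hab.ne' this
  have hXc1 : X1 * c1 = X * c := by
    have g1 := hF10.N10
    have g2 := hF10.N11
    rw [e10] at g1
    rw [e11] at g2
    have : (a + b) * (X1 * c1) = (a + b) * (X * c) := by
      rw [← hXc]
      linear_combination -g1 - a * g2
    exact mul_left_cancel₀ hab.ne' this
  have hYd1 : Y1 * d1 = Y * d := by
    have g1 := hF10.N10
    have g2 := hF10.N11
    rw [e10] at g1
    rw [e11] at g2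
    have : (a + b) * (Y1 * d1) = (a + b) * (Y * d) := by
      have g3 : (a + b) * (Y * d) = -((a + b) * ((N 1 0 : ℝ) - N 1 1 * b)) := by
        rw [hYd]
        ring
      rw [g3]
      linear_combination g1 - b * g2
    exact mul_left_cancel₀ hab.ne' this
  have hYY : Y1 = Y + Y * d := by
    have g3 : Y * d = -((N 1 0 : ℝ) - N 1 1 * b) := by rw [hYd]; ring
    rw [g3, hY1, hY, e00, e01]
    ring
  have hYpos := hF0.Y_pos
  have hXpos := hF0.X_pos
  have hdpos := hF0.d_pos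
  have hcpos := hF0.c_pos
  have hY1pos := hF10.Y_pos
  have hX1pos := hF10.X_pos
  have hd1pos := hF10.d_pos
  have hc1pos := hF10.c_pos
  have hlm := F.m_lt
  have hlpos : 0 < l := lt_trans hmu hlm
  -- `N1_01 < 0`
  have hN1neg : N1 0 1 < 0 := by
    have : N1 0 1 = N 0 1 - N 1 1 := by simp [hN1]
    omega
  have hXY1 : X1 < Y1 := by
    have g1 := hF10.N01
    have g2 : (N1 0 1 : ℝ) < 0 := by exact_mod_cast hN1neg
    nlinarith
  have hd1 : d1 < 1 := by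
    have g1 : Y1 * d1 < Y1 * 1 := by
      rw [hYd1, hYY]
      linarith
    exact lt_of_mul_lt_mul_left g1 hY1pos.le
  set G := X1 * Y1 * (c1 + d1) with hG
  have hGpos : 0 < G := mul_pos (mul_pos hX1pos hY1pos) (add_pos hc1pos hd1pos)
  have f01 : R1 0 1 = R 0 0 + R 0 1 := by simp [hR1d]
  have f00 : R1 0 0 = R 0 0 := by simp [hR1d]
  have hR101 : 0 ≤ R1 0 1 := by
    have g1 := F1.R01
    have g2 : 0 < l * Y1 - m * X1 := by nlinarith
    rw [← g1] at g2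
    have g3 : (0 : ℝ) < (R1 0 1 : ℝ) := by
      by_contra hno
      push Not at hno
      have : X1 * Y1 * (c1 + d1) * (R1 0 1 : ℝ) ≤ 0 := mul_nonpos_of_nonneg_of_nonpos hGpos.le hno
      linarith
    have g4 : 0 < R1 0 1 := by exact_mod_cast g3
    exact g4.le
  -- the determinant of `R1`
  have hdetR1 : 0 < R1.det := by
    have g1 : (toZ B).det = D := by
      rw [Matrix.det_fin_two]
      show (B 0 0 : ℤ) * B 1 1 - B 0 1 * B 1 0 = D
      have := hR.1.2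
      linarith
    have g2 : R1.det * N1.det = D := by
      rw [← Matrix.det_mul, ← hB1, g1]
    have g3 : 0 < D := by
      have g4 := (lam_facts h hR.1).2.1
      have g5 : (0 : ℝ) < (D : ℝ) := by
        rw [← g4]
        exact mul_pos hlpos hmu
      exact_mod_cast g5
    by_contra hno
    push Not at hno
    have := mul_nonpos_of_nonpos_of_nonneg hno hdet1'.le
    omega
  have hrel2 : Rel t D (dg B) (dg C1) (dg R1) := rel_dg h (rel_sd h hRel1 hB1)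
  have hB2 : toZ (dg B) = dg N1 * dg R1 := by
    rw [toZ_dg, hB1, dg_mul]
  have hL : Lnk (dg B) (dg C1) (zQ (dg R1)) := by
    refine caseA_two h hmu h9 hrel2 hB2 (by rw [det_dg]; exact hdetR1) hb2' hb3' hR101 ?_ hd1
      hN1neg ?_
    · show R1 0 1 < R1 0 0
      rw [f01, f00]
      omega
    · show m * (((R1 1 1 : ℝ) + (R1 0 1 : ℝ) * b) * d1) ^ 2 ≤
        l * (((R1 1 1 : ℝ) - (R1 0 1 : ℝ) * a) * c1) ^ 2
      have g1 := F1.R01
      have g2 := F1.R11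
      have k1 : G * (((R1 1 1 : ℝ) + (R1 0 1 : ℝ) * b) * d1) = l * (a + b) * (Y * d) := by
        rw [← hYd1, hG]
        linear_combination d1 * g2 + b * d1 * g1
      have k2 : G * (((R1 1 1 : ℝ) - (R1 0 1 : ℝ) * a) * c1) = m * (a + b) * (X * c) := by
        rw [← hXc1, hG]
        linear_combination c1 * g2 - a * c1 * g1
      have k3 : G ^ 2 * (m * (((R1 1 1 : ℝ) + (R1 0 1 : ℝ) * b) * d1) ^ 2) ≤
          G ^ 2 * (l * (((R1 1 1 : ℝ) - (R1 0 1 : ℝ) * a) * c1) ^ 2) := by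
        have e1 : G ^ 2 * (m * (((R1 1 1 : ℝ) + (R1 0 1 : ℝ) * b) * d1) ^ 2) =
            m * (l * (a + b) * (Y * d)) ^ 2 := by
          rw [← k1]
          ring
        have e2 : G ^ 2 * (l * (((R1 1 1 : ℝ) - (R1 0 1 : ℝ) * a) * c1) ^ 2) =
            l * (m * (a + b) * (X * c)) ^ 2 := by
          rw [← k2]
          ring
        rw [e1, e2]
        have e3 : l * (m * (a + b) * (X * c)) ^ 2 - m * (l * (a + b) * (Y * d)) ^ 2 =
            l * m * (a + b) ^ 2 * (m * (X * c) ^ 2 - l * (Y * d) ^ 2) := by ring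
        have e4 : 0 ≤ l * m * (a + b) ^ 2 * (m * (X * c) ^ 2 - l * (Y * d) ^ 2) := by
          refine mul_nonneg (by positivity) ?_
          linarith
        linarith
      exact le_of_mul_le_mul_left k3 (by positivity)
  exact Eqv.lnk h hE1 (lnk_sd h hRel1 hB1 (lnk_dg hL))

theorem caseA (h : Irr t D) (hmu : 0 < mu t D) (h9 : 9 * D ≤ (t : ℤ) ^ 2) (hR : Rel t D B C N)
    (hB : toZ B = R * N) (hdet : 0 < N.det) (hm1 : MinAt t D (B 0 1) B) (hm2 : MinAt t D (B 0 1) C) :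
    Lnk B C (zQ N) := by
  obtain ⟨C', N', hE, hdet', h1, h2, h3⟩ := cross h hR hdet
  have hR' : Rel t D B C' N' := Eqv.rel h hR hE
  obtain ⟨R', hB'⟩ := Eqv.div hE ⟨R, hB⟩
  have hm2' : MinAt t D (B 0 1) C' := by
    obtain ⟨E, E', F, F', hE', hEE, hF, hFF, -⟩ := hE
    exact minAt_rel h hm2 hF hFF
  exact Eqv.lnk h hE (caseA_aux h hmu h9 hR' hB' (by rw [hdet']; exact hdet) hm1 hm2' h1 h2 h3)

end Pool.Agent.DimRep.TN
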