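import Pool.Agent.Lib.MP_5f1e54_an.TN.Defs

/-!
# TN-Coord: coordinates

`a = al B`, `b = be B`: positive (`Cls.lam_lt`, `Cls.entries`), `B01 (a + b) = 2 l - t = l - m`, `B01² a b = (l - B00)(l - B11) = B01 B10`.
`X = N00 + N01 a`, `Y = N00 - N01 b` (so `X - Y = N01 (a + b)`, `b X + a Y = (a + b) N00`). `Rel.eq_rho`: `N rho B = κ rho C`,
`rho B = B01 (1, a)`, `rho C = C01 (1, c)`: `X = κ C01 / B01 > 0`, `N10 + N11 a = c X`. The same for the eigenvector of `m`: from `N B = C N`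
and `B (1, -b)ᵀ = m (1, -b)ᵀ`: the vector `w = N (1, -b)ᵀ = (Y, N10 - N11 b)` has `C w = m w`, so `C01 w1 = (m - C00) w0 = - C01 d w0`,
`N10 - N11 b = - d Y`. `det N (a + b) = X (Y d) + (X c) Y`: so `Y > 0` as `det N > 0`. `N10`, `N11` from `N10 + N11 a = X c`, `N10 - N11 b = - Y d`.
`R`: `R det N = B adj N`; e.g. `R00 det N = B00 N11 - B01 N10`; multiply by `(a + b)²` and use the formulas, `B01 (a + b) = l - m`,
`B00 = l - B01 a`; then cancel `a + b` (`field_simp`, `linear_combination`). Or: `(l, m)`-coordinates: `e0 A = (l, m) = R00 x0 + R01 x1`: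
`l = R00 X + R01 X c`, `m = R00 Y - R01 Y d`, and `e1 A = (l a, - m b)`: `l a = R10 X + R11 X c`, `- m b = R10 Y - R11 Y d`: solve.
-/

open Matrix

namespace Pool.Agent.DimRep.TN

open Pool.Agent.DimRep.TB2

variable {t : ℕ} {D : ℤ} {B C : Matrix (Fin 2) (Fin 2) ℕ} {N R : Matrix (Fin 2) (Fin 2) ℤ}

private theorem coord_cls (h : Irr t D) (hB : Cls t D B) :
    0 < (B 0 1 : ℝ) ∧ 0 < al t D B ∧ 0 < be t D B ∧
      (al t D B + be t D B) * B 0 1 = lam t D - mu t D ∧ (B 0 0 : ℝ) = lam t D - B 0 1 * al t D B ∧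
      (B 1 0 : ℝ) = B 0 1 * al t D B * be t D B ∧ (B 1 1 : ℝ) = mu t D + B 0 1 * al t D B := by
  obtain ⟨e1, e2⟩ := hB.entries h
  have e1' : (0 : ℝ) < B 0 1 := by exact_mod_cast e1
  obtain ⟨h1, h2, h3⟩ := hB.lam_lt h
  obtain ⟨f1, f2, f3, f4⟩ := lam_facts h hB
  have ht : (B 0 0 : ℝ) + B 1 1 = t := by exact_mod_cast hB.1
  have ea : (B 0 1 : ℝ) * al t D B = lam t D - B 0 0 := by
    unfold al
    field_simp
  have eb : (B 0 1 : ℝ) * be t D B = lam t D - B 1 1 := by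
    unfold be
    field_simp
  refine ⟨e1', div_pos (by linarith) e1', div_pos (by linarith) e1', ?_, ?_, ?_, ?_⟩
  · linear_combination ea + eb - ht + f1
  · linear_combination ea
  · have h4 : (B 0 1 : ℝ) * ((B 1 0 : ℝ) - B 0 1 * al t D B * be t D B) = 0 := by
      linear_combination (-1 : ℝ) * h3 - (B 0 1 : ℝ) * be t D B * ea - (lam t D - B 0 0) * eb
    rcases mul_eq_zero.1 h4 with h5 | h5
    · exact absurd h5 e1'.ne'
    · linear_combination h5
  · linear_combination ht - f1 - ea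

private theorem coord_entry {S : Matrix (Fin 2) (Fin 2) ℤ} (hSB : S * toZ B = toZ C * S) (i j : Fin 2) :
    (S i 0 : ℝ) * B 0 j + (S i 1 : ℝ) * B 1 j = (C i 0 : ℝ) * S 0 j + (C i 1 : ℝ) * S 1 j := by
  have h1 := congrFun (congrFun hSB i) j
  simp only [Matrix.mul_apply, Fin.sum_univ_two, toZ, Matrix.map_apply] at h1
  exact_mod_cast h1

private theorem coord_entryR {R N : Matrix (Fin 2) (Fin 2) ℤ} (hB : toZ B = R * N) (i j : Fin 2) :
    (B i j : ℝ) = (R i 0 : ℝ) * N 0 j + (R i 1 : ℝ) * N 1 j := by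
  have h1 := congrFun (congrFun hB i) j
  simp only [Matrix.mul_apply, Fin.sum_univ_two, toZ, Matrix.map_apply] at h1
  exact_mod_cast h1

/-- the coordinates of the second row -/
private theorem coord_row (h : Irr t D) (hR : Rel t D B C N) :
    0 < (N 0 0 : ℝ) + N 0 1 * al t D B ∧
      (N 1 0 : ℝ) + N 1 1 * al t D B = (N 0 0 + N 0 1 * al t D B) * al t D C ∧
      (N 1 0 : ℝ) - N 1 1 * be t D B = -((N 0 0 - N 0 1 * be t D B) * be t D C) := by
  obtain ⟨κ, hκ, hκ'⟩ := hR.eq_rho h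
  obtain ⟨hB, hC, hNB, -, -⟩ := hR
  obtain ⟨b1, b2, b3, b4, b5, b6, b7⟩ := coord_cls h hB
  obtain ⟨c1, c2, c3, c4, c5, c6, c7⟩ := coord_cls h hC
  have r0 : (N 0 0 : ℝ) * B 0 1 + (N 0 1 : ℝ) * (lam t D - B 0 0) = κ * C 0 1 := hκ' 0
  have r1 : (N 1 0 : ℝ) * B 0 1 + (N 1 1 : ℝ) * (lam t D - B 0 0) = κ * (lam t D - C 0 0) := hκ' 1
  have q0 : (B 0 1 : ℝ) * (N 0 0 + N 0 1 * al t D B) = κ * C 0 1 := by
    linear_combination r0 + (N 0 1 : ℝ) * b5
  have q1 : (B 0 1 : ℝ) * (N 1 0 + N 1 1 * al t D B) = κ * (C 0 1 * al t D C) := by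
    linear_combination r1 + (N 1 1 : ℝ) * b5 - κ * c5
  refine ⟨?_, ?_, ?_⟩
  · have : 0 < (B 0 1 : ℝ) * (N 0 0 + N 0 1 * al t D B) := by rw [q0]; positivity
    exact (mul_pos_iff_of_pos_left b1).1 this
  · refine mul_left_cancel₀ b1.ne' ?_
    linear_combination q1 - al t D C * q0
  · have e0 := coord_entry hNB 0 0
    have e1 := coord_entry hNB 0 1
    have g0 : (B 0 0 : ℝ) - B 0 1 * be t D B = mu t D := by linear_combination b5 - b4
    have g1 : (B 1 0 : ℝ) - B 1 1 * be t D B = -(mu t D * be t D B) := by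
      linear_combination b6 - be t D B * b7
    have g2 : (C 0 1 : ℝ) * ((N 1 0 : ℝ) - N 1 1 * be t D B) =
        (C 0 1 : ℝ) * (-((N 0 0 - N 0 1 * be t D B) * be t D C)) := by
      linear_combination (-1 : ℝ) * e0 + be t D B * e1 + (N 0 0 : ℝ) * g0 + (N 0 1 : ℝ) * g1 -
        (N 0 0 - N 0 1 * be t D B) * c5 + (N 0 0 - N 0 1 * be t D B) * c4
    exact mul_left_cancel₀ c1.ne' g2

theorem fr0_of (h : Irr t D) (hR : Rel t D B C N) (hdet : 0 < N.det) :
    Fr0 N (al t D B) (be t D B) (al t D C) (be t D C) (N 0 0 + N 0 1 * al t D B) (N 0 0 - N 0 1 * be t D B) := by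
  obtain ⟨hX, hXc, hYd⟩ := coord_row h hR
  obtain ⟨b1, b2, b3, b4, b5, b6, b7⟩ := coord_cls h hR.1
  obtain ⟨c1, c2, c3, c4, c5, c6, c7⟩ := coord_cls h hR.2.1
  have hdr : (N.det : ℝ) = (N 0 0 : ℝ) * N 1 1 - (N 0 1 : ℝ) * N 1 0 := by
    rw [Matrix.det_fin_two]
    push_cast
    ring
  have key : (al t D B + be t D B) * (N.det : ℝ) = ((N 0 0 : ℝ) + N 0 1 * al t D B) *
      (N 0 0 - N 0 1 * be t D B) * (al t D C + be t D C) := by
    rw [hdr]
    linear_combination ((N 0 0 : ℝ) - N 0 1 * be t D B) * hXc - ((N 0 0 : ℝ) + N 0 1 * al t D B) * hYd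
  refine ⟨b2, b3, c2, c3, hX, ?_, ?_, ?_, ?_, ?_, key⟩
  · have h1 : 0 < (N.det : ℝ) := by exact_mod_cast hdet
    have h2 : 0 < (al t D B + be t D B) * (N.det : ℝ) := mul_pos (by linarith) h1
    rw [key] at h2
    have h3 := (mul_pos_iff_of_pos_right (show 0 < al t D C + be t D C by linarith)).1 h2
    exact (mul_pos_iff_of_pos_left hX).1 h3
  · ring
  · ring
  · linear_combination be t D B * hXc + al t D B * hYd
  · linear_combination hXc - hYd

theorem fr_of (h : Irr t D) (hmu : 0 < mu t D) (hR : Rel t D B C N) (hB : toZ B = R * N) (hdet : 0 < N.det) :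
    Fr (lam t D) (mu t D) B C N R (al t D B) (be t D B) (al t D C) (be t D C)
      (N 0 0 + N 0 1 * al t D B) (N 0 0 - N 0 1 * be t D B) := by
  have hF := fr0_of h hR hdet
  obtain ⟨hX, hXc, hYd⟩ := coord_row h hR
  obtain ⟨b1, b2, b3, b4, b5, b6, b7⟩ := coord_cls h hR.1
  obtain ⟨c1, c2, c3, c4, c5, c6, c7⟩ := coord_cls h hR.2.1
  obtain ⟨f1, f2, f3, f4⟩ := lam_facts h hR.1
  have r00 := coord_entryR hB 0 0
  have r01 := coord_entryR hB 0 1
  have r10 := coord_entryR hB 1 0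
  have r11 := coord_entryR hB 1 1
  have s0 : lam t D = (R 0 0 : ℝ) * (N 0 0 + N 0 1 * al t D B) +
      R 0 1 * ((N 0 0 + N 0 1 * al t D B) * al t D C) := by
    linear_combination (-1 : ℝ) * b5 + r00 + al t D B * r01 + (R 0 1 : ℝ) * hXc
  have s1 : mu t D = (R 0 0 : ℝ) * (N 0 0 - N 0 1 * be t D B) +
      R 0 1 * (-((N 0 0 - N 0 1 * be t D B) * be t D C)) := by
    linear_combination (-1 : ℝ) * b5 + b4 + r00 - be t D B * r01 + (R 0 1 : ℝ) * hYd
  have s2 : lam t D * al t D B = (R 1 0 : ℝ) * (N 0 0 + N 0 1 * al t D B) +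
      R 1 1 * ((N 0 0 + N 0 1 * al t D B) * al t D C) := by
    linear_combination (-1 : ℝ) * b6 - al t D B * b7 - al t D B * b4 + r10 + al t D B * r11 +
      (R 1 1 : ℝ) * hXc
  have s3 : -(mu t D * be t D B) = (R 1 0 : ℝ) * (N 0 0 - N 0 1 * be t D B) +
      R 1 1 * (-((N 0 0 - N 0 1 * be t D B) * be t D C)) := by
    linear_combination (-1 : ℝ) * b6 + be t D B * b7 + r10 - be t D B * r11 + (R 1 1 : ℝ) * hYd
  set X := (N 0 0 : ℝ) + N 0 1 * al t D B with hXdef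
  set Y := (N 0 0 : ℝ) - N 0 1 * be t D B with hYdef
  refine ⟨hF, hmu, f4, ?_, ?_, ?_, ?_, b4, b5, b6, b7, c4, c5, c6, c7⟩
  · linear_combination (-1 : ℝ) * (Y * be t D C) * s0 - (X * al t D C) * s1
  · linear_combination (-1 : ℝ) * Y * s0 + X * s1
  · linear_combination (-1 : ℝ) * (Y * be t D C) * s2 - (X * al t D C) * s3
  · linear_combination (-1 : ℝ) * Y * s2 + X * s3

end Pool.Agent.DimRep.TN
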