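import Pool.Agent.Lib.MP_5f1e54_an.TN.Coord
import Pool.Agent.Lib.MP_5f1e54_an.TN.Shift

/-!
# TN-Cross: the two consecutive left vectors of `L'` on the two sides of the slope of `e0`

`N11 > 0` always (`Fr0.N11`). `al C < 1` iff `X(x1) < X(x0)`; the backward move `x0 → x0 - x1` is `mv_FU'` (condition `rho C 1 < rho C 0`, i.e.
`al C < 1`), `x1 → x1 - x0` is `mv_FR'` (`rho C 0 < rho C 1`, i.e. `1 < al C`; `al C ≠ 1` by `rho_ne`); the forward moves are `mv_FR`
(`tau C 1 < tau C 0`, i.e. `1 < be C`) and `mv_FU` (`tau C 0 < tau C 1`, i.e. `be C < 1`). All keep `B` and `det N`.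
`cross_bwd` (`0 ≤ N01`): strong induction on `N01 + N11` (natural numbers by `toNat`). If `N01 = 0`: `shiftC` with `j = -⌊al C⌋`
(`0 < al C + j < 1`, not `0` because `l` is irrational: `lam_irr`; `be C - j > 0`), done: `N01 = 0 < N11`. If `0 < N01` and `al C > 1`: `mv_FR'`:
`(N01, N11 - N01)`, induction. If `0 < N01` and `al C < 1`: if `N01 < N11` done; otherwise `mv_FU'`: `(N01 - N11, N11)`, induction.
`cross`: strong induction on `N11 - N01` for `N01 < 0`: `mv_FR`: `(N01, N11 + N01)` (`N11 + N01 > 0` by `Fr0.N11` of the new triple);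
`mv_FU`: `(N01 + N11, N11)`: if still `< 0` induction, otherwise `cross_bwd`. For `0 ≤ N01`: `cross_bwd`.
-/

open Matrix

namespace Pool.Agent.DimRep.TN

open Pool.Agent.DimRep.TB2

variable {t : ℕ} {D : ℤ} {B C : Matrix (Fin 2) (Fin 2) ℕ} {N R : Matrix (Fin 2) (Fin 2) ℤ}

private theorem cross_N11 (h : Irr t D) (hR : Rel t D B C N) (hdet : 0 < N.det) : 0 < N 1 1 := by
  have hF := fr0_of h hR hdet
  have h1 := hF.N11
  have h2 : 0 < (al t D B + be t D B) * (N 1 1 : ℝ) := by
    rw [h1]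
    exact add_pos (mul_pos hF.X_pos hF.c_pos) (mul_pos hF.Y_pos hF.d_pos)
  have h3 : (0 : ℝ) < N 1 1 := by
    by_contra hc
    have := mul_nonpos_of_nonneg_of_nonpos (add_pos hF.a_pos hF.b_pos).le (not_lt.1 hc)
    linarith
  exact_mod_cast h3

private theorem cross_al (h : Irr t D) (hC : Cls t D C) :
    (al t D C < 1 ↔ rho t D C 1 < rho t D C 0) ∧ 0 < al t D C ∧ 0 < be t D C ∧ ∀ n : ℤ, al t D C ≠ n := by
  have h0 : (0 : ℝ) < C 0 1 := rho_pos h hC 0
  obtain ⟨h1, h2, -⟩ := hC.lam_lt h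
  refine ⟨?_, ?_, ?_, ?_⟩
  · rw [al, div_lt_one h0]
    exact Iff.rfl
  · exact div_pos (by linarith) h0
  · exact div_pos (by linarith) h0
  · intro n hn
    rw [al, div_eq_iff h0.ne'] at hn
    refine lam_irr h hC (C 0 0 + n * C 0 1) 1 one_ne_zero ?_
    push_cast
    linarith

private theorem cross_bwd (h : Irr t D) (hR : Rel t D B C N) (hdet : 0 < N.det) (h0 : 0 ≤ N 0 1) :
    ∃ (C' : Matrix (Fin 2) (Fin 2) ℕ) (N' : Matrix (Fin 2) (Fin 2) ℤ), Eqv t D B C N B C' N' ∧
      N'.det = N.det ∧ 0 ≤ N' 0 1 ∧ N' 0 1 < N' 1 1 ∧ al t D C' < 1 := by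
  obtain ⟨n, hn⟩ : ∃ n : ℕ, (N 0 1 + N 1 1).toNat = n := ⟨_, rfl⟩
  induction n using Nat.strong_induction_on generalizing C N with
  | _ n ih =>
    have hC := hR.2.1
    have h11 := cross_N11 h hR hdet
    obtain ⟨hal, ha0, hb0, hirr⟩ := cross_al h hC
    rcases lt_or_eq_of_le h0 with hpos | hzero
    · rcases lt_or_ge (al t D C) 1 with hlt | hge
      · rcases lt_or_ge (N 0 1) (N 1 1) with hl | hg
        · exact ⟨C, N, Eqv.refl h hR, rfl, h0, hl, hlt⟩
        · obtain ⟨C1, hE⟩ := mv_FU' h hR (hal.1 hlt)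
          have hd : (!![N 0 0 - N 1 0, N 0 1 - N 1 1; N 1 0, N 1 1] : Matrix (Fin 2) (Fin 2) ℤ).det
              = N.det := by
            rw [Matrix.det_fin_two, Matrix.det_fin_two]
            simp
            ring
          obtain ⟨C', N', g1, g2, g3, g4, g5⟩ := ih (N 0 1 - N 1 1 + N 1 1).toNat (by omega)
            (hE.rel h hR) (by rw [hd]; exact hdet) (by simpa using hg) (by simp)
          exact ⟨C', N', hE.trans h g1, g2.trans hd, g3, g4, g5⟩
      · have hgt : rho t D C 0 < rho t D C 1 := by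
          have h1 : ¬ rho t D C 1 < rho t D C 0 := fun h2 => absurd (hal.2 h2) (not_lt.2 hge)
          rcases lt_or_eq_of_le (not_lt.1 h1) with h2 | h2
          · exact h2
          · exfalso
            refine hirr 1 ?_
            have h3 : (0 : ℝ) < C 0 1 := rho_pos h hC 0
            have h4 : (C 0 1 : ℝ) = lam t D - C 0 0 := h2
            rw [al, ← h4, div_self h3.ne']
            simp
        obtain ⟨C1, hE⟩ := mv_FR' h hR hgt
        have hd : (!![N 0 0, N 0 1; N 1 0 - N 0 0, N 1 1 - N 0 1] : Matrix (Fin 2) (Fin 2) ℤ).det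
            = N.det := by
          rw [Matrix.det_fin_two, Matrix.det_fin_two]
          simp
          ring
        obtain ⟨C', N', g1, g2, g3, g4, g5⟩ := ih (N 0 1 + (N 1 1 - N 0 1)).toNat (by omega)
          (hE.rel h hR) (by rw [hd]; exact hdet) (by simpa using h0) (by simp)
        exact ⟨C', N', hE.trans h g1, g2.trans hd, g3, g4, g5⟩
    · obtain ⟨C1, hE, -, hal1, -⟩ := shiftC h hR (-⌊al t D C⌋) (by
          have h1 := Int.fract_nonneg (al t D C)
          have h2 : Int.fract (al t D C) = al t D C - ⌊al t D C⌋ := rfl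
          have h3 : Int.fract (al t D C) ≠ 0 := by
            intro h4
            rw [h2] at h4
            exact hirr _ (sub_eq_zero.1 h4)
          have h4 : 0 < Int.fract (al t D C) := lt_of_le_of_ne h1 (Ne.symm h3)
          push_cast
          rw [h2] at h4
          linarith) (by
          have h1 : (0 : ℤ) ≤ ⌊al t D C⌋ := Int.floor_nonneg.2 ha0.le
          have h2 : (0 : ℝ) ≤ ⌊al t D C⌋ := by exact_mod_cast h1
          push_cast
          linarith)
      refine ⟨C1, _, hE, ?_, ?_, ?_, ?_⟩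
      · rw [Matrix.det_fin_two, Matrix.det_fin_two]
        simp
        ring
      · simp [← hzero]
      · simpa [← hzero] using h11
      · rw [hal1]
        push_cast
        have := Int.lt_floor_add_one (al t D C)
        linarith

theorem cross (h : Irr t D) (hR : Rel t D B C N) (hdet : 0 < N.det) :
    ∃ (C' : Matrix (Fin 2) (Fin 2) ℕ) (N' : Matrix (Fin 2) (Fin 2) ℤ), Eqv t D B C N B C' N' ∧
      N'.det = N.det ∧ 0 ≤ N' 0 1 ∧ N' 0 1 < N' 1 1 ∧ al t D C' < 1 := by
  obtain ⟨n, hn⟩ : ∃ n : ℕ, (N 1 1 - N 0 1).toNat = n := ⟨_, rfl⟩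
  induction n using Nat.strong_induction_on generalizing C N with
  | _ n ih =>
    rcases lt_or_ge (N 0 1) 0 with hneg | hnn
    · have hC := hR.2.1
      have h11 := cross_N11 h hR hdet
      rcases lt_or_gt_of_ne (tau_ne h hC) with hτ | hτ
      · obtain ⟨C1, hE⟩ := mv_FU h hR hτ
        have hd : (!![N 0 0 + N 1 0, N 0 1 + N 1 1; N 1 0, N 1 1] : Matrix (Fin 2) (Fin 2) ℤ).det
            = N.det := by
          rw [Matrix.det_fin_two, Matrix.det_fin_two]
          simp
          ring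
        obtain ⟨C', N', g1, g2, g3, g4, g5⟩ := ih (N 1 1 - (N 0 1 + N 1 1)).toNat (by omega)
          (hE.rel h hR) (by rw [hd]; exact hdet) (by simp)
        exact ⟨C', N', hE.trans h g1, g2.trans hd, g3, g4, g5⟩
      · obtain ⟨C1, hE⟩ := mv_FR h hR hτ
        have hd : (!![N 0 0, N 0 1; N 0 0 + N 1 0, N 0 1 + N 1 1] : Matrix (Fin 2) (Fin 2) ℤ).det
            = N.det := by
          rw [Matrix.det_fin_two, Matrix.det_fin_two]
          simp
          ring
        obtain ⟨C', N', g1, g2, g3, g4, g5⟩ := ih (N 0 1 + N 1 1 - N 0 1).toNat (by omega)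
          (hE.rel h hR) (by rw [hd]; exact hdet) (by simp)
        exact ⟨C', N', hE.trans h g1, g2.trans hd, g3, g4, g5⟩
    · exact cross_bwd h hR hdet hnn

end Pool.Agent.DimRep.TN
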