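import Pool.Agent.Lib.MP_5f1e54_an.TB2.Step

/-!
# 2 x 2 matrices with `(tr)² ≥ 9 det`: definitions (board TN)

`B` is the matrix of `A` in a basis `(e0, e1)` of a lattice `L''` (rows: `e_i A = Σ B i j e_j`). In eigen-coordinates every
vector has an `X`-coordinate (expanded by `l = lam`) and a `Y`-coordinate (expanded by `m = mu`), normalised by `e0 = (1, 1)`:
`e1 = (a, -b)` with `a = al B`, `b = be B`, both `> 0`. So `v = (v0, v1)` has `X = v0 + v1 a`, `Y = v0 - v1 b`.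
`C` is the matrix in a basis `(x0, x1)` of `L' ⊆ L''`, the rows of `N`: `x0 = (X, Y)`, `x1 = (X c, - Y d)` with `c = al C`, `d = be C`.
`R` is the matrix with `B = R N`, `C = N R` (`L'' A ⊆ L'`).
-/

open Matrix

namespace Pool.Agent.DimRep.TN

open Pool.Agent.DimRep.TB2

/-- `X(e1) / X(e0)` -/
noncomputable def al (t : ℕ) (D : ℤ) (B : Matrix (Fin 2) (Fin 2) ℕ) : ℝ := (lam t D - B 0 0) / B 0 1

/-- `- Y(e1) / Y(e0)` -/
noncomputable def be (t : ℕ) (D : ℤ) (B : Matrix (Fin 2) (Fin 2) ℕ) : ℝ := (lam t D - B 1 1) / B 0 1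

/-- the coordinates of the rows of `N` -/
structure Fr0 (N : Matrix (Fin 2) (Fin 2) ℤ) (a b c d X Y : ℝ) : Prop where
  a_pos : 0 < a
  b_pos : 0 < b
  c_pos : 0 < c
  d_pos : 0 < d
  X_pos : 0 < X
  Y_pos : 0 < Y
  N00 : (a + b) * N 0 0 = b * X + a * Y
  N01 : (a + b) * N 0 1 = X - Y
  N10 : (a + b) * N 1 0 = b * (X * c) - a * (Y * d)
  N11 : (a + b) * N 1 1 = X * c + Y * d
  det : (a + b) * (N.det : ℝ) = X * Y * (c + d)

/-- all coordinates; `l = lam`, `m = mu` -/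
structure Fr (l m : ℝ) (B C : Matrix (Fin 2) (Fin 2) ℕ) (N R : Matrix (Fin 2) (Fin 2) ℤ)
    (a b c d X Y : ℝ) : Prop extends Fr0 N a b c d X Y where
  m_pos : 0 < m
  m_lt : m < l
  R00 : X * Y * (c + d) * R 0 0 = l * (Y * d) + m * (X * c)
  R01 : X * Y * (c + d) * R 0 1 = l * Y - m * X
  R10 : X * Y * (c + d) * R 1 0 = l * (a * (Y * d)) - m * (b * (X * c))
  R11 : X * Y * (c + d) * R 1 1 = l * (a * Y) + m * (b * X)
  B01 : (a + b) * B 0 1 = l - m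
  B00 : (B 0 0 : ℝ) = l - B 0 1 * a
  B10 : (B 1 0 : ℝ) = B 0 1 * a * b
  B11 : (B 1 1 : ℝ) = m + B 0 1 * a
  C01 : (c + d) * C 0 1 = l - m
  C00 : (C 0 0 : ℝ) = l - C 0 1 * c
  C10 : (C 1 0 : ℝ) = C 0 1 * c * d
  C11 : (C 1 1 : ℝ) = m + C 0 1 * c

/-- all off-diagonal entries of the nonnegative matrices in the oriented bases of the lattice of `B` are `≥ k` -/
def MinAt (t : ℕ) (D : ℤ) (k : ℕ) (B : Matrix (Fin 2) (Fin 2) ℕ) : Prop :=
  ∀ (B' : Matrix (Fin 2) (Fin 2) ℕ) (E E' : Matrix (Fin 2) (Fin 2) ℤ), Rel t D B B' E → E * E' = 1 →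
    k ≤ B' 0 1 ∧ k ≤ B' 1 0

/-- exchange of the diagonal entries: the transpose, followed by the exchange of the two basis vectors -/
def dg {α : Type} (M : Matrix (Fin 2) (Fin 2) α) : Matrix (Fin 2) (Fin 2) α := !![M 1 1, M 0 1; M 1 0, M 0 0]

end Pool.Agent.DimRep.TN
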