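import Pool.Agent.Lib.MP_5f1e54_an.TN.CaseA

/-!
# TN-Fin: all steps are realised if `(tr)² ≥ 9 det`

`mu ≠ 0` (`lam mu = D ≠ 0`). `mu < 0`: `step_ok` (`mu (⌊√p⌋ - 1) ≤ 0 ≤ p`). Let `mu > 0`, `Rel t D B C N`, `toZ B = R * N`, `N.det ≠ 0`.
`fin1`: `MinAt t D k B`, `MinAt t D k C`, `k = B01` or `k = B10`: `Lnk`. If `k = B10`: exchange the basis of `B` (`exists_swap`, `TB2/Same.lean`;
`Eqv` with `E = !![0, 1; 1, 0]`, `F = 1`; the new `B'01 = B10`: from `E B = B' E`), `MinAt` for `B'` by `minAt_rel`; so `k = B01`. If `det N < 0`: `mv_swap` (exchange of the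
rows of `N`), `MinAt` for the new `C` by `minAt_rel`. Then `caseA`.
Main: let `k` be the least value of `min (min B'01 B'10) (min C'01 C'10)` over all `(B', C', N')` with `Eqv t D B C N B' C' N'` (`Nat.find`). Take
`(B', C', N')` where it is attained. `MinAt t D k B'`: a `B''` with `Rel t D B' B'' E`, `E E' = 1` gives `Eqv` to `(B'', C', N' E')`. The same for `C'`.
If `k = B'01` or `B'10`: `fin1`. If `k = C'01` or `C'10`: `fin1` for `(dg C', dg B', dg N')` with `R := dg R'` (`rel_dg`, `dg_mul`, `nr_eq`, `minAt_dg`,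
`(dg C')01 = C'01`, `(dg C')10 = C'10`), then `lnk_dg`. Finally `Eqv.lnk`.
-/

open Matrix

namespace Pool.Agent.DimRep.TN

open Pool.Agent.DimRep.TB2

variable {t : ℕ} {D : ℤ}

private theorem fin_sw :
    (!![0, 1; 1, 0] : Matrix (Fin 2) (Fin 2) ℤ) * !![0, 1; 1, 0] = 1 := by
  ext i j; fin_cases i <;> fin_cases j <;> simp [Matrix.mul_apply]

private theorem fin_toZ_dg (M : Matrix (Fin 2) (Fin 2) ℕ) : toZ (dg M) = dg (toZ M) := by
  ext i j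
  fin_cases i <;> fin_cases j <;> simp [toZ, dg]

/-- `k = B01` -/
private theorem fin_zero {B C : Matrix (Fin 2) (Fin 2) ℕ} {N R : Matrix (Fin 2) (Fin 2) ℤ} (h : Irr t D)
    (hmu : 0 < mu t D) (h9 : 9 * D ≤ (t : ℤ) ^ 2) (hR : Rel t D B C N) (hB : toZ B = R * N)
    (hm1 : MinAt t D (B 0 1) B) (hm2 : MinAt t D (B 0 1) C) : Lnk B C (zQ N) := by
  rcases lt_or_gt_of_ne hR.2.2.2.1 with hd | hd
  · obtain ⟨C', hE⟩ := mv_swap h hR
    obtain ⟨R', hB'⟩ := hE.div ⟨R, hB⟩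
    have hR' := hE.rel h hR
    have hm2' : MinAt t D (B 0 1) C' := by
      obtain ⟨E, E', F, F', hE1, hEE, hF, hFF, hN⟩ := hE
      exact minAt_rel h hm2 hF hFF
    have hdet : (!![N 1 0, N 1 1; N 0 0, N 0 1] : Matrix (Fin 2) (Fin 2) ℤ).det = - N.det := by
      rw [Matrix.det_fin_two, Matrix.det_fin_two]
      simp
      ring
    exact hE.lnk h (caseA h hmu h9 hR' hB' (by rw [hdet]; omega) hm1 hm2')
  · exact caseA h hmu h9 hR hB hd hm1 hm2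

/-- `k = B01` or `k = B10` -/
private theorem fin_one {B C : Matrix (Fin 2) (Fin 2) ℕ} {N R : Matrix (Fin 2) (Fin 2) ℤ} (h : Irr t D)
    (hmu : 0 < mu t D) (h9 : 9 * D ≤ (t : ℤ) ^ 2) (hR : Rel t D B C N) (hB : toZ B = R * N) {k : ℕ}
    (hm1 : MinAt t D k B) (hm2 : MinAt t D k C) (hk : k = B 0 1 ∨ k = B 1 0) : Lnk B C (zQ N) := by
  rcases hk with hk | hk
  · subst hk
    exact fin_zero h hmu h9 hR hB hm1 hm2
  · obtain ⟨B', hB', -⟩ := exists_swap h hR.1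
    have hE : Eqv t D B C N B' C (1 * N * !![0, 1; 1, 0]) :=
      ⟨!![0, 1; 1, 0], !![0, 1; 1, 0], 1, 1, hB', fin_sw, Rel.refl h hR.2.1, by simp, rfl⟩
    obtain ⟨R', hBR⟩ := hE.div ⟨R, hB⟩
    have hm1' : MinAt t D k B' := minAt_rel h hm1 hB' fin_sw
    have hk' : k = B' 0 1 := by
      have h1 := congrFun (congrFun hB'.2.2.1 0) 0
      simp [toZ, Matrix.mul_apply, Fin.sum_univ_two] at h1
      omega
    subst hk'
    exact hE.lnk h (fin_zero h hmu h9 (hE.rel h hR) hBR hm1' hm2)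

theorem ok_nine (h : Irr t D) (h9 : 9 * D ≤ (t : ℤ) ^ 2) {p : ℕ} (hp : 1 ≤ p) : OKp t D p := by
  rcases le_or_gt (mu t D) 0 with hmu | hmu
  · apply step_ok h hp
    have h1 : (1 : ℝ) ≤ (Nat.sqrt p : ℝ) := by
      exact_mod_cast Nat.sqrt_pos.2 hp
    have h2 : mu t D * ((Nat.sqrt p : ℝ) - 1) ≤ 0 :=
      mul_nonpos_of_nonpos_of_nonneg hmu (by linarith)
    have h3 : (0 : ℝ) ≤ p := Nat.cast_nonneg p
    linarith
  intro B C N hR _ hdiv
  obtain ⟨R, hB⟩ := hdiv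
  classical
  have hex : ∃ k : ℕ, ∃ (B' C' : Matrix (Fin 2) (Fin 2) ℕ) (N' : Matrix (Fin 2) (Fin 2) ℤ),
      Eqv t D B C N B' C' N' ∧ ((k = B' 0 1 ∨ k = B' 1 0) ∨ (k = C' 0 1 ∨ k = C' 1 0)) :=
    ⟨B 0 1, B, C, N, Eqv.refl h hR, Or.inl (Or.inl rfl)⟩
  obtain ⟨B', C', N', hE, hk⟩ := Nat.find_spec hex
  have hmin : ∀ k' : ℕ, (∃ (B' C' : Matrix (Fin 2) (Fin 2) ℕ) (N' : Matrix (Fin 2) (Fin 2) ℤ),
      Eqv t D B C N B' C' N' ∧ ((k' = B' 0 1 ∨ k' = B' 1 0) ∨ (k' = C' 0 1 ∨ k' = C' 1 0))) →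
      Nat.find hex ≤ k' := fun k' hk' => Nat.find_min' hex hk'
  generalize Nat.find hex = k at hk hmin
  have hR' := hE.rel h hR
  obtain ⟨R', hB'⟩ := hE.div ⟨R, hB⟩
  have hm1 : MinAt t D k B' := by
    intro B'' E E' hR1 hEE
    have hE2 : Eqv t D B' C' N' B'' C' (1 * N' * E') :=
      ⟨E, E', 1, 1, hR1, hEE, Rel.refl h hR'.2.1, by simp, rfl⟩
    have hE3 := hE.trans h hE2
    exact ⟨hmin _ ⟨B'', C', _, hE3, Or.inl (Or.inl rfl)⟩,
      hmin _ ⟨B'', C', _, hE3, Or.inl (Or.inr rfl)⟩⟩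
  have hm2 : MinAt t D k C' := by
    intro C'' F F' hR1 hFF
    have hE2 : Eqv t D B' C' N' B' C'' (F * N' * 1) :=
      ⟨1, 1, F, F', Rel.refl h hR'.1, by simp, hR1, hFF, rfl⟩
    have hE3 := hE.trans h hE2
    exact ⟨hmin _ ⟨B', C'', _, hE3, Or.inr (Or.inl rfl)⟩,
      hmin _ ⟨B', C'', _, hE3, Or.inr (Or.inr rfl)⟩⟩
  refine hE.lnk h ?_
  rcases hk with hk | hk
  · exact fin_one h hmu h9 hR' hB' hm1 hm2 hk
  · apply lnk_dg
    have hRd := rel_dg h hR'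
    have hC : toZ (dg C') = dg R' * dg N' := by
      rw [fin_toZ_dg, nr_eq hR' hB', dg_mul]
    refine fin_one h hmu h9 hRd hC (minAt_dg h hm2) (minAt_dg h hm1) (k := k) ?_
    rcases hk with hk | hk
    · exact Or.inl hk
    · exact Or.inr hk

end Pool.Agent.DimRep.TN
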