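import Pool.Agent.Lib.MP_5f1e54_an.TN.Fin
import Pool.Agent.Lib.MP_5f1e54_an.TB2.Main

/-!
# TN-Main
-/

open Matrix

namespace Pool.Agent.DimRep.TN

open Pool.Agent.DimRep.TB2

theorem main3 {t : ℕ} {D : ℤ} (h : Irr t D) {A : Matrix (Fin 2) (Fin 2) ℕ} (hA : Cls t D A)
    (h9 : 9 * D ≤ (t : ℤ) ^ 2) {ψ : (Fin 2 → ℚ) → (Fin 2 → ℚ)} (hψ : IsDimAut A ψ) :
    InImageOfDimRep A ψ := by
  obtain ⟨Z, T, k, m, hR, hT, hv⟩ := aut_matrix h hA hψ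
  have hL : Lnk A A (zQ Z) := chain h hR ⟨T, m, hT⟩ (fun p hpp _ => ok_nine h h9 hpp.one_le)
  obtain ⟨Y, j, h1, h2⟩ := hL.good
  refine ⟨Y, k + j, h1, fun v hvA => ?_⟩
  rw [h2, ← Matrix.vecMul_vecMul, ← hv v hvA, Matrix.vecMul_vecMul, ← pow_add]

end Pool.Agent.DimRep.TN
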